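import Pool.Agent.K1H60.BF.Step

/-!
# The modification, for a vector of the form `e₀ + p ζ e₁`
-/

set_option autoImplicit false

namespace Pool.Agent.K1H60.BF

open LaurentPolynomial Matrix Pool.Agent.R799

variable {ι : Type*} [Fintype ι] [DecidableEq ι]

lemma conjT_transvection (i j : ι) (c : Lam) :
    conjT (transvection i j c) = transvection j i (bar c) := by
  refine Matrix.ext fun a b => ?_
  rw [conjT_apply]
  simp only [transvection, Matrix.add_apply, Matrix.one_apply, Matrix.single_apply, map_add]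
  by_cases h : a = b
  · subst h
    by_cases h1 : i = a ∧ j = a
    · simp [h1]
    · have h2 : ¬ (j = a ∧ i = a) := fun hh => h1 ⟨hh.2, hh.1⟩
      simp [h1, h2]
  · have h' : b ≠ a := fun hh => h hh.symm
    by_cases h1 : i = b ∧ j = a
    · simp [h, h', h1]
    · have h2 : ¬ (j = a ∧ i = b) := fun hh => h1 ⟨hh.2, hh.1⟩
      simp [h, h', h1, h2]

/-- The transition matrix. -/
noncomputable def QM (A : Matrix ι ι Lam) (i0 i1 : ι) (p m ζ : Lam) : Matrix ι ι Lam :=
  bar p • transvection i1 i0 (-(p * ζ)) +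
    vecMulVec (Pi.single i0 1)
      (fun j => (if j = i0 then p * bar p * m else 0) - A i0 j - bar p * bar ζ * A i1 j)

/-- **The modification.** -/
theorem comb {A : Matrix ι ι Lam} (hA : conjT A = A) (hd : A.det ≠ 0) {i0 i1 : ι} (hne : i0 ≠ i1)
    {p h α m0 : Lam} (hm0 : bar m0 = m0)
    (hp : p = 1 + A.det ^ 2 * (A i0 i1 * bar (A i0 i1)) * h) (hp0 : p ≠ 0)
    (ha : A i0 i0 = p * α + bar p * bar α + p * bar p * m0) :
    ∃ (A' : Matrix ι ι Lam) (ζ m : Lam), conjT A' = A' ∧ A'.det = A.det ∧ Iso A A' ∧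
      conjT (QM A i0 i1 p m ζ) * A' * QM A i0 i1 p m ζ = (p * bar p) • A ∧
      ζ = -(A.det ^ 2 * bar (A i0 i1) * bar h * (1 - α)) ∧
      m = m0 - (1 - α) - (1 - bar α) + ζ * bar ζ * A i1 i1 ∧
      A' i1 i1 = A i1 i1 + m * ((bar (A i0 i1) + p * ζ * A i1 i1) *
        (A i0 i1 + bar p * bar ζ * A i1 i1)) := by
  have hb : ∀ i j, bar (A j i) = A i j := fun i j => by rw [← conjT_apply, hA]
  have hbd : bar A.det = A.det := by rw [← det_conjT, hA]
  obtain ⟨ζ, hζ⟩ : ∃ ζ, ζ = -(A.det ^ 2 * bar (A i0 i1) * bar h * (1 - α)) := ⟨_, rfl⟩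
  obtain ⟨m, hm⟩ : ∃ m, m = m0 - (1 - α) - (1 - bar α) + ζ * bar ζ * A i1 i1 := ⟨_, rfl⟩
  have hbm : bar m = m := by
    rw [hm]
    simp only [map_add, map_sub, map_mul, map_one, bar_bar, hm0, hb]
    ring
  have hbp : bar p = 1 + A.det ^ 2 * (A i0 i1 * bar (A i0 i1)) * bar h := by
    rw [hp]
    simp only [map_add, map_mul, map_one, map_pow, bar_bar, hbd]
    ring
  have hζ1 : A i0 i1 * ζ = (1 - bar p) * (1 - α) := by
    rw [hζ, hbp]; ring
  have hζ2 : bar (A i0 i1) * bar ζ = (1 - p) * (1 - bar α) := by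
    have := congrArg bar hζ1
    simpa using this
  set z : Lam := p * ζ with hz
  have hbz : bar z = bar p * bar ζ := by rw [hz, map_mul]
  set U := transvection i1 i0 z with hU
  have hcU : conjT U = transvection i0 i1 (bar z) := conjT_transvection _ _ _
  have hUU : U * transvection i1 i0 (-z) = 1 := by
    rw [hU, transvection_mul_transvection_same _ _ hne.symm, add_neg_cancel, transvection_zero]
  have hUU' : transvection i1 i0 (-z) * U = 1 := by
    rw [hU, transvection_mul_transvection_same _ _ hne.symm, neg_add_cancel, transvection_zero]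
  have hUc : conjT (transvection i1 i0 (-z)) * conjT U = 1 := by
    rw [← conjT_mul, hUU, conjT_one]
  obtain ⟨B, hB⟩ : ∃ B, B = conjT U * A * U := ⟨_, rfl⟩
  have hB00 : B i0 i0 = A i0 i0 + z * A i0 i1 + bar z * (bar (A i0 i1) + z * A i1 i1) := by
    rw [hB, Matrix.mul_assoc, hcU, transvection_mul_apply_same, hU, mul_transvection_apply_same,
      mul_transvection_apply_same, hb]
  have hB0j : ∀ j, j ≠ i0 → B i0 j = A i0 j + bar z * A i1 j := by
    intro j hj
    rw [hB, Matrix.mul_assoc, hcU, transvection_mul_apply_same, hU,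
      mul_transvection_apply_of_ne _ _ _ _ hj, mul_transvection_apply_of_ne _ _ _ _ hj]
  have hBij : ∀ i j, i ≠ i0 → j ≠ i0 → B i j = A i j := by
    intro i j hi hj
    rw [hB, Matrix.mul_assoc, hcU, transvection_mul_apply_of_ne _ _ _ _ hi, hU,
      mul_transvection_apply_of_ne _ _ _ _ hj]
  have hBi0 : ∀ i, i ≠ i0 → B i i0 = A i i0 + z * A i i1 := by
    intro i hi
    rw [hB, Matrix.mul_assoc, hcU, transvection_mul_apply_of_ne _ _ _ _ hi, hU,
      mul_transvection_apply_same]
  have hBh : conjT B = B := by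
    rw [hB, conjT_mul, conjT_mul, conjT_conjT, hA, Matrix.mul_assoc]
  have hdU : U.det = 1 := det_transvection_of_ne _ _ hne.symm _
  have hBd : B.det = A.det := by
    rw [hB, Matrix.det_mul, Matrix.det_mul, det_conjT, hdU]; simp
  have h00 : B i0 i0 = p + bar p + p * bar p * m := by
    rw [hB00, hbz, ha, hm, hz]
    linear_combination p * hζ1 + bar p * hζ2
  have hiso1 : Iso A B := by rw [hB]; exact iso_congr hA hd hUU hUU'
  have hiso2 : Iso B (stepM B i0 (1 + p * m) m) := by
    refine step_iso hBh (by rw [hBd]; exact hd) i0 (h := A i0 i1 * bar (A i0 i1) * h) hbm ?_ hp0 h00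
    rw [hBd, hp]; ring
  refine ⟨stepM B i0 (1 + p * m) m, ζ, m, stepM_herm hBh i0 _ hbm, ?_, hiso1.trans hiso2, ?_, hζ,
    hm, ?_⟩
  · rw [step_det hBh i0 h00 hp0, hBd]
  · have hQ : QM A i0 i1 p m ζ = rk i0 (bar p) (vQ B i0 p) * transvection i1 i0 (-z) := by
      unfold QM rk
      rw [Matrix.add_mul, Matrix.smul_mul, Matrix.one_mul, Matrix.vecMulVec_mul]
      congr 2
      funext j
      have hv : (vQ B i0 p ᵥ* transvection i1 i0 (-z)) j =
          vQ B i0 p j + if j = i0 then -z * vQ B i0 p i1 else 0 := by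
        rw [transvection, Matrix.vecMul_add, Matrix.vecMul_one, Pi.add_apply]
        congr 1
        rw [Matrix.vecMul, dotProduct]
        by_cases hj : j = i0
        · subst hj
          rw [if_pos rfl, Finset.sum_eq_single i1]
          · simp; ring
          · intro b _ hb'
            simp [Matrix.single_apply, Ne.symm hb']
          · intro h; exact absurd (Finset.mem_univ _) h
        · rw [if_neg hj]
          apply Finset.sum_eq_zero
          intro b _
          simp [Matrix.single_apply, Ne.symm hj]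
      rw [hv]
      unfold vQ
      by_cases hj : j = i0
      · subst hj
        rw [if_pos rfl, if_pos rfl, if_pos rfl, if_neg hne.symm, hB0j _ hne.symm, hbz, hz]
        have e1 : A i1 j = bar (A j i1) := (hb i1 j).symm
        rw [e1]
        rw [hB00, hbz, hz] at h00
        linear_combination (-1 : Lam) * h00
      · rw [if_neg hj, if_neg hj, if_neg hj, hB0j _ hj, hbz]
        ring
    have h1 := step_quad hBh i0 h00
    have e2 : conjT (transvection i1 i0 (-z)) * B * transvection i1 i0 (-z) = A := by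
      rw [hB]
      calc conjT (transvection i1 i0 (-z)) * (conjT U * A * U) * transvection i1 i0 (-z)
          = (conjT (transvection i1 i0 (-z)) * conjT U) * A * (U * transvection i1 i0 (-z)) := by
            simp only [Matrix.mul_assoc]
        _ = A := by
            rw [hUc, hUU, Matrix.one_mul, Matrix.mul_one]
    rw [hQ, conjT_mul]
    calc conjT (transvection i1 i0 (-z)) * conjT (rk i0 (bar p) (vQ B i0 p)) *
          stepM B i0 (1 + p * m) m * (rk i0 (bar p) (vQ B i0 p) * transvection i1 i0 (-z))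
        = conjT (transvection i1 i0 (-z)) * (conjT (rk i0 (bar p) (vQ B i0 p)) *
          stepM B i0 (1 + p * m) m * rk i0 (bar p) (vQ B i0 p)) * transvection i1 i0 (-z) := by
          simp only [Matrix.mul_assoc]
      _ = (p * bar p) • (conjT (transvection i1 i0 (-z)) * B * transvection i1 i0 (-z)) := by
          rw [h1, Matrix.mul_smul, Matrix.smul_mul]
      _ = (p * bar p) • A := by rw [e2]
  · have hi1 : i1 ≠ i0 := hne.symm
    unfold stepM
    rw [if_neg hi1, if_neg hi1, hBij _ _ hi1 hi1, hBi0 _ hi1, hB0j _ hi1, hbz, hz, hb]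

end Pool.Agent.K1H60.BF
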