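import Pool.Agent.K1H60.BF.Lau

/-!
# Isometries between the pairings of hermitian matrices
-/

set_option autoImplicit false

namespace Pool.Agent.K1H60.BF

open LaurentPolynomial Matrix Pool.Agent.R799

section General

variable {l m n : Type*} [Fintype l] [Fintype m] [Fintype n]

lemma isoP_symm {N : Matrix m m Lam} {P : Matrix m m Om} {N' : Matrix n n Lam}
    {P' : Matrix n n Om} (h : IsometricPairings N P N' P') : IsometricPairings N' P' N P := by
  obtain ⟨e, he⟩ := h
  refine ⟨e.symm, fun a b a' b' ha hb => ?_⟩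
  have ha' : Carries e a' a := by
    unfold Carries at ha ⊢
    rw [← ha, LinearEquiv.apply_symm_apply]
  have hb' : Carries e b' b := by
    unfold Carries at hb ⊢
    rw [← hb, LinearEquiv.apply_symm_apply]
  obtain ⟨c, hc⟩ := he a' b' a b ha' hb'
  exact ⟨-c, by rw [map_neg, ← hc]; ring⟩

lemma isoP_trans {N : Matrix l l Lam} {P : Matrix l l Om} {N' : Matrix m m Lam}
    {P' : Matrix m m Om} {N'' : Matrix n n Lam} {P'' : Matrix n n Om}
    (h : IsometricPairings N P N' P') (h' : IsometricPairings N' P' N'' P'') :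
    IsometricPairings N P N'' P'' := by
  obtain ⟨e, he⟩ := h
  obtain ⟨e', he'⟩ := h'
  refine ⟨e.trans e', fun a b a'' b'' ha hb => ?_⟩
  have hs : ∀ x : Coker N', ∃ v, Coker.mk N' v = x := fun x => Submodule.Quotient.mk_surjective _ x
  obtain ⟨a', ha'⟩ := hs (e (Coker.mk N a))
  obtain ⟨b', hb'⟩ := hs (e (Coker.mk N b))
  have h1 : Carries e' a' a'' := by
    unfold Carries at ha ⊢
    rw [ha', ← ha]; rfl
  have h2 : Carries e' b' b'' := by
    unfold Carries at hb ⊢
    rw [hb', ← hb]; rfl
  obtain ⟨c, hc⟩ := he a b a' b' ha'.symm hb'.symm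
  obtain ⟨c', hc'⟩ := he' a' b' a'' b'' h1 h2
  exact ⟨c + c', by rw [map_add, ← hc, ← hc']; ring⟩

end General

section Mat

variable {l m n : Type*}

lemma conjT_apply (A : Matrix m n Lam) (i : n) (j : m) : conjT A i j = bar (A j i) := rfl

lemma conjT_mul [Fintype n] (A : Matrix m n Lam) (B : Matrix n l Lam) :
    conjT (A * B) = conjT B * conjT A := by
  refine Matrix.ext fun i j => ?_
  rw [conjT_apply, Matrix.mul_apply, Matrix.mul_apply, map_sum]
  apply Finset.sum_congr rfl
  intro k _
  rw [map_mul, conjT_apply, conjT_apply, mul_comm]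

@[simp] lemma conjT_conjT (A : Matrix m n Lam) : conjT (conjT A) = A := by
  refine Matrix.ext fun i j => ?_; simp [conjT_apply]

@[simp] lemma conjT_one [DecidableEq n] : conjT (1 : Matrix n n Lam) = 1 := by
  refine Matrix.ext fun i j => ?_
  rw [conjT_apply, Matrix.one_apply, Matrix.one_apply]
  by_cases h : i = j
  · simp [h]
  · simp [h, Ne.symm h]

lemma conjT_add (A B : Matrix m n Lam) : conjT (A + B) = conjT A + conjT B := by
  refine Matrix.ext fun i j => ?_; simp [conjT_apply]

lemma det_conjT [Fintype n] [DecidableEq n] (A : Matrix n n Lam) :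
    (conjT A).det = bar A.det := by
  show ((A.map (LaurentPolynomial.invert (R := ℤ)))ᵀ).det = _
  rw [Matrix.det_transpose]
  exact (RingHom.map_det bar A).symm

lemma toOm_one [DecidableEq n] : toOm (1 : Matrix n n Lam) = 1 := by
  unfold toOm
  exact Matrix.map_one _ (map_zero _) (map_one _)

lemma toOm_add (A B : Matrix m n Lam) : toOm (A + B) = toOm A + toOm B := by
  unfold toOm; ext i j; simp

lemma toOm_neg (A : Matrix m n Lam) : toOm (-A) = -toOm A := by
  unfold toOm; ext i j; simp

lemma toOm_smul (c : Lam) (A : Matrix m n Lam) : toOm (c • A) = algebraMap Lam Om c • toOm A := by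
  unfold toOm; ext i j; simp

lemma det_toOm [Fintype n] [DecidableEq n] (A : Matrix n n Lam) :
    (toOm A).det = algebraMap Lam Om A.det := (RingHom.map_det (algebraMap Lam Om) A).symm

lemma det_toOm_ne [Fintype n] [DecidableEq n] {A : Matrix n n Lam} (hA : A.det ≠ 0) :
    (toOm A).det ≠ 0 := by
  rw [det_toOm]
  exact fun h => hA ((map_eq_zero_iff _ (IsFractionRing.injective Lam Om)).1 h)

lemma inv_mul_toOm [Fintype n] [DecidableEq n] {A : Matrix n n Lam} (hA : A.det ≠ 0) :
    (toOm A)⁻¹ * toOm A = 1 :=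
  Matrix.nonsing_inv_mul _ (isUnit_iff_ne_zero.2 (det_toOm_ne hA))

lemma toOm_mul_inv [Fintype n] [DecidableEq n] {A : Matrix n n Lam} (hA : A.det ≠ 0) :
    toOm A * (toOm A)⁻¹ = 1 :=
  Matrix.mul_nonsing_inv _ (isUnit_iff_ne_zero.2 (det_toOm_ne hA))

end Mat

variable {n : Type*} [Fintype n] [DecidableEq n]

/-- The pairings of two matrices are isometric. -/
def Iso (A B : Matrix n n Lam) : Prop := IsometricPairings A (toOm A)⁻¹ B (toOm B)⁻¹

lemma Iso.symm {A B : Matrix n n Lam} (h : Iso A B) : Iso B A := isoP_symm h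

lemma Iso.trans {A B C : Matrix n n Lam} (h : Iso A B) (h' : Iso B C) : Iso A C := isoP_trans h h'

/-- Congruent matrices have isometric pairings. -/
theorem iso_congr {A U U' : Matrix n n Lam} (hA : conjT A = A) (hd : A.det ≠ 0)
    (h1 : U * U' = 1) (h2 : U' * U = 1) : Iso A (conjT U * A * U) := by
  have h1' : conjT U' * conjT U = 1 := by rw [← conjT_mul, h1, conjT_one]
  have h2' : conjT U * conjT U' = 1 := by rw [← conjT_mul, h2, conjT_one]
  have hdU : U.det ≠ 0 := by
    intro h
    have := congrArg Matrix.det h1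
    rw [Matrix.det_mul, h, zero_mul, Matrix.det_one] at this
    exact zero_ne_one this
  have hdU' : (conjT U).det ≠ 0 := by
    intro h
    have := congrArg Matrix.det h2'
    rw [Matrix.det_mul, h, zero_mul, Matrix.det_one] at this
    exact zero_ne_one this
  have hd' : (conjT U * A * U).det ≠ 0 := by
    rw [Matrix.det_mul, Matrix.det_mul]
    exact mul_ne_zero (mul_ne_zero hdU' hd) hdU
  have hherm : conjT (conjT U * A * U) = conjT U * A * U := by
    rw [conjT_mul, conjT_mul, conjT_conjT, hA, Matrix.mul_assoc]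
  refine isometric_of A (toOm A)⁻¹ (conjT U * A * U) (toOm (conjT U * A * U))⁻¹ (conjT U)
    (conjT U') U' U 0 0 ?_ ?_ ?_ ?_ 1 1 ?_ ?_ 0 ?_
  · rw [Matrix.mul_assoc (conjT U * A), h1, Matrix.mul_one]
  · rw [← Matrix.mul_assoc, ← Matrix.mul_assoc, h1', Matrix.one_mul]
  · rw [h1', Matrix.mul_zero, sub_zero]
  · rw [h2', Matrix.mul_zero, sub_zero]
  · rw [inv_mul_toOm hd', toOm_one]
  · rw [hherm, toOm_mul_inv hd', toOm_one]
  · have e1 : toOm (conjT U * A * U) = toOm (conjT U) * toOm A * toOm U := by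
      rw [toOm_mul, toOm_mul]
    have hAi := toOm_mul_inv hd
    have hU1 : toOm U * toOm U' = 1 := by rw [← toOm_mul, h1, toOm_one]
    have hU2 : toOm (conjT U') * toOm (conjT U) = 1 := by rw [← toOm_mul, h1', toOm_one]
    have hX : (toOm (conjT U * A * U))⁻¹ = toOm U' * (toOm A)⁻¹ * toOm (conjT U') := by
      apply Matrix.inv_eq_right_inv
      rw [e1]
      calc toOm (conjT U) * toOm A * toOm U * (toOm U' * (toOm A)⁻¹ * toOm (conjT U'))
          = toOm (conjT U) * (toOm A * (toOm U * toOm U') * (toOm A)⁻¹) * toOm (conjT U') := by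
            simp only [Matrix.mul_assoc]
        _ = 1 := by
            rw [hU1, Matrix.mul_one, hAi, Matrix.mul_one, ← toOm_mul, h2', toOm_one]
    rw [hX, conjT_conjT]
    calc toOm U * (toOm U' * (toOm A)⁻¹ * toOm (conjT U')) * toOm (conjT U)
        = (toOm U * toOm U') * (toOm A)⁻¹ * (toOm (conjT U') * toOm (conjT U)) := by
          simp only [Matrix.mul_assoc]
      _ = (toOm A)⁻¹ := by rw [hU1, hU2, Matrix.one_mul, Matrix.mul_one]
      _ = (toOm A)⁻¹ + toOm 0 := by
          have : toOm (0 : Matrix n n Lam) = 0 := by unfold toOm; ext i j; simp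
          rw [this, add_zero]

/-- If two hermitian matrices with the same determinant `d` agree modulo `d ^ 2`, then their
pairings are equal. -/
theorem iso_of_congr_mod {A A' C : Matrix n n Lam} (hA' : conjT A' = A') (hd : A.det ≠ 0)
    (hdet : A'.det = A.det) (h : A' = A + (A.det ^ 2) • C) : Iso A A' := by
  have hd' : A'.det ≠ 0 := by rw [hdet]; exact hd
  have ha1 : A * A.adjugate = A.det • 1 := Matrix.mul_adjugate A
  have ha2 : A.adjugate * A = A.det • 1 := Matrix.adjugate_mul A
  have ha3 : A' * A'.adjugate = A.det • 1 := by rw [Matrix.mul_adjugate, hdet]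
  have ha4 : A'.adjugate * A' = A.det • 1 := by rw [Matrix.adjugate_mul, hdet]
  have key : A.adjugate - A'.adjugate = A.det • (A'.adjugate * C * A.adjugate) := by
    have e1 : A'.adjugate * (A' - A) * A.adjugate =
        A.det • (A.adjugate - A'.adjugate) := by
      rw [Matrix.mul_sub, Matrix.sub_mul, ha4, Matrix.mul_assoc A'.adjugate A, ha1,
        Matrix.smul_mul, Matrix.one_mul, Matrix.mul_smul, Matrix.mul_one, smul_sub]
    have e2 : A' - A = (A.det ^ 2) • C := by rw [h]; simp
    rw [e2, Matrix.mul_smul, Matrix.smul_mul, pow_two, mul_smul] at e1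
    exact (smul_right_injective _ hd e1).symm
  refine isometric_of A (toOm A)⁻¹ A' (toOm A')⁻¹ 1 1 (1 - A.det • (A'.adjugate * C))
    (1 + A.det • (A.adjugate * C)) 0 0 ?_ ?_ ?_ ?_ 1 1 ?_ ?_ (-(A'.adjugate * C * A.adjugate)) ?_
  · rw [Matrix.one_mul, Matrix.mul_sub, Matrix.mul_one, Matrix.mul_smul, ← Matrix.mul_assoc, ha3,
      Matrix.smul_mul, Matrix.one_mul, smul_smul, ← pow_two]
    rw [h]; simp
  · rw [Matrix.one_mul, Matrix.mul_add, Matrix.mul_one, Matrix.mul_smul, ← Matrix.mul_assoc, ha1,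
      Matrix.smul_mul, Matrix.one_mul, smul_smul, ← pow_two, ← h]
  · simp
  · simp
  · rw [inv_mul_toOm hd', toOm_one]
  · rw [hA', toOm_mul_inv hd', toOm_one]
  · rw [conjT_one, toOm_one, Matrix.one_mul, Matrix.mul_one]
    have hi : ∀ B : Matrix n n Lam, B.det = A.det →
        (toOm B)⁻¹ = (algebraMap Lam Om A.det)⁻¹ • toOm B.adjugate := by
      intro B hB
      have hne : algebraMap Lam Om A.det ≠ 0 := by
        rw [← det_toOm]; exact det_toOm_ne hd
      apply Matrix.inv_eq_right_inv
      rw [Matrix.mul_smul, ← toOm_mul, Matrix.mul_adjugate, toOm_smul, toOm_one, smul_smul, hB,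
        inv_mul_cancel₀ hne, one_smul]
    have hne : algebraMap Lam Om A.det ≠ 0 := by
      rw [← det_toOm]; exact det_toOm_ne hd
    have k2 := congrArg toOm key
    rw [sub_eq_add_neg, toOm_add, toOm_neg, toOm_smul] at k2
    rw [hi A' hdet, hi A rfl, toOm_neg]
    have k3 : toOm A'.adjugate = toOm A.adjugate -
        algebraMap Lam Om A.det • toOm (A'.adjugate * C * A.adjugate) := by
      rw [← k2]; abel
    rw [k3, smul_sub, smul_smul, inv_mul_cancel₀ hne, one_smul, sub_eq_add_neg]

end Pool.Agent.K1H60.BF
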