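import Pool.Agent.K1H60.BF.Main

/-!
# Pairings on which `t - 1` acts surjectively; Blanchfield pairings of knots
-/

set_option autoImplicit false
set_option linter.unusedSectionVars false
set_option linter.unusedVariables false

namespace Pool.Agent.K1H60.BF

open LaurentPolynomial Matrix Pool.Agent.R799

/-- Multiplication by `t - 1` is surjective on `Λⁿ / N Λⁿ`. -/
def TSurj {n : Type*} [Fintype n] (N : Matrix n n Lam) : Prop :=
  Function.Surjective (fun x : Coker N => (T 1 - 1 : Lam) • x)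

lemma tSurj_of_equiv {m n : Type*} [Fintype m] [Fintype n] {N : Matrix m m Lam}
    {N' : Matrix n n Lam} (e : Coker N ≃ₗ[Lam] Coker N') (h : TSurj N') : TSurj N := by
  intro y
  obtain ⟨w, hw⟩ := h (e y)
  refine ⟨e.symm w, ?_⟩
  show (T 1 - 1 : Lam) • e.symm w = y
  have hw' : (T 1 - 1 : Lam) • w = e y := hw
  rw [← map_smul, hw', LinearEquiv.symm_apply_apply]

lemma unimod_of_surj {n : Type*} [Fintype n] [DecidableEq n] {A : Matrix n n Lam} (h : TSurj A) :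
    IsUnit (atOne A).det := by
  have key : ∀ j : n, ∃ x : n → Lam, ∃ z : n → Lam,
      A *ᵥ x = Pi.single j 1 - (T 1 - 1 : Lam) • z := by
    intro j
    obtain ⟨w, hw⟩ := h (Coker.mk A (Pi.single j 1))
    obtain ⟨z, rfl⟩ : ∃ z, Coker.mk A z = w := Submodule.Quotient.mk_surjective _ w
    have hw' : (T 1 - 1 : Lam) • Coker.mk A z = Coker.mk A (Pi.single j 1) := hw
    have h2 : Coker.mk A ((T 1 - 1 : Lam) • z) = Coker.mk A (Pi.single j 1) := hw'
    have h3 : (Submodule.Quotient.mk (Pi.single j 1) :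
        (n → Lam) ⧸ LinearMap.range A.mulVecLin) =
        Submodule.Quotient.mk ((T 1 - 1 : Lam) • z) := h2.symm
    rw [Submodule.Quotient.eq] at h3
    obtain ⟨x, hx⟩ := h3
    exact ⟨x, z, hx⟩
  choose x z hxz using key
  have h1 : atOne A * (Matrix.of fun i j => ev1 (x j i)) = 1 := by
    refine Matrix.ext fun i j => ?_
    have e1 := congrArg ev1 (congrFun (hxz j) i)
    rw [Matrix.mulVec, dotProduct, map_sum, Pi.sub_apply, Pi.smul_apply, smul_eq_mul, map_sub,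
      map_mul, map_sub, map_one] at e1
    have e2 : ev1 (T 1 : Lam) = 1 := ev1_tt
    rw [e2, sub_self, zero_mul, sub_zero] at e1
    rw [Matrix.mul_apply, Matrix.one_apply]
    have e3 : ev1 ((Pi.single j 1 : n → Lam) i) = if i = j then 1 else 0 := by
      rw [Pi.single_apply]
      split_ifs <;> simp
    rw [← e3, ← e1]
    apply Finset.sum_congr rfl
    intro k _
    rw [map_mul]
    rfl
  have h2 := congrArg Matrix.det h1
  rw [Matrix.det_mul, Matrix.det_one] at h2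
  exact IsUnit.of_mul_eq_one _ h2

lemma tSurj_alexander {n : Type*} [Fintype n] [DecidableEq n] {V : Matrix n n ℤ}
    (hV : IsUnit (V - Vᵀ).det) : TSurj (alexanderMatrix V) := by
  intro y
  obtain ⟨y, rfl⟩ : ∃ z, Coker.mk (alexanderMatrix V) z = y := Submodule.Quotient.mk_surjective _ y
  refine ⟨Coker.mk _ (-(toLam V *ᵥ (toLam (V - Vᵀ)⁻¹ *ᵥ y))), ?_⟩
  show Coker.mk (alexanderMatrix V) ((T 1 - 1 : Lam) •
    (-(toLam V *ᵥ (toLam (V - Vᵀ)⁻¹ *ᵥ y)))) = Coker.mk (alexanderMatrix V) y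
  refine (Submodule.Quotient.eq _).2 ?_
  refine ⟨-(toLam (V - Vᵀ)⁻¹ *ᵥ y), ?_⟩
  have e1 : alexanderMatrix V = (T 1 - 1 : Lam) • toLam V + toLam (V - Vᵀ) := by
    refine Matrix.ext fun i j => ?_
    show (T 1 : Lam) * ((V i j : ℤ) : Lam) - ((V j i : ℤ) : Lam) =
      (T 1 - 1 : Lam) * ((V i j : ℤ) : Lam) + (((V i j - V j i : ℤ)) : Lam)
    rw [Int.cast_sub]
    ring
  have e2 : toLam (V - Vᵀ) *ᵥ (toLam (V - Vᵀ)⁻¹ *ᵥ y) = y := by
    rw [Matrix.mulVec_mulVec, ← toLam_mul, Matrix.mul_nonsing_inv _ hV, toLam_one,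
      Matrix.one_mulVec]
  show alexanderMatrix V *ᵥ (-(toLam (V - Vᵀ)⁻¹ *ᵥ y)) = _
  rw [Matrix.mulVec_neg, e1, Matrix.add_mulVec, e2, Matrix.smul_mulVec]
  funext i
  simp only [Pi.neg_apply, Pi.add_apply, Pi.smul_apply, Pi.sub_apply, smul_eq_mul]
  ring

/-- **Hermitian matrices.** -/
theorem hermitian_main {k : ℕ} {A : Matrix (Fin k) (Fin k) Lam} (hA : conjT A = A)
    (hd : A.det ≠ 0) (hu : IsUnit (atOne A).det) :
    ∃ A' : Matrix (Fin k) (Fin k) Lam, conjT A' = A' ∧ A'.det = A.det ∧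
      IsometricPairings A (toOm A)⁻¹ A' (toOm A')⁻¹ ∧
      ∃ d : Fin k → ℤ, (∀ i, d i = 1 ∨ d i = -1) ∧ atOne A' = Matrix.diagonal d := by
  have hd1 : ev1 A.det ^ 2 = 1 := by
    rw [← det_atOne]
    rcases Int.isUnit_iff.1 hu with h | h <;> rw [h] <;> norm_num
  exact main hA hd hd1

/-- **Pairings.** -/
theorem pairing_main {n : Type*} [Fintype n] {N : Matrix n n Lam}
    {P : Matrix n n Om} (hN : TSurj N) {k : ℕ} {A : Matrix (Fin k) (Fin k) Lam}
    (hA : conjT A = A) (hd : A.det ≠ 0) (hiso : IsometricPairings A (toOm A)⁻¹ N P) :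
    ∃ A' : Matrix (Fin k) (Fin k) Lam, conjT A' = A' ∧ A'.det ≠ 0 ∧
      IsometricPairings A' (toOm A')⁻¹ N P ∧
      ∃ d : Fin k → ℤ, (∀ i, d i = 1 ∨ d i = -1) ∧ atOne A' = Matrix.diagonal d := by
  obtain ⟨e, he⟩ := id hiso
  obtain ⟨A', h1, h2, h3, h4⟩ := hermitian_main hA hd (unimod_of_surj (tSurj_of_equiv e hN))
  exact ⟨A', h1, by rw [h2]; exact hd, isoP_trans (isoP_symm h3) hiso, h4⟩

lemma congruentToDiagonal_of {k : ℕ} {B : Matrix (Fin k) (Fin k) ℤ}
    (h : ∃ d : Fin k → ℤ, (∀ i, d i = 1 ∨ d i = -1) ∧ B = Matrix.diagonal d) :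
    CongruentToDiagonal B := by
  obtain ⟨d, hd, rfl⟩ := h
  exact ⟨1, d, by simp, hd, by simp⟩

end Pool.Agent.K1H60.BF
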