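import Pool.Agent.K1H60.BF.Knot

/-!
# Blanchfield pairings of knots
-/

set_option autoImplicit false

namespace Pool.Agent.K1H60.BF

open LaurentPolynomial Matrix Pool.Agent.R799

/-- Every presentation of a Blanchfield pairing can be replaced by one which is diagonal at `1`. -/
theorem knot_main {n : Type*} [Fintype n] [DecidableEq n] {V : Matrix n n ℤ}
    (hV : IsUnit (V - Vᵀ).det) {k : ℕ} {A : Matrix (Fin k) (Fin k) Lam}
    (hA : PresentsBlanchfield A V) :
    ∃ A' : Matrix (Fin k) (Fin k) Lam, PresentsBlanchfield A' V ∧ A'.det = A.det ∧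
      ∃ d : Fin k → ℤ, (∀ i, d i = 1 ∨ d i = -1) ∧ atOne A' = Matrix.diagonal d := by
  obtain ⟨h1, hd, hiso⟩ := hA
  obtain ⟨e, he⟩ := id hiso
  obtain ⟨A', g1, g2, g3, g4⟩ := hermitian_main h1 hd
    (unimod_of_surj (tSurj_of_equiv e (tSurj_alexander hV)))
  exact ⟨A', ⟨g1, by rw [g2]; exact hd, isoP_trans (isoP_symm g3) hiso⟩, g2, g4⟩

end Pool.Agent.K1H60.BF
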