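import Pool.Agent.R799.Blanch

/-!
# Laurent polynomials: conjugation, values at `1` and `-1`
-/

set_option autoImplicit false

namespace Pool.Agent.K1H60.BF

open LaurentPolynomial Matrix Pool.Agent.R799

/-- The involution `t ↦ t⁻¹` as a ring homomorphism. -/
noncomputable def bar : Lam →+* Lam := ((LaurentPolynomial.invert (R := ℤ)) : Lam ≃ₐ[ℤ] Lam)

lemma bar_def (x : Lam) : bar x = LaurentPolynomial.invert x := rfl

@[simp] lemma bar_bar (x : Lam) : bar (bar x) = x := involutive_invert x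

@[simp] lemma bar_T (n : ℤ) : bar (T n) = T (-n) := invert_T n

/-- The value at `1`. -/
noncomputable def ev1 : Lam →+* ℤ := eval₂ (RingHom.id ℤ) 1

/-- The value at `-1`. -/
noncomputable def evm : Lam →+* ℤ := eval₂ (RingHom.id ℤ) (-1)

/-- `t` -/
noncomputable abbrev tt : Lam := T 1

/-- `t⁻¹` -/
noncomputable abbrev ti : Lam := T (-1)

lemma tt_ti : tt * ti = 1 := by
  rw [← T_add]; norm_num

lemma ti_tt : ti * tt = 1 := by
  rw [← T_add]; norm_num

@[simp] lemma bar_tt : bar tt = ti := bar_T 1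

@[simp] lemma bar_ti : bar ti = tt := by rw [bar_T]; norm_num

@[simp] lemma ev1_tt : ev1 tt = 1 := by
  have h : ev1 (T ((1 : ℕ) : ℤ)) = _ := eval₂_T_n (RingHom.id ℤ) 1 1
  simpa using h

@[simp] lemma evm_tt : evm tt = -1 := by
  have h : evm (T ((1 : ℕ) : ℤ)) = _ := eval₂_T_n (RingHom.id ℤ) (-1) 1
  simpa using h

@[simp] lemma ev1_ti : ev1 ti = 1 := by
  have h : ev1 tt * ev1 ti = 1 := by rw [← map_mul, tt_ti, map_one]
  simpa using h

@[simp] lemma evm_ti : evm ti = -1 := by
  have h : evm tt * evm ti = 1 := by rw [← map_mul, tt_ti, map_one]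
  rw [evm_tt] at h
  linarith

/-- Induction for Laurent polynomials over the integers. -/
lemma lam_induction {P : Lam → Prop} (h0 : P 0) (h1 : P 1) (hadd : ∀ x y, P x → P y → P (x + y))
    (hneg : ∀ x, P x → P (-x)) (ht : ∀ x, P x → P (tt * x)) (hti : ∀ x, P x → P (ti * x)) :
    ∀ x, P x := by
  have hint : ∀ n : ℤ, ∀ x, P x → P (n • x) := by
    intro n x hx
    have hnat : ∀ k : ℕ, P (k • x) := by
      intro k
      induction k with
      | zero => simpa using h0
      | succ k ih => rw [succ_nsmul]; exact hadd _ _ ih hx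
    rcases n.eq_nat_or_neg with ⟨k, rfl | rfl⟩
    · simpa using hnat k
    · simpa using hneg _ (hnat k)
  have hT : ∀ n : ℤ, P (T n) := by
    intro n
    have hp : ∀ k : ℕ, P (T (k : ℤ)) := by
      intro k
      induction k with
      | zero => simpa using h1
      | succ k ih =>
        have : (T ((k + 1 : ℕ) : ℤ) : Lam) = tt * T (k : ℤ) := by
          rw [← T_add]; push_cast; ring_nf
        rw [this]; exact ht _ ih
    have hm : ∀ k : ℕ, P (T (-(k : ℤ))) := by
      intro k
      induction k with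
      | zero => simpa using h1
      | succ k ih =>
        have : (T (-((k + 1 : ℕ) : ℤ)) : Lam) = ti * T (-(k : ℤ)) := by
          rw [← T_add]; push_cast; ring_nf
        rw [this]; exact hti _ ih
    rcases n.eq_nat_or_neg with ⟨k, rfl | rfl⟩
    · exact hp k
    · exact hm k
  intro x
  induction x using LaurentPolynomial.induction_on' with
  | add p q hp hq => exact hadd _ _ hp hq
  | C_mul_T n a =>
    have : (C a * T n : Lam) = a • T n := by
      rw [← smul_eq_C_mul]
    rw [this]; exact hint _ _ (hT n)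

@[simp] lemma ev1_bar (x : Lam) : ev1 (bar x) = ev1 x := by
  refine lam_induction (P := fun x => ev1 (bar x) = ev1 x) ?_ ?_ ?_ ?_ ?_ ?_ x
  · simp
  · simp
  · intro x y hx hy; simp [hx, hy]
  · intro x hx; simp [hx]
  · intro x hx; rw [map_mul, map_mul, map_mul, hx]; simp
  · intro x hx; rw [map_mul, map_mul, map_mul, hx]; simp

@[simp] lemma evm_bar (x : Lam) : evm (bar x) = evm x := by
  refine lam_induction (P := fun x => evm (bar x) = evm x) ?_ ?_ ?_ ?_ ?_ ?_ x
  · simp
  · simp
  · intro x y hx hy; simp [hx, hy]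
  · intro x hx; simp [hx]
  · intro x hx; rw [map_mul, map_mul, map_mul, hx]; simp
  · intro x hx; rw [map_mul, map_mul, map_mul, hx]; simp

/-- `x - x(1)` is divisible by `t - 1`. -/
lemma sub_ev1 (x : Lam) : ∃ y, x - (ev1 x : Lam) = (tt - 1) * y := by
  refine lam_induction (P := fun x => ∃ y, x - (ev1 x : Lam) = (tt - 1) * y) ?_ ?_ ?_ ?_ ?_ ?_ x
  · exact ⟨0, by simp⟩
  · exact ⟨0, by simp⟩
  · rintro x y ⟨a, ha⟩ ⟨b, hb⟩
    refine ⟨a + b, ?_⟩
    rw [map_add, Int.cast_add, mul_add, ← ha, ← hb]; ring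
  · rintro x ⟨a, ha⟩
    refine ⟨-a, ?_⟩
    rw [map_neg, Int.cast_neg, mul_neg, ← ha]; ring
  · rintro x ⟨a, ha⟩
    refine ⟨tt * a + (ev1 x : Lam), ?_⟩
    rw [map_mul, ev1_tt, one_mul]
    linear_combination tt * ha
  · rintro x ⟨a, ha⟩
    refine ⟨ti * a - ti * (ev1 x : Lam), ?_⟩
    rw [map_mul, ev1_ti, one_mul]
    linear_combination ti * ha + (ev1 x : Lam) * tt_ti

/-- `x - x(-1)` is divisible by `t + 1`. -/
lemma sub_evm (x : Lam) : ∃ y, x - (evm x : Lam) = (tt + 1) * y := by
  refine lam_induction (P := fun x => ∃ y, x - (evm x : Lam) = (tt + 1) * y) ?_ ?_ ?_ ?_ ?_ ?_ x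
  · exact ⟨0, by simp⟩
  · exact ⟨0, by simp⟩
  · rintro x y ⟨a, ha⟩ ⟨b, hb⟩
    refine ⟨a + b, ?_⟩
    rw [map_add, Int.cast_add, mul_add, ← ha, ← hb]; ring
  · rintro x ⟨a, ha⟩
    refine ⟨-a, ?_⟩
    rw [map_neg, Int.cast_neg, mul_neg, ← ha]; ring
  · rintro x ⟨a, ha⟩
    refine ⟨tt * a + (evm x : Lam), ?_⟩
    rw [map_mul, evm_tt]
    push_cast
    linear_combination tt * ha
  · rintro x ⟨a, ha⟩
    refine ⟨ti * a + ti * (evm x : Lam), ?_⟩
    rw [map_mul, evm_ti]
    push_cast
    linear_combination ti * ha - (evm x : Lam) * tt_ti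

lemma tt_sub_one_ne : (tt - 1 : Lam) ≠ 0 := by
  intro h
  have := congrArg evm h
  simp at this

lemma tt_add_one_ne : (tt + 1 : Lam) ≠ 0 := by
  intro h
  have := congrArg ev1 h
  simp at this

/-- `(1 - t) (1 - t⁻¹)` -/
noncomputable def tau : Lam := (1 - tt) * (1 - ti)

/-- `(1 + t) (1 + t⁻¹)` -/
noncomputable def xp : Lam := (1 + tt) * (1 + ti)

lemma tau_eq : tau = 2 - tt - ti := by
  unfold tau; linear_combination tt_ti

lemma xp_eq : xp = 2 + tt + ti := by
  unfold xp; linear_combination tt_ti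

lemma bar_tau : bar tau = tau := by
  rw [tau_eq, map_sub, map_sub, map_ofNat, bar_tt, bar_ti]; ring

lemma bar_xp : bar xp = xp := by
  rw [xp_eq, map_add, map_add, map_ofNat, bar_tt, bar_ti]; ring

@[simp] lemma ev1_tau : ev1 tau = 0 := by simp [tau]
@[simp] lemma evm_tau : evm tau = 4 := by simp [tau]
@[simp] lemma ev1_xp : ev1 xp = 4 := by simp [xp]
@[simp] lemma evm_xp : evm xp = 0 := by simp [xp]

lemma tau_ne : tau ≠ 0 := by
  intro h; have := congrArg evm h; simp at this

lemma xp_ne : xp ≠ 0 := by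
  intro h; have := congrArg ev1 h; simp at this

/-- A symmetric Laurent polynomial vanishing at `1` is a symmetric multiple of `tau`. -/
lemma sym_div_tau (f : Lam) (hf : bar f = f) (h1 : ev1 f = 0) : ∃ g, bar g = g ∧ f = tau * g := by
  obtain ⟨y, hy⟩ := sub_ev1 f
  rw [h1] at hy
  have hy' : f = (tt - 1) * y := by rw [← hy]; simp
  have hb : bar f = (ti - 1) * bar y := by rw [hy']; simp
  have e1 : (tt - 1) * y = (tt - 1) * (-ti * bar y) := by
    rw [← hy', ← hf, hb]
    linear_combination bar y * tt_ti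
  have e2 : y = -ti * bar y := mul_left_cancel₀ tt_sub_one_ne e1
  have e3 : ev1 y = 0 := by
    have := congrArg ev1 e2
    simp at this
    linarith
  obtain ⟨z, hz⟩ := sub_ev1 y
  rw [e3] at hz
  have hz' : y = (tt - 1) * z := by rw [← hz]; simp
  have hf2 : f = tau * (-tt * z) := by
    rw [hy', hz', tau_eq]
    linear_combination (-z) * tt_ti
  refine ⟨-tt * z, ?_, hf2⟩
  have h2 : tau * bar (-tt * z) = tau * (-tt * z) := by
    rw [← hf2, ← hf]
    conv_rhs => rw [hf2]
    rw [map_mul bar tau, bar_tau]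
  exact mul_left_cancel₀ tau_ne h2

/-- A symmetric Laurent polynomial vanishing at `-1` is a symmetric multiple of `xp`. -/
lemma sym_div_xp (f : Lam) (hf : bar f = f) (h1 : evm f = 0) : ∃ g, bar g = g ∧ f = xp * g := by
  obtain ⟨y, hy⟩ := sub_evm f
  rw [h1] at hy
  have hy' : f = (tt + 1) * y := by rw [← hy]; simp
  have hb : bar f = (ti + 1) * bar y := by rw [hy']; simp
  have e1 : (tt + 1) * y = (tt + 1) * (ti * bar y) := by
    rw [← hy', ← hf, hb]
    linear_combination (- bar y) * tt_ti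
  have e2 : y = ti * bar y := mul_left_cancel₀ tt_add_one_ne e1
  have e3 : evm y = 0 := by
    have := congrArg evm e2
    simp at this
    linarith
  obtain ⟨z, hz⟩ := sub_evm y
  rw [e3] at hz
  have hz' : y = (tt + 1) * z := by rw [← hz]; simp
  have hf2 : f = xp * (tt * z) := by
    rw [hy', hz', xp_eq]
    linear_combination (-z) * tt_ti
  refine ⟨tt * z, ?_, hf2⟩
  have h2 : xp * bar (tt * z) = xp * (tt * z) := by
    rw [← hf2, ← hf]
    conv_rhs => rw [hf2]
    rw [map_mul bar xp, bar_xp]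
  exact mul_left_cancel₀ xp_ne h2

/-- The values at `1` and at `-1` are congruent modulo `2`. -/
lemma ev_mod_two (x : Lam) : (2 : ℤ) ∣ ev1 x - evm x := by
  obtain ⟨y, hy⟩ := sub_ev1 x
  have := congrArg evm hy
  simp at this
  exact ⟨evm y, by linarith⟩

/-- The values at `1` and at `-1` of a symmetric Laurent polynomial are congruent modulo `4`. -/
lemma ev_mod_four (x : Lam) (hx : bar x = x) : (4 : ℤ) ∣ ev1 x - evm x := by
  obtain ⟨g, -, hg⟩ := sym_div_tau (x - (ev1 x : Lam)) (by simp [hx]) (by simp)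
  have := congrArg evm hg
  simp at this
  exact ⟨-evm g, by linarith⟩

end Pool.Agent.K1H60.BF
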