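import Pool.Agent.K1H60.BF.Two

/-!
# The modification changing the parity, for matrices of size two
-/

set_option autoImplicit false

namespace Pool.Agent.K1H60.BF

open LaurentPolynomial Matrix Pool.Agent.R799

lemma flip {A : Matrix (Fin 2) (Fin 2) Lam} (hA : conjT A = A) (hd : A.det ≠ 0)
    (hd1 : ev1 A.det ^ 2 = 1) {a1 : Lam} (ha1 : bar a1 = a1) (h00 : A 0 0 = tau * a1)
    (hpar : (2 : ℤ) ∣ ev1 a1) (h01 : ¬ (2 : ℤ) ∣ ev1 (A 0 1)) (h11 : (2 : ℤ) ∣ ev1 (A 1 1)) :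
    ∃ A' : Matrix (Fin 2) (Fin 2) Lam, conjT A' = A' ∧ A'.det = A.det ∧ Iso A A' ∧
      ¬ (2 : ℤ) ∣ atOne A' 1 1 := by
  have hb : ∀ i j, bar (A j i) = A i j := fun i j => by rw [← conjT_apply, hA]
  have hbd : bar A.det = A.det := by rw [← det_conjT, hA]
  obtain ⟨D, hD⟩ : ∃ D, D = A.det := ⟨_, rfl⟩
  have hbD : bar D = D := by rw [hD, hbd]
  obtain ⟨w, hw⟩ : ∃ w, w = 1 + D ^ 2 * ((1 - tt) * a1) := ⟨_, rfl⟩
  obtain ⟨m, hm⟩ : ∃ m, m = D ^ 2 * (1 + D ^ 2 * a1) := ⟨_, rfl⟩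
  have hbw : bar w = 1 + D ^ 2 * ((1 - ti) * a1) := by rw [hw]; simp [hbD, ha1]
  have hbm : bar m = m := by rw [hm]; simp [hbD, ha1]
  have hww : w * bar w = 1 + A 0 0 * m := by
    rw [hbw, hw, hm, h00, tau_eq]
    linear_combination (D ^ 4 * a1 ^ 2) * tt_ti
  obtain ⟨A', hA'⟩ : ∃ A' : Matrix (Fin 2) (Fin 2) Lam,
      A' = !![A 0 0, A 0 1 * w; A 1 0 * bar w, A 1 1 + A 1 0 * A 0 1 * m] := ⟨_, rfl⟩
  have hherm : conjT A' = A' := by
    refine Matrix.ext fun i j => ?_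
    rw [conjT_apply, hA']
    fin_cases i <;> fin_cases j <;> simp [hb, hbm, mul_comm]
  have hdet : A'.det = A.det := by
    rw [hA', Matrix.det_fin_two_of, Matrix.det_fin_two]
    linear_combination (-(A 0 1 * A 1 0)) * hww
  refine ⟨A', hherm, hdet, ?_, ?_⟩
  · refine iso_of_congr_mod (C := !![0, A 0 1 * ((1 - tt) * a1); A 1 0 * ((1 - ti) * a1),
      A 1 0 * A 0 1 * (1 + D ^ 2 * a1)]) hherm hd hdet ?_
    rw [← hD]
    refine Matrix.ext fun i j => ?_
    rw [hA', Matrix.add_apply, Matrix.smul_apply, smul_eq_mul]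
    fin_cases i <;> fin_cases j
    · simp
    · simp only [Matrix.of_apply, Fin.mk_zero, Fin.mk_one, Matrix.cons_val_zero,
        Matrix.cons_val_one, Fin.zero_eta, Fin.isValue, Matrix.cons_val', Matrix.cons_val_fin_one]
      rw [hw]; ring
    · simp only [Matrix.of_apply, Fin.mk_zero, Fin.mk_one, Matrix.cons_val_zero,
        Matrix.cons_val_one, Fin.zero_eta, Fin.isValue, Matrix.cons_val', Matrix.cons_val_fin_one]
      rw [hbw]; ring
    · simp only [Matrix.of_apply, Fin.mk_zero, Fin.mk_one, Matrix.cons_val_zero,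
        Matrix.cons_val_one, Fin.zero_eta, Fin.isValue, Matrix.cons_val', Matrix.cons_val_fin_one]
      rw [hm]; ring
  · rw [atOne_apply, hA']
    have h10 : ev1 (A 1 0) = ev1 (A 0 1) := by rw [← hb 1 0, ev1_bar]
    have e1 : ev1 m = 1 + ev1 a1 := by
      rw [hm, hD]
      simp only [map_mul, map_add, map_pow, map_one, hd1]
      ring
    simp only [Matrix.of_apply, Matrix.cons_val_one, Matrix.cons_val_zero, Matrix.cons_val',
      Matrix.cons_val_fin_one, map_add, map_mul, h10, e1]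
    obtain ⟨x, hx⟩ := hpar
    obtain ⟨y, hy⟩ := h11
    obtain ⟨z, hz⟩ : ∃ z, ev1 (A 0 1) = 2 * z + 1 := ⟨ev1 (A 0 1) / 2, by omega⟩
    rw [hx, hy, hz]
    rintro ⟨u, hu⟩
    have : (2 : ℤ) * (u - y - x * (2 * z + 1) ^ 2 - 2 * z ^ 2 - 2 * z) = 1 := by
      linear_combination (-1 : ℤ) * hu
    omega

/-- **Size two.** -/
theorem rank2_step {A : Matrix (Fin 2) (Fin 2) Lam} (hA : conjT A = A) (hd : A.det ≠ 0)
    (hd1 : ev1 A.det ^ 2 = 1) (h00 : atOne A 0 0 = 0) (h01 : ¬ (2 : ℤ) ∣ atOne A 0 1)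
    (h11 : (2 : ℤ) ∣ atOne A 1 1) :
    ∃ A' : Matrix (Fin 2) (Fin 2) Lam, conjT A' = A' ∧ A'.det = A.det ∧ Iso A A' ∧
      ¬ (2 : ℤ) ∣ atOne A' 1 1 := by
  have hb : ∀ i j, bar (A j i) = A i j := fun i j => by rw [← conjT_apply, hA]
  simp only [atOne_apply] at h00 h01 h11
  obtain ⟨a1, ha1, ha⟩ := sym_div_tau (A 0 0) (hb 0 0) h00
  by_cases hpar : (2 : ℤ) ∣ ev1 a1
  · exact flip hA hd hd1 ha1 ha hpar h01 h11
  · obtain ⟨B, b1, b2, b3, b4, b5, b6, b7⟩ := cong_entries hA hd (i0 := (0 : Fin 2)) (i2 := 1)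
      (by decide) (1 - tt)
    obtain ⟨y, hy⟩ := sub_ev1 (A 0 1)
    have hy' : A 0 1 = (ev1 (A 0 1) : Lam) + (tt - 1) * y := by rw [← hy]; ring
    have hy2 : A 1 0 = (ev1 (A 0 1) : Lam) + (ti - 1) * bar y := by
      rw [← hb 1 0]
      conv_lhs => rw [hy']
      simp
    have hB0 : B 0 0 = tau * (a1 + (ev1 (A 0 1) : Lam) + tt * y + ti * bar y + A 1 1) := by
      rw [b4, ha, hy2]
      conv_lhs => rw [hy']
      rw [tau_eq]
      simp only [map_sub, map_one, bar_tt]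
      simp only [map_add, map_mul, map_sub, map_one, map_intCast, ev1_tt, sub_self, zero_mul,
        add_zero]
      linear_combination (A 1 1 + y + bar y) * tt_ti
    have hB1 : B 1 1 = A 1 1 := b6 1 1 (by decide) (by decide)
    obtain ⟨C, c1, c2, c3, c4⟩ := flip b1 (by rw [b2]; exact hd) (by rw [b2]; exact hd1)
      (a1 := a1 + (ev1 (A 0 1) : Lam) + tt * y + ti * bar y + A 1 1)
      (by simp [ha1, hb]; ring) hB0
      (by
        simp only [map_add, map_mul, ev1_bar, ev1_tt, ev1_ti, map_intCast]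
        simp only [Int.cast_id]
        obtain ⟨u, hu⟩ := h11
        rw [hu]
        omega)
      (by
        rw [b5 1 (by decide)]
        simpa using h01)
      (by rw [hB1]; exact h11)
    exact ⟨C, c1, c2.trans b2, b3.trans c3, c4⟩

end Pool.Agent.K1H60.BF
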