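import Pool.Agent.K1H60.BF.Odd

/-!
# The modification which changes the parity
-/

set_option autoImplicit false

namespace Pool.Agent.K1H60.BF

open LaurentPolynomial Matrix Pool.Agent.R799

@[simp] lemma bar_two : bar (2 : Lam) = 2 := map_ofNat bar 2

/-- Representation of a symmetric polynomial, for `p(1) = 2`. -/
lemma rep_two {q : Lam} (hq : bar q = q) (c : ℤ) {p : Lam}
    (hp : p = 1 + q * (tt + (c : Lam) * tau)) (P4 : ℤ) (hp1 : ev1 p = 2) (hpm : evm p = 4 * P4)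
    {a : Lam} (ha : bar a = a) {a2 : ℤ} (hl : evm a = 8 * P4 * a2) :
    ∃ α m0 : Lam, bar m0 = m0 ∧ a = p * α + bar p * bar α + p * bar p * m0 := by
  have hbp : bar p = 1 + q * (ti + (c : Lam) * tau) := by
    rw [hp]; simp [hq, bar_tau]
  obtain ⟨g1, hg1⟩ : ∃ g, g = p + bar p := ⟨_, rfl⟩
  obtain ⟨g2, hg2⟩ : ∃ g, g = p * ti + bar p * tt := ⟨_, rfl⟩
  obtain ⟨E2, hE2⟩ : ∃ g, g = p * bar p - g1 - ((P4 - 1 : ℤ) : Lam) * (g1 - g2) := ⟨_, rfl⟩
  have b1 : bar g1 = g1 := by rw [hg1]; simp; ring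
  have b2 : bar g2 = g2 := by rw [hg2]; simp; ring
  have bE : bar E2 = E2 := by
    rw [hE2]; simp [b1, b2]; ring
  have v1 : ev1 g1 = 4 := by rw [hg1]; simp [hp1]
  have v2 : ev1 g2 = 4 := by rw [hg2]; simp [hp1]
  have vE : ev1 E2 = 0 := by
    rw [hE2]
    simp only [map_sub, map_mul, v1, v2, ev1_bar, hp1]; ring
  have w1 : evm g1 = 8 * P4 := by rw [hg1]; simp [hpm]; ring
  have w2 : evm g2 = -(8 * P4) := by rw [hg2]; simp [hpm]; ring
  have wE : evm E2 = 8 * P4 := by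
    rw [hE2]
    simp only [map_sub, map_mul, w1, w2, evm_bar, hpm, map_intCast]
    simp
    ring
  have key : ∀ F : Lam, bar F = F → ev1 F = 0 → evm F = 0 → ∃ r, bar r = r ∧ F = tau * xp * r := by
    intro F h1 h2 h3
    obtain ⟨G, hG, hG2⟩ := sym_div_tau F h1 h2
    have h4 : evm G = 0 := by
      have := congrArg evm hG2
      rw [h3, map_mul, evm_tau] at this
      linarith
    obtain ⟨r, hr, hr2⟩ := sym_div_xp G hG h4
    exact ⟨r, hr, by rw [hG2, hr2]; ring⟩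
  obtain ⟨r1, hr1, hF1⟩ := key (g1 - E2 - xp) (by simp [b1, bE, bar_xp])
    (by simp [v1, vE]) (by simp [w1, wE])
  obtain ⟨r2, hr2, hF2⟩ := key (((2 * P4 : ℤ) : Lam) * tau - E2) (by simp [bE, bar_tau])
    (by simp [vE]) (by
      simp only [map_sub, map_mul, map_intCast, evm_tau, wE]
      simp
      ring)
  obtain ⟨g, hg, hga⟩ := sym_div_xp (a - (evm a : Lam)) (by simp [ha]) (by simp)
  obtain ⟨β, hβ⟩ : ∃ β : Lam, β = -((tt + ti) * ti - 2) + (c : Lam) * tau * ((tt + ti) - 2 * ti) :=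
    ⟨_, rfl⟩
  have hbβ : bar β = -((tt + ti) * tt - 2) + (c : Lam) * tau * ((tt + ti) - 2 * tt) := by
    rw [hβ]
    simp only [map_add, map_neg, map_sub, map_mul, map_ofNat, bar_tt, bar_ti, bar_tau, map_intCast]
    ring
  have hβ2 : tau * xp = p * β + bar p * bar β := by
    rw [hbβ, hβ, hbp, hp, tau_eq, xp_eq]
    linear_combination (2 * q * (tt + ti) + 4 * q * (c : Lam) * (2 - tt - ti)) * tt_ti
  obtain ⟨G, hG⟩ : ∃ G, G = g + ((2 * P4 * a2 : ℤ) : Lam) := ⟨_, rfl⟩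
  have hbG : bar G = G := by rw [hG]; simp [hg]
  refine ⟨G + ((a2 : Lam) - G) * (-(P4 : Lam) + ((P4 : Lam) - 1) * ti) +
    β * ((a2 : Lam) * r2 - r1 * G), (a2 : Lam) - G, by simp [hbG], ?_⟩
  have hb : bar (G + ((a2 : Lam) - G) * (-(P4 : Lam) + ((P4 : Lam) - 1) * ti) +
    β * ((a2 : Lam) * r2 - r1 * G)) = G + ((a2 : Lam) - G) * (-(P4 : Lam) + ((P4 : Lam) - 1) * tt) +
    bar β * ((a2 : Lam) * r2 - r1 * G) := by
    simp [hbG, hr1, hr2]
  rw [hb]
  have h3 : a = ((8 * P4 * a2 : ℤ) : Lam) + xp * g := by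
    rw [← hga, hl]; ring
  have h4 : (xp : Lam) + tau = 4 := by rw [xp_eq, tau_eq]; ring
  rw [h3]
  push_cast at hF1 hF2 hE2 hG ⊢
  subst hg1
  subst hg2
  linear_combination (-2 * (P4 : Lam) * (a2 : Lam)) * h4 - xp * hG - G * hF1 + (a2 : Lam) * hF2 +
    ((a2 : Lam) - G) * hE2 + ((a2 : Lam) * r2 - r1 * G) * hβ2

/-- Hensel's lemma for the parameter. -/
lemma hensel_two (ω e r : ℤ) (hω : ¬ (2 : ℤ) ∣ ω) (he : (2 : ℤ) ∣ e) (N : ℕ) :
    ∃ x : ℤ, (2 : ℤ) ^ N ∣ r - x * ω + x ^ 2 * e := by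
  induction N with
  | zero => exact ⟨0, by simp⟩
  | succ N ih =>
    obtain ⟨x, c, hc⟩ := ih
    obtain ⟨e', rfl⟩ := he
    by_cases h : (2 : ℤ) ∣ c
    · obtain ⟨c', rfl⟩ := h
      exact ⟨x, c', by rw [hc]; ring⟩
    · refine ⟨x + 2 ^ N, ?_⟩
      obtain ⟨d, hd⟩ : (2 : ℤ) ∣ c - ω := by omega
      refine ⟨d + (2 * x * e' + 2 ^ N * e'), ?_⟩
      have : r - (x + 2 ^ N) * ω + (x + 2 ^ N) ^ 2 * (2 * e') =
        (r - x * ω + x ^ 2 * (2 * e')) - 2 ^ N * ω + (2 * x * 2 ^ N + 2 ^ N * 2 ^ N) * (2 * e') := by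
        ring
      rw [this, hc]
      rw [pow_succ]
      linear_combination (2 : ℤ) ^ N * hd

/-- Congruence by an elementary matrix: the entries. -/
lemma cong_entries {ι : Type*} [Fintype ι] [DecidableEq ι] {A : Matrix ι ι Lam} (hA : conjT A = A)
    (hd : A.det ≠ 0) {i0 i2 : ι} (hne : i2 ≠ i0) (z : Lam) :
    ∃ B : Matrix ι ι Lam, conjT B = B ∧ B.det = A.det ∧ Iso A B ∧
      B i0 i0 = A i0 i0 + z * A i0 i2 + bar z * (A i2 i0 + z * A i2 i2) ∧
      (∀ j, j ≠ i0 → B i0 j = A i0 j + bar z * A i2 j) ∧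
      (∀ i j, i ≠ i0 → j ≠ i0 → B i j = A i j) ∧
      (∀ i, i ≠ i0 → B i i0 = A i i0 + z * A i i2) := by
  have hUU : transvection i2 i0 z * transvection i2 i0 (-z) = 1 := by
    rw [transvection_mul_transvection_same _ _ hne, add_neg_cancel, transvection_zero]
  have hUU' : transvection i2 i0 (-z) * transvection i2 i0 z = 1 := by
    rw [transvection_mul_transvection_same _ _ hne, neg_add_cancel, transvection_zero]
  refine ⟨conjT (transvection i2 i0 z) * A * transvection i2 i0 z, ?_, ?_, iso_congr hA hd hUU hUU',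
    ?_, ?_, ?_, ?_⟩
  · rw [conjT_mul, conjT_mul, conjT_conjT, hA, Matrix.mul_assoc]
  · rw [Matrix.det_mul, Matrix.det_mul, det_conjT, det_transvection_of_ne _ _ hne]; simp
  · rw [Matrix.mul_assoc, conjT_transvection, transvection_mul_apply_same,
      mul_transvection_apply_same, mul_transvection_apply_same]
  · intro j hj
    rw [Matrix.mul_assoc, conjT_transvection, transvection_mul_apply_same,
      mul_transvection_apply_of_ne _ _ _ _ hj, mul_transvection_apply_of_ne _ _ _ _ hj]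
  · intro i j hi hj
    rw [Matrix.mul_assoc, conjT_transvection, transvection_mul_apply_of_ne _ _ _ _ hi,
      mul_transvection_apply_of_ne _ _ _ _ hj]
  · intro i hi
    rw [Matrix.mul_assoc, conjT_transvection, transvection_mul_apply_of_ne _ _ _ _ hi,
      mul_transvection_apply_same]

/-- Powers of two congruent to one modulo the square of an odd number. -/
lemma exists_pow_two (Q : ℤ) (hQ : 0 < Q) (hQ8 : (4 : ℤ) ∣ Q - 1) :
    ∃ (N : ℕ) (c : ℤ), 1 + Q * (-1 + 4 * c) = 4 * 2 ^ N := by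
  have hcop : Nat.Coprime 2 Q.natAbs := by
    rw [Nat.Prime.coprime_iff_not_dvd Nat.prime_two]
    omega
  have hn : 0 < Q.natAbs := by omega
  have hphi : 0 < Nat.totient Q.natAbs := Nat.totient_pos.2 hn
  have h1 : 2 ^ (2 * Nat.totient Q.natAbs) ≡ 1 [MOD Q.natAbs] := by
    have := (Nat.ModEq.pow_totient hcop).pow 2
    rw [one_pow, ← pow_mul, mul_comm] at this
    exact this
  obtain ⟨N, hN⟩ : ∃ N, 2 * Nat.totient Q.natAbs = N + 2 := ⟨2 * Nat.totient Q.natAbs - 2, by omega⟩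
  rw [hN] at h1
  have h2 : Q ∣ 2 ^ (N + 2) - 1 := by
    have := (Nat.modEq_iff_dvd).1 h1.symm
    push_cast at this
    exact (abs_dvd _ _).1 this
  obtain ⟨k, hk⟩ := h2
  obtain ⟨Q', hQ'⟩ := hQ8
  have h3 : (4 : ℤ) ∣ k + 1 := by
    refine ⟨2 ^ N - Q' * k, ?_⟩
    have : Q = 1 + 4 * Q' := by linarith
    rw [this, pow_add] at hk
    linear_combination (-1 : ℤ) * hk
  obtain ⟨c, hc⟩ := h3
  refine ⟨N, c, ?_⟩
  have : k = -1 + 4 * c := by linarith
  rw [← this, ← hk]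
  ring

variable {ι : Type*} [Fintype ι] [DecidableEq ι]

/-- **The modification changing the parity.** -/
theorem two_step {A : Matrix ι ι Lam} (hA : conjT A = A) (hd : A.det ≠ 0)
    (hd1 : ev1 A.det ^ 2 = 1) {i0 i1 i2 i3 : ι} (n01 : i0 ≠ i1) (n02 : i0 ≠ i2) (n03 : i0 ≠ i3)
    (n12 : i1 ≠ i2) (n13 : i1 ≠ i3) (n23 : i2 ≠ i3)
    (h01 : atOne A i0 i1 = 1) (h00 : (4 : ℤ) ∣ atOne A i0 i0) (heven : ∀ i, (2 : ℤ) ∣ atOne A i i)
    (hminor : ¬ (2 : ℤ) ∣ atOne A i0 i2 * atOne A i1 i3 - atOne A i0 i3 * atOne A i1 i2) :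
    ∃ A' : Matrix ι ι Lam, conjT A' = A' ∧ A'.det = A.det ∧ Iso A A' ∧
      ¬ (2 : ℤ) ∣ atOne A' i1 i1 := by
  have hb : ∀ i j, bar (A j i) = A i j := fun i j => by rw [← conjT_apply, hA]
  have hbd : bar A.det = A.det := by rw [← det_conjT, hA]
  simp only [atOne_apply] at h01 h00 heven hminor
  -- the values at `-1`
  have hsym : ∀ i j, evm (A j i) = evm (A i j) := fun i j => by rw [← hb i j, evm_bar]
  have hpar : ∀ i j, (2 : ℤ) ∣ ev1 (A i j) - evm (A i j) := fun i j => ev_mod_two _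
  have hpar4 : ∀ i, (4 : ℤ) ∣ ev1 (A i i) - evm (A i i) := fun i => ev_mod_four _ (hb i i)
  obtain ⟨X0, hX0⟩ := h00
  obtain ⟨f0, hf0⟩ : (4 : ℤ) ∣ evm (A i0 i0) := by have := hpar4 i0; omega
  -- the parameters
  set f12 := evm (A i1 i2) with hf12
  set f13 := evm (A i1 i3) with hf13
  set f02 := evm (A i0 i2) with hf02
  set f03 := evm (A i0 i3) with hf03
  set f01 := evm (A i0 i1) with hf01
  set f22 := evm (A i2 i2) with hf22
  set f33 := evm (A i3 i3) with hf33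
  set f23 := evm (A i2 i3) with hf23
  have hω : ¬ (2 : ℤ) ∣ f13 * f02 - f12 * f03 := by
    obtain ⟨a, ha⟩ := hpar i1 i3
    obtain ⟨b, hb'⟩ := hpar i0 i2
    obtain ⟨c, hc⟩ := hpar i1 i2
    obtain ⟨e, he⟩ := hpar i0 i3
    intro h
    apply hminor
    obtain ⟨g, hg⟩ := h
    have e1 : ev1 (A i1 i3) = f13 + 2 * a := by linarith
    have e2 : ev1 (A i0 i2) = f02 + 2 * b := by linarith
    have e3 : ev1 (A i1 i2) = f12 + 2 * c := by linarith
    have e4 : ev1 (A i0 i3) = f03 + 2 * e := by linarith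
    rw [e1, e2, e3, e4]
    refine ⟨g + (f02 * a + b * f13 + 2 * a * b) - (f03 * c + e * f12 + 2 * c * e), ?_⟩
    linear_combination hg
  have he22 : (2 : ℤ) ∣ f22 := by have := hpar i2 i2; have := heven i2; omega
  have he33 : (2 : ℤ) ∣ f33 := by have := hpar i3 i3; have := heven i3; omega
  have hee : (2 : ℤ) ∣ f13 ^ 2 * f22 - 2 * f12 * f13 * f23 + f12 ^ 2 * f33 := by
    obtain ⟨a, ha⟩ := he22
    obtain ⟨b, hb'⟩ := he33
    exact ⟨f13 ^ 2 * a - f12 * f13 * f23 + f12 ^ 2 * b, by rw [ha, hb']; ring⟩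
  -- the number `N`
  have hdodd : ¬ (2 : ℤ) ∣ evm A.det := by
    have := ev_mod_two A.det
    intro h
    have h2 : (2 : ℤ) ∣ ev1 A.det := by omega
    obtain ⟨c, hc⟩ := h2
    rw [hc] at hd1
    have : (2 : ℤ) ∣ 1 := ⟨2 * c ^ 2, by linarith⟩
    omega
  have h01odd : ¬ (2 : ℤ) ∣ f01 := by have := hpar i0 i1; omega
  obtain ⟨Q, hQ⟩ : ∃ Q, Q = evm A.det ^ 2 * f01 ^ 2 := ⟨_, rfl⟩
  have hQpos : 0 < Q := by
    rw [hQ]
    have h1 : evm A.det ≠ 0 := by rintro h; rw [h] at hdodd; simp at hdodd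
    have h2 : f01 ≠ 0 := by rintro h; rw [h] at h01odd; simp at h01odd
    positivity
  have hQ4 : (4 : ℤ) ∣ Q - 1 := by
    have key : ∀ x : ℤ, ¬ (2 : ℤ) ∣ x → (4 : ℤ) ∣ x ^ 2 - 1 := by
      intro x hx
      obtain ⟨y, hy⟩ : ∃ y, x = 2 * y + 1 := ⟨x / 2, by omega⟩
      exact ⟨y ^ 2 + y, by rw [hy]; ring⟩
    obtain ⟨a, ha⟩ := key _ hdodd
    obtain ⟨b, hb'⟩ := key _ h01odd
    refine ⟨a * f01 ^ 2 + b, ?_⟩
    rw [hQ]
    linear_combination f01 ^ 2 * ha + hb'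
  obtain ⟨N, c, hN⟩ := exists_pow_two Q hQpos hQ4
  -- the parameter `x`
  obtain ⟨x, w, hw⟩ := hensel_two (f13 * f02 - f12 * f03)
    (f13 ^ 2 * f22 - 2 * f12 * f13 * f23 + f12 ^ 2 * f33)
    (f0 - 2 ^ (N + 1) * (X0 + 1)) hω hee (N + 2)
  -- the two elementary transformations
  obtain ⟨A1, a1, a2, a3, a4, a5, a6, a7⟩ := cong_entries hA hd n02.symm
    ((tt - 1) * ((x * f13 : ℤ) : Lam))
  have hd1' : A1.det ≠ 0 := by rw [a2]; exact hd
  obtain ⟨A2, b1, b2, b3, b4, b5, b6, b7⟩ := cong_entries a1 hd1' n03.symm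
    (-((tt - 1) * ((x * f12 : ℤ) : Lam)))
  have hd2 : A2.det = A.det := b2.trans a2
  have hb2 : ∀ i j, bar (A2 j i) = A2 i j := fun i j => by rw [← conjT_apply, b1]
  have v01 : ev1 (A2 i0 i1) = 1 := by
    rw [b5 _ n01.symm, a5 _ n01.symm]
    simp [h01]
  have m01 : evm (A2 i0 i1) = f01 := by
    rw [b5 _ n01.symm, a5 _ n01.symm, a6 _ _ n03.symm n01.symm]
    simp only [map_add, map_mul, map_neg, evm_bar, map_sub, map_one, evm_tt, map_intCast]
    rw [hsym i1 i2, hsym i1 i3, ← hf12, ← hf13]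
    simp
    ring
  have v00 : ev1 (A2 i0 i0) = 4 * X0 := by
    rw [b4, a4]
    simp [hX0]
  have m00 : evm (A2 i0 i0) = 4 * (f0 - x * (f13 * f02 - f12 * f03) +
      x ^ 2 * (f13 ^ 2 * f22 - 2 * f12 * f13 * f23 + f12 ^ 2 * f33)) := by
    rw [b4, a4, a5 _ n03.symm, a6 _ _ n03.symm n03.symm, a7 _ n03.symm]
    simp only [map_add, map_mul, map_neg, evm_bar, map_sub, map_one, evm_tt, map_intCast]
    rw [hsym i0 i2, hsym i0 i3, hsym i2 i3, ← hf02, ← hf03, ← hf22, ← hf33, ← hf23, hf0]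
    simp
    ring
  have c11 : A2 i1 i1 = A i1 i1 := by
    rw [b6 _ _ n01.symm n01.symm, a6 _ _ n01.symm n01.symm]
  -- the polynomial `p`
  obtain ⟨p, hp⟩ : ∃ p, p = 1 + A2.det ^ 2 * (A2 i0 i1 * bar (A2 i0 i1)) *
      (tt + (c : Lam) * tau) := ⟨_, rfl⟩
  have hp1 : ev1 p = 2 := by
    rw [hp]
    simp only [map_add, map_mul, map_one, map_pow, ev1_bar, v01, hd2, hd1, map_intCast, ev1_tt,
      ev1_tau]
    simp
  have hpm : evm p = 4 * 2 ^ N := by
    rw [← hN, hQ, hp]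
    simp only [map_add, map_mul, map_one, map_pow, evm_bar, m01, hd2, map_intCast, evm_tt,
      evm_tau]
    simp
    ring
  have hp0 : p ≠ 0 := by
    rintro rfl
    rw [map_zero] at hp1
    omega
  have hma : evm (A2 i0 i0) = 8 * 2 ^ N * (X0 + 1 + 2 * w) := by
    rw [m00]
    have : f0 - x * (f13 * f02 - f12 * f03) +
      x ^ 2 * (f13 ^ 2 * f22 - 2 * f12 * f13 * f23 + f12 ^ 2 * f33) =
      2 ^ (N + 1) * (X0 + 1) + 2 ^ (N + 2) * w := by linear_combination hw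
    rw [this, pow_succ, pow_add]
    ring
  obtain ⟨α, m0, hm0, ha⟩ := rep_two (q := A2.det ^ 2 * (A2 i0 i1 * bar (A2 i0 i1)))
    (by simp only [map_mul, map_pow, bar_bar, hd2, hbd]; ring) c hp (2 ^ N) hp1 hpm (hb2 i0 i0) hma
  obtain ⟨A', ζ, m, h1, h2, h3, -, -, h6, h7⟩ := comb b1 (by rw [hd2]; exact hd) n01 hm0 hp hp0 ha
  refine ⟨A', h1, h2.trans hd2, (a3.trans b3).trans h3, ?_⟩
  -- the parity
  have hm0par : ¬ (2 : ℤ) ∣ ev1 m0 := by
    have e1 := congrArg ev1 ha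
    simp only [map_add, map_mul, ev1_bar, hp1, v00] at e1
    have e2 := congrArg evm ha
    simp only [map_add, map_mul, evm_bar, hpm, hma] at e2
    have e3 : (8 * 2 ^ N : ℤ) * (X0 + 1 + 2 * w) = (8 * 2 ^ N) * (evm α + 2 * 2 ^ N * evm m0) := by
      linear_combination e2
    have e4 : X0 + 1 + 2 * w = evm α + 2 * 2 ^ N * evm m0 :=
      mul_left_cancel₀ (by positivity) e3
    have e5 := ev_mod_two α
    obtain ⟨y, hy⟩ := e5
    intro h
    obtain ⟨z, hz⟩ := h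
    have e6 : (2 : ℤ) ∣ 1 := by
      refine ⟨2 ^ N * evm m0 - w - y - z, ?_⟩
      have : X0 = ev1 α + ev1 m0 := by linarith
      linear_combination e4 - hy - this - hz
    omega
  have hm : ¬ (2 : ℤ) ∣ ev1 m := by
    rw [h6]
    simp only [map_add, map_sub, map_mul, map_one, ev1_bar, c11]
    obtain ⟨y, hy⟩ := heven i1
    rw [hy]
    intro h
    apply hm0par
    obtain ⟨z, hz⟩ := h
    exact ⟨z + (1 - ev1 α) - ev1 ζ * ev1 ζ * y, by linear_combination hz⟩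
  rw [atOne_apply, h7, c11]
  simp only [map_add, map_mul, ev1_bar, v01, hp1]
  obtain ⟨y, hy⟩ := heven i1
  rw [hy]
  intro h
  apply hm
  obtain ⟨z, hz⟩ := h
  refine ⟨z - y - ev1 m * (4 * ev1 ζ * y + 8 * ev1 ζ ^ 2 * y ^ 2), ?_⟩
  linear_combination hz

end Pool.Agent.K1H60.BF
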