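import Pool.Agent.K1H60.BF.Num5
import Pool.Agent.K1H60.BF.Two
import Pool.Agent.K1H60.BF.Rank2

/-!
# Hermitian matrices over `ℤ[t, t⁻¹]` which are unimodular at `1`
-/

set_option autoImplicit false
set_option linter.unusedSectionVars false
set_option linter.unusedVariables false

namespace Pool.Agent.K1H60.BF

open LaurentPolynomial Matrix Pool.Agent.R799

lemma cc_SA {m : ℕ} {A : Matrix (Fin m) (Fin m) Lam} (hd : A.det ≠ 0)
    (hd1 : ev1 A.det ^ 2 = 1) : CC (SA A) where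
  sym := by
    rintro L ⟨A', h1, -, -, rfl⟩
    rw [← atOne_conjT, h1]
  uni := by
    rintro L ⟨A', -, h2, -, rfl⟩
    rw [det_atOne, h2]
    exact IsUnit.of_mul_eq_one _ (by rw [← hd1]; ring)
  cong := by
    rintro L ⟨A', h1, h2, h3, rfl⟩ U hU
    obtain ⟨A'', g1, g2, g3, g4⟩ := cong_lam h1 (by rw [h2]; exact hd) hU
    exact ⟨A'', g1, g2.trans h2, h3.trans g3, g4.symm⟩

lemma odd_of_diag {m : ℕ} {L : Matrix (Fin m) (Fin m) ℤ} {i : Fin m} (h : ¬ (2 : ℤ) ∣ L i i) :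
    IsOdd L := ⟨Pi.single i 1, by rw [bf_single]; exact h⟩

/-- Size two, even. -/
lemma even_two {A : Matrix (Fin 2) (Fin 2) Lam} (hd : A.det ≠ 0) (hd1 : ev1 A.det ^ 2 = 1)
    {L : Matrix (Fin 2) (Fin 2) ℤ} (hL : L ∈ SA A) (he : ¬ IsOdd L) : ∃ L' ∈ SA A, IsOdd L' := by
  have hS := cc_SA hd hd1
  have hs := hS.sym _ hL
  have hu := hS.uni _ hL
  have hev : ∀ x, (2 : ℤ) ∣ bf L x x := by
    intro x; by_contra h; exact he ⟨x, h⟩
  obtain ⟨y, hy, -, hy2⟩ := binary hs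
  have hdet : |L.det| = 1 := by
    rcases Int.isUnit_iff.1 hu with h | h <;> rw [h] <;> norm_num
  rw [hdet] at hy2
  have h1 : |bf L y y| ≤ 1 := by
    by_contra h
    push Not at h
    have : (2 : ℤ) ≤ |bf L y y| := by linarith
    nlinarith [sq_abs (bf L y y)]
  have h0 : bf L y y = 0 := by
    rcases abs_le_one_cases h1 with h | h
    · exact h
    · exfalso
      obtain ⟨c, hc⟩ := hev y
      rw [hc] at h
      have : (2 : ℤ) * (2 * (c * c)) = 1 := by linear_combination h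
      omega
  obtain ⟨U, hU, hU0⟩ := complete 0 hy
  obtain ⟨A1, a1, a2, a3, a4⟩ := hS.cong _ hL U hU
  have hM00 : atOne A1 0 0 = 0 := by
    rw [← a4, ← h0, ← hU0, ← bf_cong]
    exact (bf_single (Uᵀ * L * U) 0 0).symm
  have hM11 : (2 : ℤ) ∣ atOne A1 1 1 := by
    have : atOne A1 1 1 = bf L (U *ᵥ Pi.single 1 1) (U *ᵥ Pi.single 1 1) := by
      rw [← a4, ← bf_cong]
      exact (bf_single (Uᵀ * L * U) 1 1).symm
    rw [this]
    exact hev _
  have hM10 : atOne A1 1 0 = atOne A1 0 1 := by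
    have : (atOne A1)ᵀ = atOne A1 := by rw [← atOne_conjT, a1]
    conv_lhs => rw [← this]
    rfl
  have hMd : IsUnit (atOne A1).det := by
    rw [← a4, det_cong hU]; exact hu
  have hM01 : ¬ (2 : ℤ) ∣ atOne A1 0 1 := by
    rw [Matrix.det_fin_two, hM00, hM10] at hMd
    rintro ⟨c, hc⟩
    rw [hc] at hMd
    rcases Int.isUnit_iff.1 hMd with h | h
    · have : (2 : ℤ) * (-2 * (c * c)) = 1 := by linear_combination h
      omega
    · have : (2 : ℤ) * (2 * (c * c)) = 1 := by linear_combination -h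
      omega
  obtain ⟨A', b1, b2, b3, b4⟩ := rank2_step a1 (by rw [a2]; exact hd) (by rw [a2]; exact hd1)
    hM00 hM01 hM11
  exact ⟨atOne A', ⟨A', b1, b2.trans a2, a3.trans b3, rfl⟩, odd_of_diag b4⟩

section Tv2

variable {ι : Type*} [Fintype ι] [DecidableEq ι]

lemma tv_mulVec_of_ne {i j k : ι} (h : k ≠ j) (s : ℤ) :
    transvection i j s *ᵥ Pi.single k 1 = Pi.single k 1 := by
  rw [transvection_mulVec, Pi.single_eq_of_ne h.symm]
  simp

lemma tv_mulVec_self (i j : ι) (s : ℤ) :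
    transvection i j s *ᵥ Pi.single j 1 = Pi.single j 1 + s • Pi.single i 1 := by
  rw [transvection_mulVec, Pi.single_eq_same, mul_one, ← Pi.single_smul, smul_eq_mul, mul_one]

end Tv2

/-- Size at least four, even. -/
lemma even_four {n : ℕ} {A : Matrix (Fin (n + 4)) (Fin (n + 4)) Lam} (hd : A.det ≠ 0)
    (hd1 : ev1 A.det ^ 2 = 1) {L : Matrix (Fin (n + 4)) (Fin (n + 4)) ℤ} (hL : L ∈ SA A)
    (he : ¬ IsOdd L) : ∃ L' ∈ SA A, IsOdd L' := by
  have hS := cc_SA hd hd1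
  have hs := hS.sym _ hL
  have hu := hS.uni _ hL
  have hev : ∀ x, (2 : ℤ) ∣ bf L x x := by
    intro x; by_contra h; exact he ⟨x, h⟩
  -- a vector of norm divisible by four
  obtain ⟨e, he'⟩ : ∃ e : Fin 3 → Fin (n + 4), ∀ i j, (e i = e j ↔ i = j) := by
    refine ⟨fun i => ⟨i, by omega⟩, ?_⟩
    intro i j
    rw [Fin.mk.injEq, Fin.ext_iff]
  obtain ⟨z, w, -, hz4, hzw⟩ := three (K := L) (y := 0) hs (g := fun i => Pi.single (e i) 1)
    (x := fun i => L⁻¹ *ᵥ Pi.single (e i) 1)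
    (fun i j => by
      rw [bf, Matrix.mulVec_mulVec, Matrix.mul_nonsing_inv _ hu, Matrix.one_mulVec,
        single_dotProduct, one_mul, Pi.single_apply]
      simp only [he'])
    (fun i => by unfold bf; simp) (fun i => hev _)
  obtain ⟨g, U0, hU0, hg⟩ := exists_prim 0 z
  obtain ⟨y, hy⟩ : ∃ y, y = U0 *ᵥ Pi.single 0 1 := ⟨_, rfl⟩
  have hyp : Prim y := by rw [hy]; exact prim_col 0 hU0
  rw [← hy] at hg
  have hgodd : ¬ (2 : ℤ) ∣ g := by
    intro h
    apply hzw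
    rw [hg, bf_smul_left]
    exact dvd_mul_of_dvd_left h _
  have hy4 : (4 : ℤ) ∣ bf L y y := by
    rw [hg, bf_smul_left, bf_smul_right] at hz4
    obtain ⟨r, hr⟩ : ∃ r, g = 2 * r + 1 := ⟨g / 2, by omega⟩
    obtain ⟨c, hc⟩ := hz4
    refine ⟨c - (r ^ 2 + r) * bf L y y, ?_⟩
    rw [hr] at hc
    linear_combination hc
  obtain ⟨U, hU, hUy, hU1⟩ := adapted (n := n + 1) hu hyp
  obtain ⟨M, hM⟩ : ∃ M, M = Uᵀ * L * U := ⟨_, rfl⟩
  rw [← hM] at hU1
  have hMS : M ∈ SA A := by rw [hM]; exact hS.cong _ hL U hU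
  have hMs : ∀ i j, M i j = M j i := by
    intro i j
    have := hS.sym _ hMS
    conv_lhs => rw [← this]
    rfl
  have hMev : ∀ i, (2 : ℤ) ∣ M i i := by
    intro i
    have : M i i = bf L (U *ᵥ Pi.single i 1) (U *ᵥ Pi.single i 1) := by
      rw [← bf_cong, ← hM]
      exact (bf_single M i i).symm
    rw [this]; exact hev _
  have hM00 : (4 : ℤ) ∣ M 0 0 := by
    have : M 0 0 = bf L y y := by
      rw [← hUy, ← bf_cong, ← hM]
      exact (bf_single M 0 0).symm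
    rw [this]; exact hy4
  -- the indices
  obtain ⟨i0, hi0⟩ : ∃ i0 : Fin (n + 4), i0 = 0 := ⟨_, rfl⟩
  obtain ⟨i1, hi1⟩ : ∃ i1 : Fin (n + 4), i1 = Fin.succ (Fin.succ 0) := ⟨_, rfl⟩
  obtain ⟨i2, hi2⟩ : ∃ i2 : Fin (n + 4), i2 = Fin.succ 0 := ⟨_, rfl⟩
  obtain ⟨i3, hi3⟩ : ∃ i3 : Fin (n + 4), i3 = Fin.succ (Fin.succ (Fin.succ 0)) := ⟨_, rfl⟩
  have n01 : i0 ≠ i1 := by rw [hi0, hi1]; exact (Fin.succ_ne_zero _).symm
  have n02 : i0 ≠ i2 := by rw [hi0, hi2]; exact (Fin.succ_ne_zero _).symm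
  have n03 : i0 ≠ i3 := by rw [hi0, hi3]; exact (Fin.succ_ne_zero _).symm
  have n12 : i1 ≠ i2 := by
    rw [hi1, hi2, ne_eq, Fin.succ_inj]; exact (Fin.succ_ne_zero _)
  have n13 : i1 ≠ i3 := by
    rw [hi1, hi3, ne_eq, Fin.succ_inj, Fin.succ_inj]; exact (Fin.succ_ne_zero _).symm
  have n23 : i2 ≠ i3 := by
    rw [hi2, hi3, ne_eq, Fin.succ_inj]; exact (Fin.succ_ne_zero _).symm
  rw [← hi0] at hM00
  rw [← hi1, ← hi0] at hU1
  -- the change of basis
  obtain ⟨W, hW⟩ : ∃ W : Matrix (Fin (n + 4)) (Fin (n + 4)) ℤ,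
      W = transvection i0 i2 (M i1 i2) * transvection i1 i2 (M i0 i2 + 1) *
        (transvection i0 i3 (M i1 i3 + 1) * transvection i1 i3 (M i0 i3)) := ⟨_, rfl⟩
  have hWd : IsUnit W.det := by
    rw [hW]
    simp only [Matrix.det_mul, det_transvection_of_ne _ _ n02, det_transvection_of_ne _ _ n12,
      det_transvection_of_ne _ _ n03, det_transvection_of_ne _ _ n13]
    simp
  have hW0 : W *ᵥ Pi.single i0 1 = Pi.single i0 1 := by
    rw [hW]
    simp only [← Matrix.mulVec_mulVec, tv_mulVec_of_ne n03, tv_mulVec_of_ne n02]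
  have hW1 : W *ᵥ Pi.single i1 1 = Pi.single i1 1 := by
    rw [hW]
    simp only [← Matrix.mulVec_mulVec, tv_mulVec_of_ne n13, tv_mulVec_of_ne n12]
  have hW2 : W *ᵥ Pi.single i2 1 = Pi.single i2 1 + (M i1 i2) • Pi.single i0 1 +
      (M i0 i2 + 1) • Pi.single i1 1 := by
    rw [hW]
    simp only [← Matrix.mulVec_mulVec, tv_mulVec_of_ne n23, tv_mulVec_self, Matrix.mulVec_add,
      Matrix.mulVec_smul, tv_mulVec_of_ne n12]
  have hW3 : W *ᵥ Pi.single i3 1 = Pi.single i3 1 + (M i1 i3 + 1) • Pi.single i0 1 +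
      (M i0 i3) • Pi.single i1 1 := by
    rw [hW]
    simp only [← Matrix.mulVec_mulVec, tv_mulVec_of_ne n23.symm, tv_mulVec_self, Matrix.mulVec_add,
      Matrix.mulVec_smul, tv_mulVec_of_ne n12, tv_mulVec_of_ne n13, tv_mulVec_of_ne n02]
  obtain ⟨A1, a1, a2, a3, a4⟩ := hS.cong _ hMS W hWd
  have hent : ∀ i j, atOne A1 i j = bf M (W *ᵥ Pi.single i 1) (W *ᵥ Pi.single j 1) := by
    intro i j
    rw [← a4, ← bf_cong]
    exact (bf_single (Wᵀ * M * W) i j).symm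
  have c01 : atOne A1 i0 i1 = 1 := by rw [hent, hW0, hW1, bf_single]; exact hU1
  have c00 : (4 : ℤ) ∣ atOne A1 i0 i0 := by rw [hent, hW0, bf_single]; exact hM00
  have cev : ∀ i, (2 : ℤ) ∣ atOne A1 i i := by
    intro i
    rw [hent, hM, bf_cong]
    exact hev _
  have hM01' : M i1 i0 = 1 := by rw [hMs]; exact hU1
  obtain ⟨r0, hr0⟩ := hMev i0
  obtain ⟨r1, hr1⟩ := hMev i1
  have hminor : ¬ (2 : ℤ) ∣ atOne A1 i0 i2 * atOne A1 i1 i3 - atOne A1 i0 i3 * atOne A1 i1 i2 := by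
    have d02 : atOne A1 i0 i2 = 2 * (M i0 i2 + r0 * M i1 i2) + 1 := by
      rw [hent, hW0, hW2]
      simp only [bf_add_right, bf_smul_right, bf_single]
      rw [hr0, hU1]; ring
    have d13 : atOne A1 i1 i3 = 2 * (M i1 i3 + r1 * M i0 i3) + 1 := by
      rw [hent, hW1, hW3]
      simp only [bf_add_right, bf_smul_right, bf_single]
      rw [hr1, hM01']; ring
    have d03 : atOne A1 i0 i3 = 2 * (M i0 i3 + r0 * (M i1 i3 + 1)) := by
      rw [hent, hW0, hW3]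
      simp only [bf_add_right, bf_smul_right, bf_single]
      rw [hr0, hU1]; ring
    rw [d02, d13, d03]
    rintro ⟨c, hc⟩
    have : (2 : ℤ) * (c - 2 * (M i0 i2 + r0 * M i1 i2) * (M i1 i3 + r1 * M i0 i3) -
      (M i0 i2 + r0 * M i1 i2) - (M i1 i3 + r1 * M i0 i3) +
      (M i0 i3 + r0 * (M i1 i3 + 1)) * atOne A1 i1 i2) = 1 := by linear_combination -hc
    omega
  obtain ⟨A', b1, b2, b3, b4⟩ := two_step a1 (by rw [a2]; exact hd) (by rw [a2]; exact hd1)
    n01 n02 n03 n12 n13 n23 c01 c00 cev hminor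
  exact ⟨atOne A', ⟨A', b1, b2.trans a2, a3.trans b3, rfl⟩, odd_of_diag b4⟩

/-- Size three is odd. -/
lemma odd_three {L : Matrix (Fin 3) (Fin 3) ℤ} (hs : Lᵀ = L) (hu : IsUnit L.det) : IsOdd L := by
  by_contra h
  have hev : ∀ i, (2 : ℤ) ∣ L i i := by
    intro i
    by_contra hc
    exact h (odd_of_diag hc)
  have hL : ∀ i j, L i j = L j i := by
    intro i j
    conv_lhs => rw [← hs]
    rfl
  obtain ⟨a, ha⟩ := hev 0
  obtain ⟨b, hb⟩ := hev 1
  obtain ⟨c, hc⟩ := hev 2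
  rw [Matrix.det_fin_three, hL 1 0, hL 2 0, hL 2 1, ha, hb, hc] at hu
  have e : (2 * a * (2 * b) * (2 * c) - 2 * a * L 1 2 * L 1 2 - L 0 1 * L 0 1 * (2 * c) +
      L 0 1 * L 1 2 * L 0 2 + L 0 2 * L 0 1 * L 1 2 - L 0 2 * (2 * b) * L 0 2) =
      2 * (4 * a * b * c - a * L 1 2 ^ 2 - c * L 0 1 ^ 2 - b * L 0 2 ^ 2 +
        L 0 1 * L 1 2 * L 0 2) := by ring
  rw [e] at hu
  rcases Int.isUnit_iff.1 hu with h | h <;> omega

/-- **Main theorem.** A hermitian matrix over `ℤ[t, t⁻¹]` which is unimodular at `t = 1` can be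
replaced by one of the same size, with the same determinant and isometric pairing, whose value
at `t = 1` is diagonal. -/
theorem main {m : ℕ} {A : Matrix (Fin m) (Fin m) Lam} (hA : conjT A = A) (hd : A.det ≠ 0)
    (hd1 : ev1 A.det ^ 2 = 1) :
    ∃ A' : Matrix (Fin m) (Fin m) Lam, conjT A' = A' ∧ A'.det = A.det ∧ Iso A A' ∧
      IsDiag (atOne A') := by
  have hself : atOne A ∈ SA A := by
    obtain ⟨A', h1, h2, h3, h4⟩ := cong_lam (U := 1) hA hd (by simp)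
    refine ⟨A', h1, h2, h3, ?_⟩
    rw [h4]; simp
  have hS := cc_SA hd hd1
  have hfin : (∃ D ∈ SA A, IsDiag D) → ∃ A' : Matrix (Fin m) (Fin m) Lam, conjT A' = A' ∧
      A'.det = A.det ∧ Iso A A' ∧ IsDiag (atOne A') := by
    rintro ⟨D, ⟨A', h1, h2, h3, rfl⟩, hD⟩
    exact ⟨A', h1, h2, h3, hD⟩
  apply hfin
  obtain ⟨L, hL⟩ : ∃ L, L = atOne A := ⟨_, rfl⟩
  rw [← hL] at hself
  match m, A, hA, hd, hd1, hS, L, hself with
  | 0, A, hA, hd, hd1, hS, L, hself =>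
    refine ⟨L, hself, fun i => i.elim0, fun i => i.elim0, ?_⟩
    refine Matrix.ext fun i => i.elim0
  | 1, A, hA, hd, hd1, hS, L, hself => exact diag_one hS hself
  | 2, A, hA, hd, hd1, hS, L, hself =>
    by_cases ho : IsOdd L
    · exact diag_two hS hself ho
    · obtain ⟨L', hL', ho'⟩ := even_two hd hd1 hself ho
      exact diag_two hS hL' ho'
  | 3, A, hA, hd, hd1, hS, L, hself =>
    exact diag_three hS hself (odd_three (hS.sym _ hself) (hS.uni _ hself))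
  | n + 4, A, hA, hd, hd1, hS, L, hself =>
    have hC := closed_SA (n := n + 1) hd hd1
    by_cases ho : IsOdd L
    · exact diag_all _ _ hC L hself ho
    · obtain ⟨L', hL', ho'⟩ := even_four hd hd1 hself ho
      exact diag_all _ _ hC L' hL' ho'

end Pool.Agent.K1H60.BF
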