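import Mathlib

/-!
# Integer matrices: completion of primitive vectors, block matrices, splitting
-/

set_option autoImplicit false
set_option linter.unusedSectionVars false
set_option linter.unusedVariables false

namespace Pool.Agent.K1H60.BF

open Matrix

section Completion

variable {ι : Type*} [Fintype ι] [DecidableEq ι]

lemma transvection_mulVec (i j : ι) (s : ℤ) (y : ι → ℤ) :
    transvection i j s *ᵥ y = y + Pi.single i (s * y j) := by
  funext a
  rw [transvection, Matrix.add_mulVec, Matrix.one_mulVec, Pi.add_apply, Pi.add_apply]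
  congr 1
  rw [Matrix.single_mulVec]
  by_cases h : a = i
  · subst h; simp
  · simp [h]

lemma reduce_aux (i0 : ι) : ∀ (N : ℕ) (y : ι → ℤ), y i0 ≠ 0 → ∑ i, (y i).natAbs ≤ N →
    ∃ V : Matrix ι ι ℤ, IsUnit V.det ∧ ∃ g, V *ᵥ y = Pi.single i0 g := by
  intro N
  induction N with
  | zero =>
    intro y hy hs
    exfalso
    apply hy
    have : (y i0).natAbs ≤ ∑ i, (y i).natAbs :=
      Finset.single_le_sum (f := fun i => (y i).natAbs) (fun _ _ => Nat.zero_le _)
        (Finset.mem_univ i0)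
    omega
  | succ N ih =>
    intro y hy hs
    by_cases h : ∀ i, i ≠ i0 → y i = 0
    · refine ⟨1, by simp, y i0, ?_⟩
      rw [Matrix.one_mulVec]
      funext i
      by_cases hi : i = i0
      · subst hi; simp
      · simp [hi, h i hi]
    · push Not at h
      obtain ⟨i, hi, hyi⟩ := h
      -- one step of the Euclidean algorithm
      have key : ∀ (a b : ι) (s : ℤ), a ≠ b → (s = 1 ∨ s = -1) →
          (y a + s * y b).natAbs < (y a).natAbs → (y + Pi.single a (s * y b) : ι → ℤ) i0 ≠ 0 →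
          ∃ V : Matrix ι ι ℤ, IsUnit V.det ∧ ∃ g, V *ᵥ y = Pi.single i0 g := by
        intro a b s hab _ hlt hne
        obtain ⟨V, hV, g, hg⟩ := ih (y + Pi.single a (s * y b)) hne (by
          have h1 : ∑ j, ((y + Pi.single a (s * y b) : ι → ℤ) j).natAbs < ∑ j, (y j).natAbs := by
            apply Finset.sum_lt_sum
            · intro j _
              by_cases hj : j = a
              · subst hj; simp only [Pi.add_apply, Pi.single_eq_same]; exact hlt.le
              · simp [hj]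
            · exact ⟨a, Finset.mem_univ _, by
                simp only [Pi.add_apply, Pi.single_eq_same]; exact hlt⟩
          omega)
        refine ⟨V * transvection a b s, ?_, g, ?_⟩
        · rw [Matrix.det_mul, det_transvection_of_ne _ _ hab, mul_one]; exact hV
        · rw [← Matrix.mulVec_mulVec, transvection_mulVec, hg]
      by_cases hle : (y i0).natAbs ≤ (y i).natAbs
      · rcases lt_or_gt_of_ne hy with h0 | h0 <;> rcases lt_or_gt_of_ne hyi with h1 | h1
        · exact key i i0 (-1) hi (Or.inr rfl) (by omega) (by simp [hi.symm, hy])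
        · exact key i i0 1 hi (Or.inl rfl) (by omega) (by simp [hi.symm, hy])
        · exact key i i0 1 hi (Or.inl rfl) (by omega) (by simp [hi.symm, hy])
        · exact key i i0 (-1) hi (Or.inr rfl) (by omega) (by simp [hi.symm, hy])
      · rcases lt_or_gt_of_ne hy with h0 | h0 <;> rcases lt_or_gt_of_ne hyi with h1 | h1
        · exact key i0 i (-1) hi.symm (Or.inr rfl) (by omega)
            (by simp only [Pi.add_apply, Pi.single_eq_same]; omega)
        · exact key i0 i 1 hi.symm (Or.inl rfl) (by omega)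
            (by simp only [Pi.add_apply, Pi.single_eq_same]; omega)
        · exact key i0 i 1 hi.symm (Or.inl rfl) (by omega)
            (by simp only [Pi.add_apply, Pi.single_eq_same]; omega)
        · exact key i0 i (-1) hi.symm (Or.inr rfl) (by omega)
            (by simp only [Pi.add_apply, Pi.single_eq_same]; omega)

lemma reduce (i0 : ι) (y : ι → ℤ) :
    ∃ V : Matrix ι ι ℤ, IsUnit V.det ∧ ∃ g, V *ᵥ y = Pi.single i0 g := by
  by_cases h0 : y i0 = 0
  · by_cases h : ∀ i, y i = 0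
    · exact ⟨1, by simp, 0, by rw [Matrix.one_mulVec]; funext i; simp [h i]⟩
    · push Not at h
      obtain ⟨i, hi⟩ := h
      have hne : i0 ≠ i := by rintro rfl; exact hi h0
      obtain ⟨V, hV, g, hg⟩ := reduce_aux i0 _ (y + Pi.single i0 (1 * y i)) (by simp [h0, hi]) le_rfl
      refine ⟨V * transvection i0 i 1, ?_, g, ?_⟩
      · rw [Matrix.det_mul, det_transvection_of_ne _ _ hne, mul_one]; exact hV
      · rw [← Matrix.mulVec_mulVec, transvection_mulVec, hg]
  · exact reduce_aux i0 _ y h0 le_rfl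

/-- Primitive vectors. -/
def Prim (y : ι → ℤ) : Prop := ∃ c : ι → ℤ, c ⬝ᵥ y = 1

/-- Every vector is a multiple of a primitive one, which is a column of a unimodular matrix. -/
lemma exists_prim (i0 : ι) (y : ι → ℤ) : ∃ (g : ℤ) (U : Matrix ι ι ℤ), IsUnit U.det ∧
    y = g • (U *ᵥ Pi.single i0 1) := by
  obtain ⟨V, hV, g, hg⟩ := reduce i0 y
  refine ⟨g, V⁻¹, ?_, ?_⟩
  · exact (Matrix.isUnit_nonsing_inv_det_iff (A := V)).2 hV
  · have h1 : V⁻¹ *ᵥ (V *ᵥ y) = y := by
      rw [Matrix.mulVec_mulVec, Matrix.nonsing_inv_mul _ hV, Matrix.one_mulVec]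
    rw [← h1, hg, ← Matrix.mulVec_smul]
    congr 1
    funext i
    by_cases hi : i = i0
    · subst hi; simp
    · simp [hi]

lemma prim_col (i0 : ι) {U : Matrix ι ι ℤ} (hU : IsUnit U.det) : Prim (U *ᵥ Pi.single i0 1) := by
  refine ⟨fun j => U⁻¹ i0 j, ?_⟩
  have h1 : U⁻¹ *ᵥ (U *ᵥ Pi.single i0 1) = Pi.single i0 1 := by
    rw [Matrix.mulVec_mulVec, Matrix.nonsing_inv_mul _ hU, Matrix.one_mulVec]
  have h2 := congrFun h1 i0
  rw [Pi.single_eq_same] at h2
  exact h2

/-- A primitive vector is a column of a unimodular matrix. -/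
lemma complete (i0 : ι) {y : ι → ℤ} (hy : Prim y) :
    ∃ U : Matrix ι ι ℤ, IsUnit U.det ∧ U *ᵥ Pi.single i0 1 = y := by
  obtain ⟨g, U, hU, hg⟩ := exists_prim i0 y
  obtain ⟨c, hc⟩ := hy
  have h1 : g * (c ⬝ᵥ (U *ᵥ Pi.single i0 1)) = 1 := by
    have h2 := hc
    rw [hg, dotProduct_smul, smul_eq_mul] at h2
    exact h2
  have hgu : IsUnit g := IsUnit.of_mul_eq_one _ h1
  refine ⟨g • U, ?_, ?_⟩
  · rw [Matrix.det_smul]; exact (hgu.pow _).mul hU
  · rw [Matrix.smul_mulVec, ← hg]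

end Completion

section Block

variable {m : ℕ}

/-- The block matrix `ε ⊕ K`. -/
def bl (ε : ℤ) (K : Matrix (Fin m) (Fin m) ℤ) : Matrix (Fin (m + 1)) (Fin (m + 1)) ℤ :=
  Matrix.of (Fin.cons (Fin.cons ε 0) (fun i => Fin.cons 0 (K i)))

@[simp] lemma bl_zero_zero (ε : ℤ) (K : Matrix (Fin m) (Fin m) ℤ) : bl ε K 0 0 = ε := rfl
@[simp] lemma bl_zero_succ (ε : ℤ) (K : Matrix (Fin m) (Fin m) ℤ) (j : Fin m) :
    bl ε K 0 j.succ = 0 := rfl
@[simp] lemma bl_succ_zero (ε : ℤ) (K : Matrix (Fin m) (Fin m) ℤ) (i : Fin m) :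
    bl ε K i.succ 0 = 0 := rfl
@[simp] lemma bl_succ_succ (ε : ℤ) (K : Matrix (Fin m) (Fin m) ℤ) (i j : Fin m) :
    bl ε K i.succ j.succ = K i j := rfl

lemma eq_bl {M : Matrix (Fin (m + 1)) (Fin (m + 1)) ℤ} (h1 : ∀ j : Fin m, M 0 j.succ = 0)
    (h2 : ∀ i : Fin m, M i.succ 0 = 0) : M = bl (M 0 0) (Matrix.of fun i j => M i.succ j.succ) := by
  refine Matrix.ext fun i j => ?_
  refine Fin.cases ?_ (fun i => ?_) i <;> refine Fin.cases ?_ (fun j => ?_) j
  · rfl
  · rw [h1]; rfl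
  · rw [h2]; rfl
  · rfl

lemma bl_mul (a b : ℤ) (K L : Matrix (Fin m) (Fin m) ℤ) : bl a K * bl b L = bl (a * b) (K * L) := by
  refine Matrix.ext fun i j => ?_
  rw [Matrix.mul_apply, Fin.sum_univ_succ]
  refine Fin.cases ?_ (fun i => ?_) i <;> refine Fin.cases ?_ (fun j => ?_) j <;>
    simp [Matrix.mul_apply]

lemma bl_transpose (a : ℤ) (K : Matrix (Fin m) (Fin m) ℤ) : (bl a K)ᵀ = bl a Kᵀ := by
  refine Matrix.ext fun i j => ?_
  refine Fin.cases ?_ (fun i => ?_) i <;> refine Fin.cases ?_ (fun j => ?_) j <;> rfl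

lemma bl_det (a : ℤ) (K : Matrix (Fin m) (Fin m) ℤ) : (bl a K).det = a * K.det := by
  rw [Matrix.det_succ_column_zero, Fin.sum_univ_succ]
  simp only [bl_succ_zero, mul_zero, zero_mul, Finset.sum_const_zero, add_zero, bl_zero_zero]
  simp
  left
  rfl

lemma bl_mulVec (a : ℤ) (K : Matrix (Fin m) (Fin m) ℤ) (x0 : ℤ) (x : Fin m → ℤ) :
    bl a K *ᵥ (Fin.cons x0 x : Fin (m + 1) → ℤ) = Fin.cons (a * x0) (K *ᵥ x) := by
  funext i
  rw [Matrix.mulVec, dotProduct, Fin.sum_univ_succ]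
  refine Fin.cases ?_ (fun i => ?_) i <;> simp [Matrix.mulVec, dotProduct]

lemma cons_dot (x0 y0 : ℤ) (x y : Fin m → ℤ) :
    (Fin.cons x0 x : Fin (m + 1) → ℤ) ⬝ᵥ Fin.cons y0 y = x0 * y0 + x ⬝ᵥ y := by
  rw [dotProduct, Fin.sum_univ_succ]; simp [dotProduct]

lemma bl_inj {a : ℤ} {K L : Matrix (Fin m) (Fin m) ℤ} (h : bl a K = bl a L) : K = L := by
  refine Matrix.ext fun i j => ?_
  have := congrFun (congrFun h i.succ) j.succ
  exact this

lemma bl_smul (c a : ℤ) (K : Matrix (Fin m) (Fin m) ℤ) : c • bl a K = bl (c * a) (c • K) := by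
  refine Matrix.ext fun i j => ?_
  refine Fin.cases ?_ (fun i => ?_) i <;> refine Fin.cases ?_ (fun j => ?_) j
  · rfl
  · rw [Matrix.smul_apply, bl_zero_succ, bl_zero_succ, smul_zero]
  · rw [Matrix.smul_apply, bl_succ_zero, bl_succ_zero, smul_zero]
  · rfl

end Block

section Form

variable {ι : Type*} [Fintype ι] [DecidableEq ι]

/-- The bilinear form of a matrix. -/
def bf (K : Matrix ι ι ℤ) (x y : ι → ℤ) : ℤ := x ⬝ᵥ K *ᵥ y

lemma bf_add_left (K : Matrix ι ι ℤ) (x y z : ι → ℤ) : bf K (x + y) z = bf K x z + bf K y z := by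
  unfold bf; rw [add_dotProduct]

lemma bf_add_right (K : Matrix ι ι ℤ) (x y z : ι → ℤ) : bf K x (y + z) = bf K x y + bf K x z := by
  unfold bf; rw [Matrix.mulVec_add, dotProduct_add]

lemma bf_smul_left (K : Matrix ι ι ℤ) (c : ℤ) (x y : ι → ℤ) : bf K (c • x) y = c * bf K x y := by
  unfold bf; rw [smul_dotProduct, smul_eq_mul]

lemma bf_smul_right (K : Matrix ι ι ℤ) (c : ℤ) (x y : ι → ℤ) : bf K x (c • y) = c * bf K x y := by
  unfold bf; rw [Matrix.mulVec_smul, dotProduct_smul, smul_eq_mul]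

lemma bf_sub_left (K : Matrix ι ι ℤ) (x y z : ι → ℤ) : bf K (x - y) z = bf K x z - bf K y z := by
  unfold bf; rw [sub_dotProduct]

lemma bf_sub_right (K : Matrix ι ι ℤ) (x y z : ι → ℤ) : bf K x (y - z) = bf K x y - bf K x z := by
  unfold bf; rw [Matrix.mulVec_sub, dotProduct_sub]

lemma bf_comm {K : Matrix ι ι ℤ} (hK : Kᵀ = K) (x y : ι → ℤ) : bf K x y = bf K y x := by
  unfold bf
  rw [Matrix.dotProduct_mulVec, ← Matrix.mulVec_transpose, hK, dotProduct_comm]

lemma bf_cong (K U : Matrix ι ι ℤ) (x y : ι → ℤ) :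
    bf (Uᵀ * K * U) x y = bf K (U *ᵥ x) (U *ᵥ y) := by
  unfold bf
  rw [← Matrix.mulVec_mulVec, ← Matrix.mulVec_mulVec, Matrix.dotProduct_mulVec x,
    Matrix.vecMul_transpose]

lemma bf_single (K : Matrix ι ι ℤ) (i j : ι) : bf K (Pi.single i 1) (Pi.single j 1) = K i j := by
  unfold bf
  rw [Matrix.mulVec_single_one, single_dotProduct, one_mul]
  rfl

lemma bf_smul_mat (K : Matrix ι ι ℤ) (c : ℤ) (x y : ι → ℤ) : bf (c • K) x y = c * bf K x y := by
  unfold bf
  rw [Matrix.smul_mulVec, dotProduct_smul, smul_eq_mul]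

lemma bf_single_left (K : Matrix ι ι ℤ) (i : ι) (x : ι → ℤ) :
    bf K (Pi.single i 1) x = (K *ᵥ x) i := by
  unfold bf
  rw [single_dotProduct, one_mul]

/-- A unimodular form takes every value on a primitive vector. -/
lemma exists_bf_one {K : Matrix ι ι ℤ} (hK : Kᵀ = K) (hu : IsUnit K.det) {y : ι → ℤ}
    (hy : Prim y) : ∃ w, bf K y w = 1 := by
  obtain ⟨c, hc⟩ := hy
  refine ⟨K⁻¹ *ᵥ c, ?_⟩
  rw [bf, Matrix.mulVec_mulVec, Matrix.mul_nonsing_inv _ hu, Matrix.one_mulVec, dotProduct_comm]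
  exact hc

/-- A vector of norm `±1` is primitive. -/
lemma prim_of_norm {K : Matrix ι ι ℤ} {v : ι → ℤ} {ε : ℤ} (hε : ε * ε = 1)
    (hv : bf K v v = ε) : Prim v := by
  refine ⟨ε • (K *ᵥ v), ?_⟩
  rw [smul_dotProduct, dotProduct_comm, smul_eq_mul]
  have : v ⬝ᵥ K *ᵥ v = ε := hv
  rw [this, hε]

end Form

/-- Splitting off a vector of norm `±1`. -/
lemma split {m : ℕ} {L : Matrix (Fin (m + 1)) (Fin (m + 1)) ℤ} (hL : Lᵀ = L) {ε : ℤ}
    (hε : ε * ε = 1) {v : Fin (m + 1) → ℤ} (hv : bf L v v = ε) :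
    ∃ (U : Matrix (Fin (m + 1)) (Fin (m + 1)) ℤ) (K : Matrix (Fin m) (Fin m) ℤ),
      IsUnit U.det ∧ U *ᵥ Pi.single 0 1 = v ∧ Uᵀ * L * U = bl ε K := by
  obtain ⟨U1, hU1, h1⟩ := complete 0 (prim_of_norm hε hv)
  obtain ⟨L1, hL1⟩ : ∃ L1, L1 = U1ᵀ * L * U1 := ⟨_, rfl⟩
  have hs : L1ᵀ = L1 := by
    rw [hL1, Matrix.transpose_mul, Matrix.transpose_mul, Matrix.transpose_transpose, hL,
      Matrix.mul_assoc]
  have h00 : L1 0 0 = ε := by
    calc L1 0 0 = bf L1 (Pi.single 0 1) (Pi.single 0 1) := (bf_single L1 0 0).symm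
      _ = ε := by rw [hL1, bf_cong, h1, hv]
  -- clear the first row
  obtain ⟨r, hr⟩ : ∃ r : Fin (m + 1) → ℤ, r = fun j => if j = 0 then 0 else -ε * L1 0 j := ⟨_, rfl⟩
  obtain ⟨W, hW⟩ : ∃ W : Matrix (Fin (m + 1)) (Fin (m + 1)) ℤ,
      W = 1 + vecMulVec (Pi.single 0 1) r := ⟨_, rfl⟩
  have hWv : ∀ x, W *ᵥ x = x + Pi.single 0 (r ⬝ᵥ x) := by
    intro x
    rw [hW, Matrix.add_mulVec, Matrix.one_mulVec, Matrix.vecMulVec_mulVec]
    congr 1
    funext i
    by_cases hi : i = 0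
    · subst hi; simp
    · simp [hi]
  have hW0 : W *ᵥ Pi.single 0 1 = Pi.single 0 1 := by
    rw [hWv]
    have : r ⬝ᵥ Pi.single 0 1 = 0 := by rw [dotProduct_single]; simp [hr]
    rw [this]; simp
  have hWj : ∀ j, j ≠ 0 → W *ᵥ Pi.single j 1 = Pi.single j 1 + (-ε * L1 0 j) • Pi.single 0 1 := by
    intro j hj
    rw [hWv]
    have : r ⬝ᵥ Pi.single j 1 = -ε * L1 0 j := by rw [dotProduct_single]; simp [hr, hj]
    rw [this]
    congr 1
    funext i
    by_cases hi : i = 0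
    · subst hi; simp
    · simp [hi]
  have hWdet : IsUnit W.det := by
    have e : W * (1 - vecMulVec (Pi.single (0 : Fin (m + 1)) (1 : ℤ)) r) = 1 := by
      have e2 : vecMulVec (Pi.single (0 : Fin (m + 1)) (1 : ℤ)) r *
          vecMulVec (Pi.single (0 : Fin (m + 1)) (1 : ℤ)) r = 0 := by
        rw [Matrix.vecMulVec_mul_vecMulVec]
        have : r ⬝ᵥ Pi.single 0 1 = 0 := by rw [dotProduct_single]; simp [hr]
        rw [this]
        refine Matrix.ext fun i j => ?_
        simp [vecMulVec_apply]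
      rw [hW, Matrix.add_mul, Matrix.one_mul, Matrix.mul_sub, Matrix.mul_one, e2]
      abel
    have := congrArg Matrix.det e
    rw [Matrix.det_mul, Matrix.det_one] at this
    exact IsUnit.of_mul_eq_one _ this
  obtain ⟨M, hM⟩ : ∃ M, M = Wᵀ * L1 * W := ⟨_, rfl⟩
  have hMs : ∀ i j, M i j = M j i := by
    have : Mᵀ = M := by
      rw [hM, Matrix.transpose_mul, Matrix.transpose_mul, Matrix.transpose_transpose, hs,
        Matrix.mul_assoc]
    intro i j
    conv_lhs => rw [← this]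
    rfl
  have hM00 : M 0 0 = ε := by
    calc M 0 0 = bf M (Pi.single 0 1) (Pi.single 0 1) := (bf_single M 0 0).symm
      _ = ε := by rw [hM, bf_cong, hW0, bf_single, h00]
  have hM0 : ∀ j : Fin m, M 0 j.succ = 0 := by
    intro j
    calc M 0 j.succ = bf M (Pi.single 0 1) (Pi.single j.succ 1) := (bf_single M 0 j.succ).symm
      _ = L1 0 j.succ + (-ε * L1 0 j.succ) * ε := by
        rw [hM, bf_cong, hW0, hWj _ (Fin.succ_ne_zero j), bf_add_right, bf_smul_right,
          bf_single, bf_single, h00]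
      _ = 0 := by linear_combination (-(L1 0 j.succ)) * hε
  refine ⟨U1 * W, Matrix.of fun i j => M i.succ j.succ, ?_, ?_, ?_⟩
  · rw [Matrix.det_mul]; exact hU1.mul hWdet
  · rw [← Matrix.mulVec_mulVec, hW0, h1]
  · have e1 : (U1 * W)ᵀ * L * (U1 * W) = M := by
      rw [hM, hL1, Matrix.transpose_mul]
      simp only [Matrix.mul_assoc]
    rw [e1]
    conv_lhs => rw [eq_bl hM0 (fun i => by rw [hMs]; exact hM0 i)]
    rw [hM00]

end Pool.Agent.K1H60.BF
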