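import Pool.Agent.K1H60.BF.Comb

/-!
# Modifications with an odd number `ℓ = p(1)`
-/

set_option autoImplicit false

namespace Pool.Agent.K1H60.BF

open LaurentPolynomial Matrix Pool.Agent.R799

section AtOne

variable {l m n : Type*}

lemma atOne_apply (A : Matrix n n Lam) (i j : n) : atOne A i j = ev1 (A i j) := rfl

lemma atOne_mul [Fintype n] (A B : Matrix n n Lam) : atOne (A * B) = atOne A * atOne B := by
  unfold atOne; exact Matrix.map_mul

lemma atOne_conjT (A : Matrix n n Lam) : atOne (conjT A) = (atOne A)ᵀ := by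
  refine Matrix.ext fun i j => ?_
  rw [atOne_apply, conjT_apply, Matrix.transpose_apply, atOne_apply, ev1_bar]

lemma det_atOne [Fintype n] [DecidableEq n] (A : Matrix n n Lam) :
    (atOne A).det = ev1 A.det := (RingHom.map_det ev1 A).symm

end AtOne

variable {ι : Type*} [Fintype ι] [DecidableEq ι]

/-- The matrix `QM` at `1`, applied to a vector. -/
lemma QM_mulVec (A : Matrix ι ι Lam) {i0 i1 : ι} (p m ζ : Lam) (x : ι → ℤ) (i : ι) :
    (atOne (QM A i0 i1 p m ζ) *ᵥ x) i =
      ev1 p * (x i + if i = i1 then -(ev1 p * ev1 ζ) * x i0 else 0) +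
      (if i = i0 then ev1 p * ev1 p * ev1 m * x i0 - (atOne A *ᵥ x) i0 -
        ev1 p * ev1 ζ * (atOne A *ᵥ x) i1 else 0) := by
  have h1 : atOne (QM A i0 i1 p m ζ) = ev1 p • (1 + Matrix.single i1 i0 (-(ev1 p * ev1 ζ))) +
      vecMulVec (Pi.single i0 1) (fun j => (if j = i0 then ev1 p * ev1 p * ev1 m else 0)
        - atOne A i0 j - ev1 p * ev1 ζ * atOne A i1 j) := by
    refine Matrix.ext fun a b => ?_
    rw [atOne_apply]
    unfold QM transvection
    simp only [Matrix.add_apply, Matrix.smul_apply, smul_eq_mul, vecMulVec_apply, map_add, map_mul,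
      map_sub, ev1_bar, Matrix.one_apply, Matrix.single_apply, atOne_apply, Pi.single_apply]
    split_ifs <;> simp
  rw [h1, Matrix.add_mulVec, Pi.add_apply, Matrix.smul_mulVec, Pi.smul_apply, smul_eq_mul,
    Matrix.add_mulVec, Matrix.one_mulVec, Pi.add_apply]
  congr 1
  · congr 2
    rw [Matrix.single_mulVec]
    by_cases hi : i = i1
    · subst hi; simp
    · simp [hi]
  · rw [Matrix.vecMulVec_mulVec]
    by_cases hi : i = i0
    · subst hi
      rw [if_pos rfl]
      simp only [Pi.smul_apply, Pi.single_eq_same, MulOpposite.smul_eq_mul_unop,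
        MulOpposite.unop_op, one_mul]
      have e : (fun j => (if j = i then ev1 p * ev1 p * ev1 m else 0)
        - atOne A i j - ev1 p * ev1 ζ * atOne A i1 j) =
        (Pi.single i (ev1 p * ev1 p * ev1 m) : ι → ℤ) - (fun j => atOne A i j) -
          (ev1 p * ev1 ζ) • (fun j => atOne A i1 j) := by
        funext j
        simp only [Pi.sub_apply, Pi.smul_apply, smul_eq_mul, Pi.single_apply]
      rw [e, sub_dotProduct, sub_dotProduct, smul_dotProduct, single_dotProduct, smul_eq_mul]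
      rfl
    · rw [if_neg hi]
      simp [hi]

/-- Representation of a symmetric polynomial, for odd `ℓ = 2 k + 1`. -/
lemma rep_odd {q : Lam} (hq : bar q = q) (hq1 : ev1 q = 1) (k : ℤ) {p : Lam}
    (hp : p = 1 + q * ((k : Lam) * (1 + tt))) {a : Lam} (ha : bar a = a)
    (hl : (2 * k + 1) ∣ ev1 a) :
    ∃ α m0 : Lam, bar m0 = m0 ∧ a = p * α + bar p * bar α + p * bar p * m0 := by
  have hbp : bar p = 1 + q * ((k : Lam) * (1 + ti)) := by
    rw [hp]; simp [hq]
  have e1 : p * (1 - ti) + bar p * (1 - tt) = tau := by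
    rw [hbp, hp, tau_eq]
    linear_combination (-2 * q * (k : Lam)) * tt_ti
  obtain ⟨a2, ha2⟩ := hl
  obtain ⟨r, hr, hr2⟩ := sym_div_tau (p * bar p - (k : Lam) * (p + bar p) - ((2 * k + 1 : ℤ) : Lam))
    (by simp only [map_sub, map_mul, map_add, bar_bar, map_intCast]; ring)
    (by
      simp only [map_sub, map_mul, map_add, ev1_bar, map_intCast]
      have : ev1 p = 2 * k + 1 := by rw [hp]; simp [hq1]; ring
      rw [this]
      simp
      ring)
  obtain ⟨g, hg, hg2⟩ := sym_div_tau (a - (ev1 a : Lam)) (by simp [ha]) (by simp)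
  refine ⟨-(k : Lam) * (a2 : Lam) + (1 - ti) * (g - (a2 : Lam) * r), (a2 : Lam), by simp, ?_⟩
  have hb : bar (-(k : Lam) * (a2 : Lam) + (1 - ti) * (g - (a2 : Lam) * r)) =
      -(k : Lam) * (a2 : Lam) + (1 - tt) * (g - (a2 : Lam) * r) := by
    simp [hg, hr]
  rw [hb]
  have h3 : a = ((2 * k + 1 : ℤ) : Lam) * (a2 : Lam) + tau * g := by
    rw [← hg2, ha2]; push_cast; ring
  rw [h3]
  linear_combination (-(a2 : Lam)) * hr2 - (g - (a2 : Lam) * r) * e1

/-- **The modification for an odd number.** -/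
theorem odd_step {A : Matrix ι ι Lam} (hA : conjT A = A) (hd : A.det ≠ 0)
    (hd1 : ev1 A.det ^ 2 = 1) {i0 i1 : ι} (hne : i0 ≠ i1) (h01 : atOne A i0 i1 = 1) (k : ℤ)
    (h00 : (2 * k + 1) ^ 2 ∣ atOne A i0 i0) :
    ∃ (A' : Matrix ι ι Lam) (Q : Matrix ι ι ℤ), conjT A' = A' ∧ A'.det = A.det ∧ Iso A A' ∧
      Qᵀ * atOne A' * Q = ((2 * k + 1) ^ 2) • atOne A ∧
      (∃ y, Q *ᵥ Pi.single i0 1 = ((2 * k + 1) ^ 2) • y) ∧
      ∀ x, (2 * k + 1) ∣ (atOne A *ᵥ x) i0 → ∃ y, Q *ᵥ x = (2 * k + 1) • y := by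
  have hb : ∀ i j, bar (A j i) = A i j := fun i j => by rw [← conjT_apply, hA]
  have hbd : bar A.det = A.det := by rw [← det_conjT, hA]
  obtain ⟨p, hp⟩ : ∃ p, p = 1 + A.det ^ 2 * (A i0 i1 * bar (A i0 i1)) * ((k : Lam) * (1 + tt)) :=
    ⟨_, rfl⟩
  have h01' : ev1 (A i0 i1) = 1 := h01
  have hp1 : ev1 p = 2 * k + 1 := by
    rw [hp]
    simp only [map_add, map_mul, map_one, map_pow, ev1_bar, h01', hd1, map_intCast, ev1_tt]
    simp
    ring
  have hp0 : p ≠ 0 := by
    rintro rfl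
    rw [map_zero] at hp1
    omega
  obtain ⟨α, m0, hm0, ha⟩ := rep_odd (q := A.det ^ 2 * (A i0 i1 * bar (A i0 i1)))
    (by simp only [map_mul, map_pow, bar_bar, hbd]; ring)
    (by simp only [map_mul, map_pow, ev1_bar, hd1, h01']; ring) k hp (hb i0 i0)
    ((dvd_pow_self _ two_ne_zero).trans h00)
  obtain ⟨A', ζ, m, h1, h2, h3, h4, h5, h6, -⟩ := comb hA hd hne hm0 hp hp0 ha
  refine ⟨A', atOne (QM A i0 i1 p m ζ), h1, h2, h3, ?_, ?_, ?_⟩
  · have := congrArg atOne h4
    rw [atOne_mul, atOne_mul, atOne_conjT] at this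
    rw [this]
    refine Matrix.ext fun i j => ?_
    rw [atOne_apply, Matrix.smul_apply, Matrix.smul_apply, smul_eq_mul, smul_eq_mul, atOne_apply,
      map_mul, map_mul, ev1_bar, hp1]
    ring
  · -- the vector of index `i0`
    have hα : (2 * k + 1) ∣ ev1 α := by
      have e1 := congrArg ev1 ha
      simp only [map_add, map_mul, ev1_bar, hp1] at e1
      obtain ⟨c, hc⟩ := h00
      rw [atOne_apply] at hc
      rw [hc] at e1
      have e2 : (2 * k + 1) * (2 * ev1 α) = (2 * k + 1) * ((2 * k + 1) * (c - ev1 m0)) := by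
        linear_combination -e1
      have e3 : 2 * ev1 α = (2 * k + 1) * (c - ev1 m0) := mul_left_cancel₀ (by omega) e2
      have e4 : (2 * k + 1) ∣ 2 * ev1 α := ⟨_, e3⟩
      refine IsCoprime.dvd_of_dvd_mul_left ?_ e4
      exact ⟨1, -k, by ring⟩
    obtain ⟨β, hβ⟩ := hα
    have hζ : ev1 ζ = -(2 * k) * (1 - (2 * k + 1) * β) := by
      have e5 : ev1 ((k : Lam) * (1 + tt)) = 2 * k := by
        rw [map_mul, map_add, map_one, ev1_tt, map_intCast]
        simp
        ring
      rw [h5, map_neg, map_mul, map_mul, map_mul, map_pow, hd1, ev1_bar, ev1_bar, h01', e5,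
        map_sub, map_one, hβ]
      ring
    obtain ⟨c, hc⟩ := h00
    have hLs : (atOne A *ᵥ Pi.single i0 1) i0 = (2 * k + 1) ^ 2 * c := by
      rw [Matrix.mulVec_single_one]; exact hc
    have hLs1 : (atOne A *ᵥ Pi.single i0 1) i1 = 1 := by
      rw [Matrix.mulVec_single_one]
      show atOne A i1 i0 = 1
      rw [atOne_apply, ← hb, ev1_bar, h01']
    refine ⟨fun i => (if i = i1 then -(ev1 ζ) else 0) +
      (if i = i0 then ev1 m - c + 1 - 2 * k * β else 0), ?_⟩
    funext i
    rw [QM_mulVec, hp1, hLs, hLs1, Pi.smul_apply, smul_eq_mul]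
    by_cases hi : i = i0
    · subst hi
      simp only [Pi.single_eq_same, if_neg hne, if_true, hζ]
      ring
    · by_cases hi' : i = i1
      · subst hi'
        simp [hi]
        ring
      · simp [hi, hi']
  · rintro x ⟨c, hc⟩
    refine ⟨fun i => (x i + if i = i1 then -((2 * k + 1) * ev1 ζ) * x i0 else 0) +
      (if i = i0 then (2 * k + 1) * ev1 m * x i0 - c - ev1 ζ * (atOne A *ᵥ x) i1 else 0), ?_⟩
    funext i
    rw [QM_mulVec, hp1, hc, Pi.smul_apply, smul_eq_mul]
    by_cases hi : i = i0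
    · simp only [hi, if_true]; ring
    · simp only [hi, if_false]; ring

end Pool.Agent.K1H60.BF
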