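import Pool.Agent.K1H60.BF.Num1
import Pool.Agent.K1H60.BF.Odd

/-!
# Families of unimodular matrices closed under congruence and the lattice step
-/

set_option autoImplicit false
set_option linter.unusedSectionVars false
set_option linter.unusedVariables false

namespace Pool.Agent.K1H60.BF

open LaurentPolynomial Matrix Pool.Agent.R799

/-- A family of unimodular symmetric integer matrices closed under congruence and under the
lattice step. -/
structure Closed {m : ℕ} (S : Set (Matrix (Fin m) (Fin m) ℤ)) : Prop where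
  sym : ∀ L ∈ S, Lᵀ = L
  uni : ∀ L ∈ S, IsUnit L.det
  cong : ∀ L ∈ S, ∀ U : Matrix (Fin m) (Fin m) ℤ, IsUnit U.det → Uᵀ * L * U ∈ S
  step : ∀ L ∈ S, ∀ (k : ℤ) (y : Fin m → ℤ), Prim y → (2 * k + 1) ^ 2 ∣ bf L y y →
    ∃ L' ∈ S, ∃ Q : Matrix (Fin m) (Fin m) ℤ,
      Qᵀ * L' * Q = ((2 * k + 1) ^ 2) • L ∧ (∃ y', Q *ᵥ y = ((2 * k + 1) ^ 2) • y') ∧
      ∀ x, (2 * k + 1) ∣ bf L y x → ∃ y', Q *ᵥ x = (2 * k + 1) • y'

section Tv

variable {ι : Type*} [Fintype ι] [DecidableEq ι]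

lemma tv_fst {i0 i1 i2 : ι} (h02 : i0 ≠ i2) (h12 : i1 ≠ i2) (k c : ℤ) :
    (transvection i0 i2 k * transvection i1 i2 c) *ᵥ Pi.single i0 1 = Pi.single i0 1 := by
  rw [← Matrix.mulVec_mulVec, transvection_mulVec, transvection_mulVec]
  simp [h02.symm]

lemma tv_snd {i0 i1 i2 : ι} (h02 : i0 ≠ i2) (h12 : i1 ≠ i2) (k c : ℤ) :
    (transvection i0 i2 k * transvection i1 i2 c) *ᵥ Pi.single i2 1 =
      Pi.single i2 1 + c • Pi.single i1 1 + k • Pi.single i0 1 := by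
  rw [← Matrix.mulVec_mulVec, transvection_mulVec, transvection_mulVec]
  have e4 : (Pi.single i2 1 + Pi.single i1 (c * (Pi.single i2 1 : ι → ℤ) i2) : ι → ℤ) i2 = 1 := by
    simp [h12.symm]
  rw [e4, Pi.single_eq_same, mul_one, mul_one, ← Pi.single_smul, ← Pi.single_smul, smul_eq_mul,
    smul_eq_mul, mul_one, mul_one]

end Tv

/-- A basis adapted to a primitive vector. -/
lemma adapted {n : ℕ} {L : Matrix (Fin (n + 3)) (Fin (n + 3)) ℤ} (hu : IsUnit L.det)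
    {y : Fin (n + 3) → ℤ} (hy : Prim y) :
    ∃ U : Matrix (Fin (n + 3)) (Fin (n + 3)) ℤ, IsUnit U.det ∧ U *ᵥ Pi.single 0 1 = y ∧
      (Uᵀ * L * U) 0 (Fin.succ (Fin.succ 0)) = 1 := by
  obtain ⟨U0, hU0, h0⟩ := complete 0 hy
  obtain ⟨L0, hL0⟩ : ∃ L0, L0 = U0ᵀ * L * U0 := ⟨_, rfl⟩
  obtain ⟨V, hV, g, hg⟩ := reduce (0 : Fin (n + 2)) (fun j => L0 0 j.succ)
  obtain ⟨U1, hU1⟩ : ∃ U1, U1 = U0 * bl 1 Vᵀ := ⟨_, rfl⟩
  obtain ⟨L1, hL1⟩ : ∃ L1, L1 = U1ᵀ * L * U1 := ⟨_, rfl⟩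
  have hL1' : L1 = (bl 1 Vᵀ)ᵀ * L0 * bl 1 Vᵀ := by
    rw [hL1, hL0, hU1, Matrix.transpose_mul]
    simp only [Matrix.mul_assoc]
  have hU1d : IsUnit U1.det := by
    rw [hU1, Matrix.det_mul, bl_det, one_mul, Matrix.det_transpose]
    exact hU0.mul hV
  have hL1d : IsUnit L1.det := by
    rw [hL1, Matrix.det_mul, Matrix.det_mul, Matrix.det_transpose]
    exact (hU1d.mul hu).mul hU1d
  have hs0 : (Pi.single 0 1 : Fin (n + 3) → ℤ) = Fin.cons 1 0 := by
    funext i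
    refine Fin.cases ?_ (fun i => ?_) i
    · simp
    · simp [Fin.succ_ne_zero]
  have hsj : ∀ j : Fin (n + 2), (Pi.single j.succ 1 : Fin (n + 3) → ℤ) =
      Fin.cons 0 (Pi.single j 1) := by
    intro j
    funext i
    refine Fin.cases ?_ (fun i => ?_) i
    · simp [Fin.succ_ne_zero]
    · by_cases hij : i = j
      · subst hij; simp
      · simp [hij, Fin.succ_inj]
  have hb0 : bl 1 Vᵀ *ᵥ Pi.single 0 1 = Pi.single 0 1 := by
    rw [hs0, bl_mulVec]; simp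
  have hU10 : U1 *ᵥ Pi.single 0 1 = y := by
    rw [hU1, ← Matrix.mulVec_mulVec, hb0, h0]
  -- the first row
  have hrow : ∀ j : Fin (n + 2), L1 0 j.succ = (Pi.single 0 g : Fin (n + 2) → ℤ) j := by
    intro j
    rw [← hg]
    calc L1 0 j.succ = bf L1 (Pi.single 0 1) (Pi.single j.succ 1) := (bf_single L1 0 j.succ).symm
      _ = bf L0 (Pi.single 0 1) (Fin.cons 0 (Vᵀ *ᵥ Pi.single j 1)) := by
        rw [hL1', bf_cong, hb0, hsj, bl_mulVec]; simp
      _ = (V *ᵥ fun j => L0 0 j.succ) j := by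
        rw [bf_single_left, Matrix.mulVec, dotProduct, Fin.sum_univ_succ]
        simp only [Fin.cons_zero, Fin.cons_succ, mul_zero, zero_add]
        rw [Matrix.mulVec, dotProduct]
        apply Finset.sum_congr rfl
        intro i _
        rw [Matrix.mulVec_single_one]
        exact mul_comm _ _
  -- coprimality
  obtain ⟨k, c, hkc⟩ : ∃ k c, k * L1 0 0 + c * g = 1 := by
    have h1 : (L1 * L1⁻¹) 0 0 = 1 := by rw [Matrix.mul_nonsing_inv _ hL1d]; rfl
    rw [Matrix.mul_apply, Fin.sum_univ_succ, Fin.sum_univ_succ] at h1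
    rw [hrow] at h1
    have h2 : ∀ i : Fin (n + 1), L1 0 i.succ.succ * L1⁻¹ i.succ.succ 0 = 0 := by
      intro i
      rw [hrow]
      simp [Fin.succ_ne_zero]
    rw [Finset.sum_eq_zero (fun i _ => h2 i), Pi.single_eq_same, add_zero] at h1
    exact ⟨L1⁻¹ 0 0, L1⁻¹ (Fin.succ 0) 0, by linear_combination h1⟩
  obtain ⟨W, hW⟩ : ∃ W : Matrix (Fin (n + 3)) (Fin (n + 3)) ℤ,
      W = transvection 0 (Fin.succ (Fin.succ 0)) k *
        transvection (Fin.succ 0) (Fin.succ (Fin.succ 0)) c := ⟨_, rfl⟩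
  have n02 : (0 : Fin (n + 3)) ≠ Fin.succ (Fin.succ 0) := (Fin.succ_ne_zero _).symm
  have n12 : (Fin.succ 0 : Fin (n + 3)) ≠ Fin.succ (Fin.succ 0) := by
    rw [ne_eq, Fin.succ_inj]; exact (Fin.succ_ne_zero _).symm
  have hWd : W.det = 1 := by
    rw [hW, Matrix.det_mul, det_transvection_of_ne _ _ n02, det_transvection_of_ne _ _ n12, one_mul]
  have hW0 : W *ᵥ Pi.single 0 1 = Pi.single 0 1 := by rw [hW]; exact tv_fst n02 n12 k c
  have hW2 : W *ᵥ Pi.single (Fin.succ (Fin.succ 0)) 1 = Pi.single (Fin.succ (Fin.succ 0)) 1 +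
      c • Pi.single (Fin.succ 0) 1 + k • Pi.single 0 1 := by rw [hW]; exact tv_snd n02 n12 k c
  refine ⟨U1 * W, ?_, ?_, ?_⟩
  · rw [Matrix.det_mul, hWd, mul_one]; exact hU1d
  · rw [← Matrix.mulVec_mulVec, hW0, hU10]
  · have e1 : (U1 * W)ᵀ * L * (U1 * W) = Wᵀ * L1 * W := by
      rw [hL1, Matrix.transpose_mul U1]
      simp only [Matrix.mul_assoc]
    rw [e1]
    refine ((bf_single _ 0 (Fin.succ (Fin.succ 0))).symm).trans ?_
    rw [bf_cong, hW0, hW2, bf_add_right, bf_add_right, bf_smul_right, bf_smul_right, bf_single,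
      bf_single, bf_single, hrow, hrow, Pi.single_eq_same,
      Pi.single_eq_of_ne (Fin.succ_ne_zero _)]
    linear_combination hkc

/-! ### The first family -/

/-- An integer matrix over `Λ`. -/
noncomputable def toLam {ι κ : Type*} (U : Matrix ι κ ℤ) : Matrix ι κ Lam :=
  U.map (Int.castRingHom Lam)

section ToLam

variable {ι κ : Type*}

lemma toLam_apply (U : Matrix ι κ ℤ) (i : ι) (j : κ) : toLam U i j = ((U i j : ℤ) : Lam) := rfl

lemma toLam_mul [Fintype ι] (U V : Matrix ι ι ℤ) : toLam (U * V) = toLam U * toLam V :=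
  Matrix.map_mul

lemma toLam_one [DecidableEq ι] : toLam (1 : Matrix ι ι ℤ) = 1 :=
  Matrix.map_one _ (map_zero _) (map_one _)

lemma conjT_toLam (U : Matrix ι ι ℤ) : conjT (toLam U) = toLam Uᵀ := by
  refine Matrix.ext fun i j => ?_
  rw [conjT_apply, toLam_apply, toLam_apply, map_intCast]
  rfl

lemma atOne_toLam (U : Matrix ι ι ℤ) : atOne (toLam U) = U := by
  refine Matrix.ext fun i j => ?_
  rw [atOne_apply, toLam_apply, map_intCast]
  rfl

lemma det_toLam [Fintype ι] [DecidableEq ι] (U : Matrix ι ι ℤ) :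
    (toLam U).det = ((U.det : ℤ) : Lam) := (RingHom.map_det (Int.castRingHom Lam) U).symm

end ToLam

/-- The values at `1` of the matrices with the same determinant and isometric pairing. -/
def SA {m : ℕ} (A : Matrix (Fin m) (Fin m) Lam) : Set (Matrix (Fin m) (Fin m) ℤ) :=
  {L | ∃ A' : Matrix (Fin m) (Fin m) Lam, conjT A' = A' ∧ A'.det = A.det ∧ Iso A A' ∧
    L = atOne A'}

lemma cong_lam {ι : Type*} [Fintype ι] [DecidableEq ι] {A : Matrix ι ι Lam} (hA : conjT A = A)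
    (hd : A.det ≠ 0) {U : Matrix ι ι ℤ} (hU : IsUnit U.det) :
    ∃ A' : Matrix ι ι Lam, conjT A' = A' ∧ A'.det = A.det ∧ Iso A A' ∧
      atOne A' = Uᵀ * atOne A * U := by
  refine ⟨conjT (toLam U) * A * toLam U, ?_, ?_, ?_, ?_⟩
  · rw [conjT_mul, conjT_mul, conjT_conjT, hA, Matrix.mul_assoc]
  · rw [Matrix.det_mul, Matrix.det_mul, conjT_toLam, det_toLam, det_toLam, Matrix.det_transpose]
    have : U.det * U.det = 1 := by
      rcases Int.isUnit_iff.1 hU with h | h <;> rw [h] <;> norm_num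
    have h2 : ((U.det : ℤ) : Lam) * ((U.det : ℤ) : Lam) = 1 := by
      rw [← Int.cast_mul, this, Int.cast_one]
    linear_combination A.det * h2
  · refine iso_congr (U' := toLam U⁻¹) hA hd ?_ ?_
    · rw [← toLam_mul, Matrix.mul_nonsing_inv _ hU, toLam_one]
    · rw [← toLam_mul, Matrix.nonsing_inv_mul _ hU, toLam_one]
  · rw [atOne_mul, atOne_mul, conjT_toLam, atOne_toLam, atOne_toLam]

theorem closed_SA {n : ℕ} {A : Matrix (Fin (n + 3)) (Fin (n + 3)) Lam} (hd : A.det ≠ 0)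
    (hd1 : ev1 A.det ^ 2 = 1) : Closed (SA A) where
  sym := by
    rintro L ⟨A', h1, -, -, rfl⟩
    rw [← atOne_conjT, h1]
  uni := by
    rintro L ⟨A', -, h2, -, rfl⟩
    rw [det_atOne, h2]
    exact IsUnit.of_mul_eq_one _ (by rw [← hd1]; ring)
  cong := by
    rintro L ⟨A', h1, h2, h3, rfl⟩ U hU
    obtain ⟨A'', g1, g2, g3, g4⟩ := cong_lam h1 (by rw [h2]; exact hd) hU
    exact ⟨A'', g1, g2.trans h2, h3.trans g3, g4.symm⟩
  step := by
    rintro L ⟨A', h1, h2, h3, rfl⟩ k y hy hdvd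
    have hu : IsUnit (atOne A').det := by
      rw [det_atOne, h2]
      exact IsUnit.of_mul_eq_one _ (by rw [← hd1]; ring)
    obtain ⟨U, hU, hU0, hU1⟩ := adapted hu hy
    obtain ⟨A2, g1, g2, g3, g4⟩ := cong_lam h1 (by rw [h2]; exact hd) hU
    have hb : ∀ x z, bf (atOne A2) x z = bf (atOne A') (U *ᵥ x) (U *ᵥ z) := by
      intro x z; rw [g4, bf_cong]
    obtain ⟨A3, Q, f1, f2, f3, f4, ⟨y', f5⟩, f6⟩ := odd_step (i0 := 0) (i1 := Fin.succ (Fin.succ 0))
      g1 (by rw [g2, h2]; exact hd) (by rw [g2, h2]; exact hd1) (Fin.succ_ne_zero _).symm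
      (by rw [g4]; exact hU1) k (by
        have : atOne A2 0 0 = bf (atOne A') y y := by
          rw [← hU0, ← hb]
          exact (bf_single _ 0 0).symm
        rw [this]; exact hdvd)
    refine ⟨atOne A3, ⟨A3, f1, f2.trans (g2.trans h2), (h3.trans g3).trans f3, rfl⟩,
      Q * U⁻¹, ?_, ⟨y', ?_⟩, ?_⟩
    · have e1 : (Q * U⁻¹)ᵀ * atOne A3 * (Q * U⁻¹) = (U⁻¹)ᵀ * (Qᵀ * atOne A3 * Q) * U⁻¹ := by
        rw [Matrix.transpose_mul]
        simp only [Matrix.mul_assoc]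
      rw [e1, f4, g4, Matrix.mul_smul, Matrix.smul_mul]
      congr 1
      have e2 : (U⁻¹)ᵀ * Uᵀ = 1 := by
        rw [← Matrix.transpose_mul, Matrix.mul_nonsing_inv _ hU, Matrix.transpose_one]
      calc (U⁻¹)ᵀ * (Uᵀ * atOne A' * U) * U⁻¹ = ((U⁻¹)ᵀ * Uᵀ) * atOne A' * (U * U⁻¹) := by
            simp only [Matrix.mul_assoc]
        _ = atOne A' := by rw [e2, Matrix.mul_nonsing_inv _ hU, Matrix.one_mul, Matrix.mul_one]
    · have e1 : U⁻¹ *ᵥ y = Pi.single 0 1 := by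
        rw [← hU0, Matrix.mulVec_mulVec, Matrix.nonsing_inv_mul _ hU, Matrix.one_mulVec]
      rw [← Matrix.mulVec_mulVec, e1, f5]
    · intro x hx
      have e1 : U *ᵥ (U⁻¹ *ᵥ x) = x := by
        rw [Matrix.mulVec_mulVec, Matrix.mul_nonsing_inv _ hU, Matrix.one_mulVec]
      obtain ⟨y', h⟩ := f6 (U⁻¹ *ᵥ x) (by
        rw [← bf_single_left, hb, hU0, e1]
        exact hx)
      exact ⟨y', by rw [← Matrix.mulVec_mulVec, h]⟩

end Pool.Agent.K1H60.BF
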