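import Pool.Agent.K1H60.BF.Num2

/-!
# Splitting off a vector of norm `±1`, in a closed family
-/

set_option autoImplicit false
set_option linter.unusedSectionVars false
set_option linter.unusedVariables false

namespace Pool.Agent.K1H60.BF

open Matrix

variable {m : ℕ}

/-- The orthogonal complements of a vector of norm `ε`. -/
def S1 (S : Set (Matrix (Fin (m + 1)) (Fin (m + 1)) ℤ)) (ε : ℤ) : Set (Matrix (Fin m) (Fin m) ℤ) :=
  {K | bl ε K ∈ S}

lemma cons_head_tail (x : Fin (m + 1) → ℤ) : x = Fin.cons (x 0) (fun i => x i.succ) := by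
  funext i
  refine Fin.cases ?_ (fun i => ?_) i <;> rfl

lemma single_zero_eq : (Pi.single 0 1 : Fin (m + 1) → ℤ) = Fin.cons 1 0 := by
  funext i
  refine Fin.cases ?_ (fun i => ?_) i
  · simp
  · simp [Fin.succ_ne_zero]

lemma bf_bl (ε : ℤ) (K : Matrix (Fin m) (Fin m) ℤ) (x0 y0 : ℤ) (x y : Fin m → ℤ) :
    bf (bl ε K) (Fin.cons x0 x) (Fin.cons y0 y) = ε * x0 * y0 + bf K x y := by
  unfold bf
  rw [bl_mulVec, cons_dot]
  ring

lemma prim_cons {y : Fin m → ℤ} (hy : Prim y) (a : ℤ) : Prim (Fin.cons a y : Fin (m + 1) → ℤ) := by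
  obtain ⟨c, hc⟩ := hy
  exact ⟨Fin.cons 0 c, by rw [cons_dot, hc]; ring⟩

lemma one_sq {ε : ℤ} (hε : ε * ε = 1) : IsUnit ε := IsUnit.of_mul_eq_one _ hε

theorem closed_S1 {S : Set (Matrix (Fin (m + 1)) (Fin (m + 1)) ℤ)} (hS : Closed S) {ε : ℤ}
    (hε : ε * ε = 1) : Closed (S1 S ε) where
  sym := by
    intro K hK
    have := hS.sym _ hK
    rw [bl_transpose] at this
    exact bl_inj this
  uni := by
    intro K hK
    have := hS.uni _ hK
    rw [bl_det] at this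
    exact isUnit_of_mul_isUnit_right this
  cong := by
    intro K hK U hU
    have := hS.cong _ hK (bl 1 U) (by rw [bl_det, one_mul]; exact hU)
    rw [bl_transpose, bl_mul, bl_mul, one_mul, mul_one] at this
    exact this
  step := by
    intro K hK k y hy hdvd
    have hN : (2 * k + 1 : ℤ) ≠ 0 := by omega
    obtain ⟨L', hL', Q, h1, ⟨y', h2⟩, h3⟩ := hS.step _ hK k (Fin.cons 0 y) (prim_cons hy 0)
      (by rw [bf_bl]; simpa using hdvd)
    -- the first basis vector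
    obtain ⟨v, hv⟩ := h3 (Fin.cons 1 0) (by
      rw [bf_bl]; unfold bf; simp)
    have hLs := hS.sym _ hL'
    have hvv : bf L' v v = ε := by
      have e1 : bf (Qᵀ * L' * Q) (Fin.cons 1 0) (Fin.cons 1 0) = (2 * k + 1) ^ 2 * ε := by
        rw [h1, bf_smul_mat, bf_bl]; unfold bf; simp
      rw [bf_cong, hv, bf_smul_left, bf_smul_right] at e1
      have e2 : (2 * k + 1) ^ 2 * bf L' v v = (2 * k + 1) ^ 2 * ε := by linear_combination e1
      exact mul_left_cancel₀ (pow_ne_zero 2 hN) e2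
    obtain ⟨U, K', hU, hU0, hUL⟩ := split hLs hε hvv
    have hinv : ∀ x, U⁻¹ *ᵥ (U *ᵥ x) = x := fun x => by
      rw [Matrix.mulVec_mulVec, Matrix.nonsing_inv_mul _ hU, Matrix.one_mulVec]
    have hinv' : ∀ x, U *ᵥ (U⁻¹ *ᵥ x) = x := fun x => by
      rw [Matrix.mulVec_mulVec, Matrix.mul_nonsing_inv _ hU, Matrix.one_mulVec]
    obtain ⟨R, hR⟩ : ∃ R, R = U⁻¹ * Q := ⟨_, rfl⟩
    have hURe : ∀ x, U *ᵥ (R *ᵥ x) = Q *ᵥ x := fun x => by
      rw [hR, ← Matrix.mulVec_mulVec, hinv']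
    have hR0 : R *ᵥ Pi.single 0 1 = (2 * k + 1) • Pi.single 0 1 := by
      rw [hR, ← Matrix.mulVec_mulVec, single_zero_eq, hv, Matrix.mulVec_smul, ← hU0, hinv,
        single_zero_eq]
    have hRq : Rᵀ * bl ε K' * R = (2 * k + 1) ^ 2 • bl ε K := by
      have e1 : U * R = Q := by rw [hR, ← Matrix.mul_assoc, Matrix.mul_nonsing_inv _ hU,
        Matrix.one_mul]
      rw [← hUL, ← h1, ← e1, Matrix.transpose_mul]
      simp only [Matrix.mul_assoc]
    have hRb : ∀ x z, bf (bl ε K') (R *ᵥ x) (R *ᵥ z) = (2 * k + 1) ^ 2 * bf (bl ε K) x z := by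
      intro x z
      rw [← bf_cong, hRq, bf_smul_mat]
    have hcol : ∀ i : Fin m, R i.succ 0 = 0 := by
      intro i
      have := congrFun hR0 i.succ
      rw [Matrix.mulVec_single_one] at this
      simpa [Fin.succ_ne_zero] using this
    have hR00 : R 0 0 = 2 * k + 1 := by
      have := congrFun hR0 0
      rw [Matrix.mulVec_single_one] at this
      simpa using this
    have hrow : ∀ j : Fin m, R 0 j.succ = 0 := by
      intro j
      have e1 := hRb (Pi.single 0 1) (Pi.single j.succ 1)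
      rw [hR0, bf_single, bl_zero_succ, mul_zero, bf_smul_left, single_zero_eq,
        cons_head_tail (R *ᵥ _), bf_bl] at e1
      rw [Matrix.mulVec_single_one] at e1
      have e2 : bf K' 0 (fun i => R.col j.succ i.succ) = 0 := by unfold bf; simp
      rw [e2, add_zero, mul_one] at e1
      have e3 : (2 * k + 1) * (ε * R 0 j.succ) = 0 := e1
      rcases mul_eq_zero.1 e3 with h | h
      · exact absurd h hN
      · rcases mul_eq_zero.1 h with h | h
        · exfalso; rw [h] at hε; simp at hε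
        · exact h
    have hRbl : R = bl (2 * k + 1) (Matrix.of fun i j => R i.succ j.succ) := by
      conv_lhs => rw [eq_bl hrow hcol]
      rw [hR00]
    obtain ⟨RK, hRK⟩ : ∃ RK, RK = (Matrix.of fun i j => R i.succ j.succ :
      Matrix (Fin m) (Fin m) ℤ) := ⟨_, rfl⟩
    rw [← hRK] at hRbl
    refine ⟨K', ?_, RK, ?_, ?_, ?_⟩
    · show bl ε K' ∈ S
      rw [← hUL]
      exact hS.cong _ hL' U hU
    · rw [hRbl, bl_transpose, bl_mul, bl_mul, bl_smul] at hRq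
      have e1 : (2 * k + 1) * ε * (2 * k + 1) = (2 * k + 1) ^ 2 * ε := by ring
      rw [e1] at hRq
      exact bl_inj hRq
    · refine ⟨fun i => (U⁻¹ *ᵥ y') i.succ, ?_⟩
      have e1 : R *ᵥ Fin.cons 0 y = (2 * k + 1) ^ 2 • (U⁻¹ *ᵥ y') := by
        rw [hR, ← Matrix.mulVec_mulVec, h2, Matrix.mulVec_smul]
      rw [hRbl, bl_mulVec] at e1
      funext i
      have := congrFun e1 i.succ
      rw [Fin.cons_succ] at this
      exact this
    · intro x hx
      obtain ⟨z, hz⟩ := h3 (Fin.cons 0 x) (by rw [bf_bl]; simpa using hx)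
      refine ⟨fun i => (U⁻¹ *ᵥ z) i.succ, ?_⟩
      have e1 : R *ᵥ Fin.cons 0 x = (2 * k + 1) • (U⁻¹ *ᵥ z) := by
        rw [hR, ← Matrix.mulVec_mulVec, hz, Matrix.mulVec_smul]
      rw [hRbl, bl_mulVec] at e1
      funext i
      have := congrFun e1 i.succ
      rw [Fin.cons_succ] at this
      exact this

/-- A matrix is odd if some vector has odd norm. -/
def IsOdd (L : Matrix (Fin m) (Fin m) ℤ) : Prop := ∃ x, ¬ (2 : ℤ) ∣ bf L x x

/-- The vector `v` is not characteristic. -/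
def NC (L : Matrix (Fin m) (Fin m) ℤ) (v : Fin m → ℤ) : Prop :=
  ∃ x, ¬ (2 : ℤ) ∣ bf L x x + bf L x v

/-- Splitting off a vector of norm `±1` which is not characteristic. -/
lemma split_odd {S : Set (Matrix (Fin (m + 1)) (Fin (m + 1)) ℤ)} (hS : Closed S)
    {L : Matrix (Fin (m + 1)) (Fin (m + 1)) ℤ} (hL : L ∈ S) {ε : ℤ}
    (hε : ε * ε = 1) {v : Fin (m + 1) → ℤ} (hv : bf L v v = ε) (hnc : NC L v) :
    ∃ K ∈ S1 S ε, IsOdd K := by
  obtain ⟨U, K, hU, hU0, hUL⟩ := split (hS.sym _ hL) hε hv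
  refine ⟨K, ?_, ?_⟩
  · show bl ε K ∈ S
    rw [← hUL]
    exact hS.cong _ hL U hU
  · obtain ⟨x, hx⟩ := hnc
    have hinv' : U *ᵥ (U⁻¹ *ᵥ x) = x := by
      rw [Matrix.mulVec_mulVec, Matrix.mul_nonsing_inv _ hU, Matrix.one_mulVec]
    refine ⟨fun i => (U⁻¹ *ᵥ x) i.succ, ?_⟩
    have e1 : bf L x x = ε * (U⁻¹ *ᵥ x) 0 * (U⁻¹ *ᵥ x) 0 +
        bf K (fun i => (U⁻¹ *ᵥ x) i.succ) (fun i => (U⁻¹ *ᵥ x) i.succ) := by
      rw [← bf_bl, ← cons_head_tail, ← hUL, bf_cong, hinv']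
    have e2 : bf L x v = ε * (U⁻¹ *ᵥ x) 0 := by
      have e3 : bf (bl ε K) (U⁻¹ *ᵥ x) (Pi.single 0 1) = ε * (U⁻¹ *ᵥ x) 0 := by
        conv_lhs => rw [cons_head_tail (U⁻¹ *ᵥ x), single_zero_eq]
        rw [bf_bl]
        unfold bf
        simp
      rw [← e3, ← hUL, bf_cong, hinv', hU0]
    rintro ⟨c, hc⟩
    apply hx
    rw [e1, e2, hc]
    have hpar : (2 : ℤ) ∣ (U⁻¹ *ᵥ x) 0 * (U⁻¹ *ᵥ x) 0 + (U⁻¹ *ᵥ x) 0 := by
      have := Int.even_mul_succ_self ((U⁻¹ *ᵥ x) 0)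
      obtain ⟨r, hr⟩ := this
      exact ⟨r, by linear_combination hr⟩
    obtain ⟨r, hr⟩ := hpar
    exact ⟨ε * r + c, by linear_combination ε * hr⟩

/-- The reduction of the norm `ε N²` to the norm `ε`. -/
lemma step_odd {S : Set (Matrix (Fin (m + 1)) (Fin (m + 1)) ℤ)} (hS : Closed S)
    {L : Matrix (Fin (m + 1)) (Fin (m + 1)) ℤ} (hL : L ∈ S) {ε : ℤ}
    (hε : ε * ε = 1) {y : Fin (m + 1) → ℤ} (hy : Prim y) {N : ℤ} (hN : ¬ (2 : ℤ) ∣ N)
    (hyy : bf L y y = ε * N ^ 2) (hnc : NC L y) : ∃ K ∈ S1 S ε, IsOdd K := by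
  obtain ⟨k, rfl⟩ : ∃ k, N = 2 * k + 1 := ⟨N / 2, by omega⟩
  obtain ⟨L', hL', Q, h1, ⟨y', h2⟩, -⟩ := hS.step _ hL k y hy (by rw [hyy]; exact dvd_mul_left _ _)
  have hN0 : (2 * k + 1 : ℤ) ≠ 0 := by omega
  have hQb : ∀ x z, bf L' (Q *ᵥ x) (Q *ᵥ z) = (2 * k + 1) ^ 2 * bf L x z := by
    intro x z
    rw [← bf_cong, h1, bf_smul_mat]
  have h3 : bf L' y' y' = ε := by
    have e1 := hQb y y
    rw [h2, bf_smul_left, bf_smul_right, hyy] at e1
    have e2 : ((2 * k + 1) ^ 2 * (2 * k + 1) ^ 2) * bf L' y' y' =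
      ((2 * k + 1) ^ 2 * (2 * k + 1) ^ 2) * ε := by linear_combination e1
    exact mul_left_cancel₀ (by positivity) e2
  obtain ⟨x, hx⟩ := hnc
  refine split_odd hS hL' hε h3 ⟨Q *ᵥ x, ?_⟩
  have h4 : bf L' (Q *ᵥ x) y' = bf L x y := by
    have e1 := hQb x y
    rw [h2, bf_smul_right] at e1
    exact mul_left_cancel₀ (pow_ne_zero 2 hN0) e1
  rw [hQb, h4]
  rintro ⟨c, hc⟩
  apply hx
  refine ⟨c - (2 * k ^ 2 + 2 * k) * bf L x x, ?_⟩
  linear_combination hc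

end Pool.Agent.K1H60.BF
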