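import Pool.Agent.K1H60.BF.Num3
import Pool.Agent.R847.QB.Mat
import Pool.Agent.R847.QB.Meyer
import Pool.Agent.R847.QB.Iso
import Pool.Agent.R847.QB.Dir

/-!
# Odd unimodular matrices of size at least four represent `± N²`, with `N` odd
-/

set_option autoImplicit false
set_option linter.unusedSectionVars false
set_option linter.unusedVariables false

namespace Pool.Agent.K1H60.BF

open Matrix

variable {m : ℕ}

/-- The isotropic case. -/
lemma iso_case {K : Matrix (Fin m) (Fin m) ℤ} (hs : Kᵀ = K) (hu : IsUnit K.det) (ho : IsOdd K)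
    {v : Fin m → ℤ} (hv0 : Prim v) (hv : bf K v v = 0) :
    ∃ u, bf K u u = 1 ∧ NC K u := by
  obtain ⟨w, hw⟩ := exists_bf_one hs hu hv0
  obtain ⟨x, hx⟩ := ho
  have hc := bf_comm hs
  -- a vector of odd norm with value `1`
  obtain ⟨w', h1, h2⟩ : ∃ w', bf K v w' = 1 ∧ ¬ (2 : ℤ) ∣ bf K w' w' := by
    by_cases hw2 : (2 : ℤ) ∣ bf K w w
    · obtain ⟨a, ha⟩ := hw2
      refine ⟨w + (x - (bf K v x) • w), ?_, ?_⟩
      · rw [bf_add_right, bf_sub_right, bf_smul_right, hw]; ring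
      · simp only [bf_add_right, bf_sub_right, bf_smul_right, bf_add_left, bf_sub_left,
          bf_smul_left]
        rw [hc x w, ha]
        rintro ⟨c, hc'⟩
        apply hx
        refine ⟨c - a - bf K w x + 2 * bf K v x * a + bf K v x * bf K w x -
          (bf K v x) ^ 2 * a, ?_⟩
        linear_combination hc'
    · exact ⟨w, hw, hw2⟩
  obtain ⟨c, hc'⟩ : ∃ c, 1 - bf K w' w' = 2 * c := ⟨(1 - bf K w' w') / 2, by omega⟩
  refine ⟨w' + c • v, ?_, v, ?_⟩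
  · simp only [bf_add_right, bf_smul_right, bf_add_left, bf_smul_left]
    rw [hc w' v, h1, hv]
    linear_combination -hc'
  · rw [hv, bf_add_right, bf_smul_right, hv, h1]
    norm_num

/-- The primitive part of a solution. -/
lemma prim_part (i0 : Fin m) {K : Matrix (Fin m) (Fin m) ℤ} {y : Fin m → ℤ} {ε t : ℤ}
    (ht : t ≠ 0) (hy : bf K y y = ε * t ^ 2) (hε : ε * ε = 1) :
    ∃ (g : ℤ) (y1 : Fin m → ℤ) (t1 : ℤ), y = g • y1 ∧ Prim y1 ∧ t = g * t1 ∧
      bf K y1 y1 = ε * t1 ^ 2 := by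
  obtain ⟨g, U, hU, hg⟩ := exists_prim i0 y
  obtain ⟨y1, hy1⟩ : ∃ y1, y1 = U *ᵥ Pi.single i0 1 := ⟨_, rfl⟩
  rw [← hy1] at hg
  rw [hg, bf_smul_left, bf_smul_right] at hy
  have hg0 : g ≠ 0 := by
    rintro rfl
    have : ε * (ε * t ^ 2) = 0 := by rw [← hy]; ring
    have : t ^ 2 = 0 := by linear_combination this - (t ^ 2) * hε
    exact ht (pow_eq_zero_iff two_ne_zero |>.1 this)
  have hdvd : g ^ 2 ∣ t ^ 2 := ⟨ε * bf K y1 y1, by linear_combination ε * (-hy) - t ^ 2 * hε⟩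
  rw [Int.pow_dvd_pow_iff two_ne_zero] at hdvd
  obtain ⟨t1, ht1⟩ := hdvd
  refine ⟨g, y1, t1, hg, ?_, ht1, ?_⟩
  · rw [hy1]; exact prim_col i0 hU
  · rw [ht1] at hy
    have : g ^ 2 * bf K y1 y1 = g ^ 2 * (ε * t1 ^ 2) := by linear_combination hy
    exact mul_left_cancel₀ (pow_ne_zero 2 hg0) this

/-- The number `N` can be made odd. -/
lemma make_odd {K : Matrix (Fin m) (Fin m) ℤ} (hs : Kᵀ = K) (hu : IsUnit K.det) (ho : IsOdd K)
    {y : Fin m → ℤ} (hy0 : Prim y) {ε t : ℤ} (hε : ε * ε = 1) (hy : bf K y y = ε * t ^ 2) :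
    ∃ (y1 : Fin m → ℤ) (t1 : ℤ), ¬ (2 : ℤ) ∣ t1 ∧ bf K y1 y1 = ε * t1 ^ 2 := by
  by_cases ht : (2 : ℤ) ∣ t
  · obtain ⟨b, hb⟩ := exists_bf_one hs hu hy0
    obtain ⟨a, ha⟩ := ho
    -- a vector `s` with `s²` and `(y, s)` odd
    obtain ⟨s, hs1, hs2⟩ : ∃ s, ¬ (2 : ℤ) ∣ bf K s s ∧ ¬ (2 : ℤ) ∣ bf K y s := by
      by_cases h1 : (2 : ℤ) ∣ bf K y a
      · by_cases h2 : (2 : ℤ) ∣ bf K b b
        · refine ⟨a + b, ?_, ?_⟩
          · simp only [bf_add_right, bf_add_left]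
            rw [bf_comm hs b a]
            rintro ⟨c, hc⟩
            obtain ⟨e, he⟩ := h2
            exact ha ⟨c - bf K a b - e, by linear_combination hc - he⟩
          · rw [bf_add_right, hb]
            omega
        · exact ⟨b, h2, by rw [hb]; norm_num⟩
      · exact ⟨a, ha, h1⟩
    have hε1 : ε = 1 ∨ ε = -1 := by
      rcases Int.isUnit_iff.1 (one_sq hε) with h | h
      · exact Or.inl h
      · exact Or.inr h
    obtain ⟨e, he⟩ : ∃ e, bf K s s + ε = 2 * e := ⟨(bf K s s + ε) / 2, by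
      rcases hε1 with h | h <;> rw [h] at * <;> omega⟩
    refine ⟨(e - ε) • y + (ε * t - bf K y s) • s, e * t - bf K y s, ?_, ?_⟩
    · obtain ⟨r, hr⟩ := ht
      rintro ⟨c, hc⟩
      exact hs2 ⟨e * r - c, by rw [hr] at hc; linear_combination -hc⟩
    · simp only [bf_add_right, bf_add_left, bf_smul_left, bf_smul_right]
      rw [bf_comm hs s y, hy]
      have he' : bf K s s = 2 * e - ε := by linarith
      rw [he']
      rcases hε1 with h | h <;> rw [h] <;> ring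
  · exact ⟨y, t, ht, hy⟩

/-- Three vectors of even norm, independent modulo two. -/
lemma three {K : Matrix (Fin m) (Fin m) ℤ} (hs : Kᵀ = K) {y : Fin m → ℤ}
    {g x : Fin 3 → (Fin m → ℤ)} (hd : ∀ i j, bf K (g i) (x j) = if i = j then 1 else 0)
    (hgy : ∀ i, bf K y (g i) = 0) (he : ∀ i, (2 : ℤ) ∣ bf K (g i) (g i)) :
    ∃ z w, bf K y z = 0 ∧ (4 : ℤ) ∣ bf K z z ∧ ¬ (2 : ℤ) ∣ bf K z w := by
  by_cases h0 : (4 : ℤ) ∣ bf K (g 0) (g 0)
  · exact ⟨g 0, x 0, hgy 0, h0, by rw [hd]; norm_num⟩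
  by_cases h1 : (4 : ℤ) ∣ bf K (g 1) (g 1)
  · exact ⟨g 1, x 1, hgy 1, h1, by rw [hd]; norm_num⟩
  by_cases h2 : (4 : ℤ) ∣ bf K (g 2) (g 2)
  · exact ⟨g 2, x 2, hgy 2, h2, by rw [hd]; norm_num⟩
  have e0 := he 0
  have e1 := he 1
  have e2 := he 2
  have c10 := bf_comm hs (g 1) (g 0)
  have c20 := bf_comm hs (g 2) (g 0)
  have c21 := bf_comm hs (g 2) (g 1)
  by_cases h01 : (2 : ℤ) ∣ bf K (g 0) (g 1)
  · refine ⟨g 0 + g 1, x 0, by rw [bf_add_right, hgy, hgy]; rfl, ?_, ?_⟩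
    · simp only [bf_add_right, bf_add_left, c10]; omega
    · rw [bf_add_left, hd, hd]; norm_num
  by_cases h02 : (2 : ℤ) ∣ bf K (g 0) (g 2)
  · refine ⟨g 0 + g 2, x 0, by rw [bf_add_right, hgy, hgy]; rfl, ?_, ?_⟩
    · simp only [bf_add_right, bf_add_left, c20]; omega
    · rw [bf_add_left, hd, hd, if_pos rfl, if_neg (by decide)]; norm_num
  by_cases h12 : (2 : ℤ) ∣ bf K (g 1) (g 2)
  · refine ⟨g 1 + g 2, x 1, by rw [bf_add_right, hgy, hgy]; rfl, ?_, ?_⟩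
    · simp only [bf_add_right, bf_add_left, c21]; omega
    · rw [bf_add_left, hd, hd, if_pos rfl, if_neg (by decide)]; norm_num
  · refine ⟨g 0 + g 1 + g 2, x 0, by rw [bf_add_right, bf_add_right, hgy, hgy, hgy]; rfl, ?_, ?_⟩
    · simp only [bf_add_right, bf_add_left, c10, c20, c21]; omega
    · rw [bf_add_left, bf_add_left, hd, hd, hd, if_pos rfl, if_neg (by decide),
        if_neg (by decide)]; norm_num

/-- The vector can be made non-characteristic. -/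
lemma make_nc {K : Matrix (Fin m) (Fin m) ℤ} (hm : 4 ≤ m) (hs : Kᵀ = K) (hu : IsUnit K.det)
    {y : Fin m → ℤ} {ε t : ℤ} (hε : ε * ε = 1) (ht : ¬ (2 : ℤ) ∣ t)
    (hy : bf K y y = ε * t ^ 2) :
    ∃ (y1 : Fin m → ℤ) (t1 : ℤ), ¬ (2 : ℤ) ∣ t1 ∧ bf K y1 y1 = ε * t1 ^ 2 ∧ NC K y1 := by
  by_cases hnc : NC K y
  · exact ⟨y, t, ht, hy, hnc⟩
  have hch : ∀ x, (2 : ℤ) ∣ bf K x x + bf K x y := by
    intro x
    by_contra h
    exact hnc ⟨x, h⟩
  have hε1 : ε = 1 ∨ ε = -1 := by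
    rcases Int.isUnit_iff.1 (one_sq hε) with h | h
    · exact Or.inl h
    · exact Or.inr h
  -- `y² = 1 or -1` modulo `4`
  obtain ⟨Y, hY⟩ : ∃ Y, bf K y y = 2 * Y + 1 := by
    obtain ⟨r, hr⟩ : ∃ r, t = 2 * r + 1 := ⟨t / 2, by omega⟩
    rcases hε1 with h | h
    · exact ⟨2 * r ^ 2 + 2 * r, by rw [hy, h, hr]; ring⟩
    · exact ⟨-(2 * r ^ 2 + 2 * r) - 1, by rw [hy, h, hr]; ring⟩
  have hc := bf_comm hs
  -- a basis of the orthogonal complement
  obtain ⟨i0, i1, i2, i3, n01, n02, n03, n12, n13, n23⟩ :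
      ∃ i0 i1 i2 i3 : Fin m, i1 ≠ i0 ∧ i2 ≠ i0 ∧ i3 ≠ i0 ∧ i1 ≠ i2 ∧ i1 ≠ i3 ∧ i2 ≠ i3 := by
    refine ⟨⟨0, by omega⟩, ⟨1, by omega⟩, ⟨2, by omega⟩, ⟨3, by omega⟩, ?_, ?_, ?_, ?_, ?_, ?_⟩ <;>
      simp
  obtain ⟨V, hV, g, hg⟩ := reduce i0 (K *ᵥ y)
  have hgy : ∀ j, j ≠ i0 → bf K y (Vᵀ *ᵥ Pi.single j 1) = 0 := by
    intro j hj
    rw [hc, bf, Matrix.mulVec_transpose, ← Matrix.dotProduct_mulVec, hg, single_dotProduct,
      Pi.single_eq_of_ne hj, mul_zero]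
  have hgx : ∀ i j, bf K (Vᵀ *ᵥ Pi.single i 1) (K⁻¹ *ᵥ (V⁻¹ *ᵥ Pi.single j 1)) =
      if i = j then 1 else 0 := by
    intro i j
    rw [bf, Matrix.mulVec_mulVec (V⁻¹ *ᵥ Pi.single j 1) K K⁻¹, Matrix.mul_nonsing_inv _ hu,
      Matrix.one_mulVec, Matrix.mulVec_transpose, ← Matrix.dotProduct_mulVec, Matrix.mulVec_mulVec,
      Matrix.mul_nonsing_inv _ hV, Matrix.one_mulVec, single_dotProduct, one_mul, Pi.single_apply]
  have hge : ∀ j, j ≠ i0 → (2 : ℤ) ∣ bf K (Vᵀ *ᵥ Pi.single j 1) (Vᵀ *ᵥ Pi.single j 1) := by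
    intro j hj
    have := hch (Vᵀ *ᵥ Pi.single j 1)
    rw [hc _ y, hgy j hj, add_zero] at this
    exact this
  obtain ⟨e, he⟩ : ∃ e : Fin 3 → Fin m, e = ![i1, i2, i3] := ⟨_, rfl⟩
  have hei : ∀ i, e i ≠ i0 := by
    intro i; rw [he]; fin_cases i
    · exact n01
    · exact n02
    · exact n03
  have hinj : ∀ i j, (e i = e j ↔ i = j) := by
    intro i j; rw [he]
    fin_cases i <;> fin_cases j <;> simp [n12, n13, n23, n12.symm, n13.symm, n23.symm]
  obtain ⟨z0, w, z1, z2, z3⟩ := three (K := K) (y := y) hs (g := fun i => Vᵀ *ᵥ Pi.single (e i) 1)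
    (x := fun i => K⁻¹ *ᵥ (V⁻¹ *ᵥ Pi.single (e i) 1))
    (fun i j => by rw [hgx]; simp only [hinj]) (fun i => hgy _ (hei i)) (fun i => hge _ (hei i))
  -- modulo eight
  obtain ⟨z, x, h1, h2, h3⟩ : ∃ z x, (4 : ℤ) ∣ bf K y z ∧ (8 : ℤ) ∣ bf K z z ∧
      ¬ (2 : ℤ) ∣ bf K z x := by
    by_cases h8 : (8 : ℤ) ∣ bf K z0 z0
    · exact ⟨z0, w, by rw [z1]; exact dvd_zero _, h8, z3⟩
    · obtain ⟨g', hg1, hg2⟩ : ∃ g', ¬ (2 : ℤ) ∣ bf K z0 g' ∧ (2 : ℤ) ∣ bf K y g' := by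
        by_cases hw : (2 : ℤ) ∣ bf K y w
        · exact ⟨w, z3, hw⟩
        · refine ⟨w + y, ?_, ?_⟩
          · rw [bf_add_right, hc z0 y, z1, add_zero]; exact z3
          · rw [bf_add_right, hY]; omega
      have hg3 : (2 : ℤ) ∣ bf K g' g' := by
        have := hch g'
        rw [hc g' y] at this
        omega
      refine ⟨z0 + (2 : ℤ) • g', w, ?_, ?_, ?_⟩
      · rw [bf_add_right, z1, bf_smul_right]; omega
      · simp only [bf_add_right, bf_add_left, bf_smul_right, bf_smul_left]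
        rw [hc g' z0]
        omega
      · rw [bf_add_left, bf_smul_left]; omega
  obtain ⟨a, ha⟩ := h1
  obtain ⟨b, hb⟩ := h2
  -- the reflection
  have k1 : bf K y (z + (2 : ℤ) • y) = 2 * (2 * a + bf K y y) := by
    rw [bf_add_right, bf_smul_right, ha]; ring
  have k2 : bf K (z + (2 : ℤ) • y) (z + (2 : ℤ) • y) = 4 * (2 * b + 4 * a + bf K y y) := by
    simp only [bf_add_right, bf_add_left, bf_smul_right, bf_smul_left]
    rw [hc z y, ha, hb]; ring
  have k3 : bf K x (z + (2 : ℤ) • y) = bf K z x + 2 * bf K y x := by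
    rw [bf_add_right, bf_smul_right, hc x z, hc x y]
  obtain ⟨zz, hzz⟩ : ∃ zz, zz = z + (2 : ℤ) • y := ⟨_, rfl⟩
  rw [← hzz] at k1 k2 k3
  refine ⟨(2 * b + 4 * a + bf K y y) • y - (2 * a + bf K y y) • zz,
    (2 * b + 4 * a + bf K y y) * t, ?_, ?_, x, ?_⟩
  · intro h
    rcases Int.prime_two.dvd_or_dvd h with h | h
    · rw [hY] at h; omega
    · exact ht h
  · simp only [bf_sub_left, bf_sub_right, bf_smul_left, bf_smul_right]
    rw [hc zz y, k1, k2]
    linear_combination ((2 * b + 4 * a + bf K y y) ^ 2) * hy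
  · rw [bf_sub_right, bf_smul_right, bf_smul_right, k3]
    obtain ⟨r, hr⟩ := hch x
    rintro ⟨c, hc'⟩
    apply h3
    refine ⟨r - c + (b + 2 * a + Y) * bf K x y - (a + Y) * bf K z x
      - (2 * a + 2 * Y + 1) * bf K y x, ?_⟩
    rw [hY] at hc'
    linear_combination hr - hc'

/-- The theorem of Meyer for integral symmetric matrices. -/
lemma meyer_int {N : ℕ} (hN : 5 ≤ N) {M : Matrix (Fin N) (Fin N) ℤ} (hs : Mᵀ = M)
    (hd : M.det ≠ 0) (hr : ∃ v : Fin N → ℝ, v ≠ 0 ∧ v ⬝ᵥ (M.map (Int.cast : ℤ → ℝ)) *ᵥ v = 0) :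
    ∃ w : Fin N → ℤ, w ≠ 0 ∧ bf M w w = 0 := by
  obtain ⟨MQ, hMQ⟩ : ∃ MQ, MQ = M.map (Int.castRingHom ℚ) := ⟨_, rfl⟩
  obtain ⟨v, hv0, hv⟩ := hr
  obtain ⟨w, hw0, hw⟩ := Pool.Agent.R847.QB.mat_ (Pool.Agent.R847.QB.meyer
    Pool.Agent.R847.QB.iso_ Pool.Agent.R847.QB.dir_) N hN MQ
    (by
      rw [hMQ]
      show (M.map (Int.castRingHom ℚ))ᵀ = _
      rw [← Matrix.transpose_map, hs])
    (by
      rw [hMQ]
      have : (M.map (Int.castRingHom ℚ)).det = ((M.det : ℤ) : ℚ) :=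
        (RingHom.map_det (Int.castRingHom ℚ) M).symm
      rw [this]
      exact_mod_cast hd)
    ⟨v, hv0, by
      have : MQ.map (algebraMap ℚ ℝ) = M.map (Int.cast : ℤ → ℝ) := by
        rw [hMQ]
        refine Matrix.ext fun i j => ?_
        simp
      rw [this]
      exact hv⟩
  -- clear denominators
  obtain ⟨b, hb⟩ := IsLocalization.exist_integer_multiples_of_finset (nonZeroDivisors ℤ)
    (Finset.univ.image w)
  have hb' : ∀ i, ∃ z : ℤ, (z : ℚ) = (b : ℤ) * w i := by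
    intro i
    obtain ⟨z, hz⟩ := hb (w i) (Finset.mem_image_of_mem _ (Finset.mem_univ i))
    refine ⟨z, ?_⟩
    rw [← smul_eq_mul]
    have : (algebraMap ℤ ℚ) z = (b : ℤ) • w i := hz
    rw [zsmul_eq_mul] at this
    rw [smul_eq_mul]
    exact this
  choose z hz using hb'
  have hb0 : ((b : ℤ) : ℚ) ≠ 0 := by
    exact_mod_cast nonZeroDivisors.coe_ne_zero b
  refine ⟨z, ?_, ?_⟩
  · rintro rfl
    apply hw0
    funext i
    have := hz i
    simp only [Pi.zero_apply, Int.cast_zero] at this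
    rcases mul_eq_zero.1 this.symm with h | h
    · exact absurd h hb0
    · exact h
  · have e1 : ((bf M z z : ℤ) : ℚ) = ((b : ℤ) : ℚ) ^ 2 * (w ⬝ᵥ MQ *ᵥ w) := by
      unfold bf
      rw [hMQ]
      simp only [dotProduct, Matrix.mulVec, Int.cast_sum, Int.cast_mul, hz, Finset.mul_sum,
        Matrix.map_apply]
      apply Finset.sum_congr rfl
      intro i _
      apply Finset.sum_congr rfl
      intro j _
      simp only [eq_intCast]
      ring
    have hw' : w ⬝ᵥ MQ *ᵥ w = 0 := hw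
    rw [hw', mul_zero] at e1
    exact_mod_cast e1

/-- **Odd unimodular matrices of size at least four.** -/
theorem rep_four {K : Matrix (Fin m) (Fin m) ℤ} (hm : 4 ≤ m) (hs : Kᵀ = K) (hu : IsUnit K.det)
    (ho : IsOdd K) : ∃ (ε : ℤ) (y : Fin m → ℤ) (N : ℤ), ε * ε = 1 ∧ Prim y ∧ ¬ (2 : ℤ) ∣ N ∧
      bf K y y = ε * N ^ 2 ∧ NC K y := by
  have i0 : Fin m := ⟨0, by omega⟩
  -- it suffices to find a vector of norm `ε t²`
  suffices H : ∃ (ε : ℤ) (y : Fin m → ℤ) (t : ℤ), ε * ε = 1 ∧ y ≠ 0 ∧ bf K y y = ε * t ^ 2 by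
    obtain ⟨ε, y, t, hε, hy0, hy⟩ := H
    by_cases ht : t = 0
    · obtain ⟨g, U, hU, hg⟩ := exists_prim i0 y
      have hg0 : g ≠ 0 := by rintro rfl; apply hy0; rw [hg, zero_smul]
      have hp := prim_col i0 hU
      obtain ⟨u, h1, h2⟩ := iso_case hs hu ho hp (by
        rw [hg, ht, bf_smul_left, bf_smul_right] at hy
        have : g * (g * bf K (U *ᵥ Pi.single i0 1) (U *ᵥ Pi.single i0 1)) = 0 := by
          rw [hy]; ring
        rcases mul_eq_zero.1 this with h | h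
        · exact absurd h hg0
        · rcases mul_eq_zero.1 h with h | h
          · exact absurd h hg0
          · exact h)
      exact ⟨1, u, 1, by norm_num, prim_of_norm (by norm_num) h1, by norm_num, by rw [h1]; norm_num,
        h2⟩
    · obtain ⟨g, y1, t1, -, hp, ht1, hy1⟩ := prim_part i0 ht hy hε
      obtain ⟨y2, t2, ht2, hy2⟩ := make_odd hs hu ho hp hε hy1
      obtain ⟨y3, t3, ht3, hy3, hnc⟩ := make_nc hm hs hu hε ht2 hy2
      have ht30 : t3 ≠ 0 := by rintro rfl; exact ht3 (dvd_zero _)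
      obtain ⟨g4, y4, t4, h4, hp4, ht4, hy4⟩ := prim_part i0 ht30 hy3 hε
      refine ⟨ε, y4, t4, hε, hp4, ?_, hy4, ?_⟩
      · intro h
        exact ht3 (by rw [ht4]; exact dvd_mul_of_dvd_right h _)
      · obtain ⟨x, hx⟩ := hnc
        refine ⟨x, ?_⟩
        rintro ⟨c, hc⟩
        apply hx
        have hg4 : ¬ (2 : ℤ) ∣ g4 := by
          intro h
          exact ht3 (by rw [ht4]; exact dvd_mul_of_dvd_left h _)
        obtain ⟨r, hr⟩ : ∃ r, g4 = 2 * r + 1 := ⟨g4 / 2, by omega⟩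
        rw [h4, bf_smul_right, hr]
        exact ⟨c + r * bf K x y4, by linear_combination hc⟩
  -- Meyer
  obtain ⟨x, hx⟩ := ho
  obtain ⟨ε, hε, hεx⟩ : ∃ ε : ℤ, ε * ε = 1 ∧ 0 < ε * bf K x x := by
    rcases lt_trichotomy (bf K x x) 0 with h | h | h
    · exact ⟨-1, by norm_num, by linarith⟩
    · exact absurd (h ▸ dvd_zero _) hx
    · exact ⟨1, by norm_num, by linarith⟩
  have hε0 : ε ≠ 0 := by rintro rfl; simp at hε
  obtain ⟨w, hw0, hw⟩ := meyer_int (N := m + 1) (by omega) (M := bl (-ε) K)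
    (by rw [bl_transpose, hs])
    (by
      rw [bl_det]
      exact mul_ne_zero (neg_ne_zero.2 hε0) hu.ne_zero)
    ⟨Fin.cons (Real.sqrt (ε * bf K x x)) (fun i => (x i : ℝ)), by
      constructor
      · intro h
        have h1 := congrFun h 0
        rw [Fin.cons_zero, Pi.zero_apply] at h1
        have h2 : (0 : ℝ) < ε * bf K x x := by exact_mod_cast hεx
        rw [Real.sqrt_eq_zero h2.le] at h1
        exact absurd h1 h2.ne'
      · have h2 : (0 : ℝ) ≤ ε * bf K x x := by exact_mod_cast hεx.le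
        have e1 : (Fin.cons (Real.sqrt (ε * bf K x x)) (fun i => (x i : ℝ)) : Fin (m + 1) → ℝ) ⬝ᵥ
            ((bl (-ε) K).map (Int.cast : ℤ → ℝ)) *ᵥ
              (Fin.cons (Real.sqrt (ε * bf K x x)) (fun i => (x i : ℝ)) : Fin (m + 1) → ℝ) =
            (-ε : ℝ) * (Real.sqrt (ε * bf K x x) * Real.sqrt (ε * bf K x x)) + bf K x x := by
          rw [dotProduct, Fin.sum_univ_succ]
          simp only [Matrix.mulVec, dotProduct, Fin.sum_univ_succ, Matrix.map_apply,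
            bl_zero_zero, bl_zero_succ, bl_succ_zero, bl_succ_succ, Fin.cons_zero, Fin.cons_succ,
            Int.cast_zero, zero_mul, Finset.sum_const_zero, add_zero, zero_add, Int.cast_neg]
          unfold bf
          simp only [Matrix.mulVec, dotProduct, Int.cast_sum, Int.cast_mul]
          ring
        rw [e1, Real.mul_self_sqrt h2]
        have h3 : (ε : ℝ) * ε = 1 := by exact_mod_cast hε
        linear_combination (-(bf K x x : ℝ)) * h3⟩
  rw [cons_head_tail w, bf_bl] at hw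
  refine ⟨ε, fun i => w i.succ, w 0, hε, ?_, by linear_combination hw⟩
  intro h
  apply hw0
  have h1 : w 0 = 0 := by
    rw [h] at hw
    have e2 : bf K 0 0 = 0 := by unfold bf; simp
    rw [e2] at hw
    have e3 : ε * (w 0 * w 0) = 0 := by linear_combination -hw
    rcases mul_eq_zero.1 e3 with h | h
    · exact absurd h hε0
    · exact mul_self_eq_zero.1 h
  funext i
  refine Fin.cases ?_ (fun i => ?_) i
  · exact h1
  · exact congrFun h i

end Pool.Agent.K1H60.BF
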