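import Pool.Agent.K1H60.BF.Num4

/-!
# Small sizes (Hermite), and the induction on the size
-/

set_option autoImplicit false
set_option linter.unusedSectionVars false
set_option linter.unusedVariables false

namespace Pool.Agent.K1H60.BF

open Matrix

variable {m : ℕ}

/-- A primitive vector of least absolute norm. -/
lemma min_vec (i0 : Fin m) (K : Matrix (Fin m) (Fin m) ℤ) :
    ∃ y, Prim y ∧ ∀ x, x ≠ 0 → |bf K y y| ≤ |bf K x x| := by
  classical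
  have hex : ∃ n : ℕ, ∃ v : Fin m → ℤ, v ≠ 0 ∧ (bf K v v).natAbs = n := by
    refine ⟨_, Pi.single i0 1, ?_, rfl⟩
    intro h
    have := congrFun h i0
    simp at this
  obtain ⟨v, hv0, hv⟩ := Nat.find_spec hex
  obtain ⟨g, U, hU, hg⟩ := exists_prim i0 v
  refine ⟨U *ᵥ Pi.single i0 1, prim_col i0 hU, ?_⟩
  intro x hx
  have h1 : Nat.find hex ≤ (bf K x x).natAbs := Nat.find_min' hex ⟨x, hx, rfl⟩
  have h2 : |bf K v v| ≤ |bf K x x| := by
    rw [← Int.natCast_natAbs, ← Int.natCast_natAbs, hv]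
    exact_mod_cast h1
  refine le_trans ?_ h2
  have hg0 : g ≠ 0 := by rintro rfl; apply hv0; rw [hg, zero_smul]
  rw [hg, bf_smul_left, bf_smul_right, abs_mul, abs_mul]
  have h3 : 1 ≤ |g| := Int.one_le_abs hg0
  have h4 := abs_nonneg (bf K (U *ᵥ Pi.single i0 1) (U *ᵥ Pi.single i0 1))
  have h5 : |bf K (U *ᵥ Pi.single i0 1) (U *ᵥ Pi.single i0 1)| ≤
      |g| * |bf K (U *ᵥ Pi.single i0 1) (U *ᵥ Pi.single i0 1)| := le_mul_of_one_le_left h4 h3
  exact h5.trans (le_mul_of_one_le_left (h4.trans h5) h3)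

/-- Reduction of an integer modulo another one. -/
lemma exists_near (a b : ℤ) (ha : a ≠ 0) : ∃ k, 2 * |b + k * a| ≤ |a| := by
  -- use the remainder
  have h1 := Int.emod_add_mul_ediv b a
  have h2 := Int.emod_nonneg b ha
  have h3 := Int.emod_lt_abs b ha
  by_cases h : 2 * (b % a) ≤ |a|
  · refine ⟨-(b / a), ?_⟩
    have e : b + -(b / a) * a = b % a := by linear_combination -h1
    rw [e, abs_of_nonneg h2]
    exact h
  · push Not at h
    rcases le_total 0 a with h0 | h0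
    · refine ⟨-(b / a) - 1, ?_⟩
      have e : b + (-(b / a) - 1) * a = b % a - |a| := by
        rw [abs_of_nonneg h0]; linear_combination -h1
      rw [e, abs_of_nonpos (by linarith)]
      linarith
    · refine ⟨-(b / a) + 1, ?_⟩
      have e : b + (-(b / a) + 1) * a = b % a - |a| := by
        rw [abs_of_nonpos h0]; linear_combination -h1
      rw [e, abs_of_nonpos (by linarith)]
      linarith

lemma mulVec_ne {U : Matrix (Fin m) (Fin m) ℤ} (hU : IsUnit U.det) {x : Fin m → ℤ} (hx : x ≠ 0) :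
    U *ᵥ x ≠ 0 := by
  intro h
  apply hx
  have : U⁻¹ *ᵥ (U *ᵥ x) = x := by
    rw [Matrix.mulVec_mulVec, Matrix.nonsing_inv_mul _ hU, Matrix.one_mulVec]
  rw [← this, h, Matrix.mulVec_zero]

lemma sq_unit {U : Matrix (Fin m) (Fin m) ℤ} (hU : IsUnit U.det) : U.det * U.det = 1 := by
  rcases Int.isUnit_iff.1 hU with h | h <;> rw [h] <;> norm_num

lemma det_cong {K U : Matrix (Fin m) (Fin m) ℤ} (hU : IsUnit U.det) :
    (Uᵀ * K * U).det = K.det := by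
  rw [Matrix.det_mul, Matrix.det_mul, Matrix.det_transpose]
  linear_combination K.det * sq_unit hU

lemma cong_symm {K U : Matrix (Fin m) (Fin m) ℤ} (hs : Kᵀ = K) : (Uᵀ * K * U)ᵀ = Uᵀ * K * U := by
  rw [Matrix.transpose_mul, Matrix.transpose_mul, Matrix.transpose_transpose, hs, Matrix.mul_assoc]

lemma bf_two (M : Matrix (Fin 2) (Fin 2) ℤ) (hM : M 1 0 = M 0 1) (x y : ℤ) :
    bf M ![x, y] ![x, y] = M 0 0 * x ^ 2 + 2 * M 0 1 * (x * y) + M 1 1 * y ^ 2 := by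
  unfold bf
  simp [Matrix.mulVec, dotProduct, Fin.sum_univ_succ]
  rw [hM]
  ring

/-- Binary forms. -/
lemma binary {K : Matrix (Fin 2) (Fin 2) ℤ} (hs : Kᵀ = K) :
    ∃ y, Prim y ∧ (∀ x, x ≠ 0 → |bf K y y| ≤ |bf K x x|) ∧ 3 * (bf K y y) ^ 2 ≤ 4 * |K.det| := by
  obtain ⟨y, hy, hmin⟩ := min_vec 0 K
  refine ⟨y, hy, hmin, ?_⟩
  obtain ⟨U, hU, hU0⟩ := complete 0 hy
  obtain ⟨M, hM⟩ : ∃ M, M = Uᵀ * K * U := ⟨_, rfl⟩
  have hMs : Mᵀ = M := by rw [hM]; exact cong_symm hs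
  have hM10 : M 1 0 = M 0 1 := by
    conv_lhs => rw [← hMs]
    rfl
  have hM00 : M 0 0 = bf K y y := by
    rw [← hU0, ← bf_cong, ← hM]
    exact (bf_single M 0 0).symm
  by_cases ha : bf K y y = 0
  · rw [ha]; simp
  obtain ⟨k, hk⟩ := exists_near (bf K y y) (M 0 1) ha
  have h1 := hmin (U *ᵥ ![k, 1]) (mulVec_ne hU (by
    intro h; have := congrFun h 1; simp at this))
  rw [← bf_cong, ← hM, bf_two M hM10, hM00] at h1
  have hdet : K.det = bf K y y * (bf K y y * k ^ 2 + 2 * M 0 1 * (k * 1) + M 1 1 * 1 ^ 2) -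
      (M 0 1 + k * bf K y y) ^ 2 := by
    rw [← det_cong hU, ← hM, Matrix.det_fin_two, hM10, hM00]
    ring
  obtain ⟨a, ha'⟩ : ∃ a, a = bf K y y := ⟨_, rfl⟩
  obtain ⟨c, hc⟩ : ∃ c, c = bf K y y * k ^ 2 + 2 * M 0 1 * (k * 1) + M 1 1 * 1 ^ 2 := ⟨_, rfl⟩
  obtain ⟨b, hb⟩ : ∃ b, b = M 0 1 + k * bf K y y := ⟨_, rfl⟩
  rw [← hb] at hk hdet
  rw [← hc] at h1 hdet
  rw [← ha'] at h1 hdet hk ⊢
  have h2 : |a| * |c| ≤ |K.det| + b ^ 2 := by
    rw [← abs_mul]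
    have e : a * c = K.det + b ^ 2 := by rw [hdet]; ring
    rw [e]
    calc |K.det + b ^ 2| ≤ |K.det| + |b ^ 2| := abs_add_le _ _
      _ = |K.det| + b ^ 2 := by rw [abs_of_nonneg (sq_nonneg b)]
  have h3 : 4 * b ^ 2 ≤ a ^ 2 := by
    rw [← sq_abs b, ← sq_abs a]
    nlinarith [abs_nonneg b, abs_nonneg a]
  have h4 : a ^ 2 = |a| * |a| := by rw [← sq_abs a]; ring
  nlinarith [mul_le_mul_of_nonneg_left h1 (abs_nonneg a)]

lemma bf_three (M : Matrix (Fin 3) (Fin 3) ℤ) (h10 : M 1 0 = M 0 1) (h20 : M 2 0 = M 0 2)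
    (h21 : M 2 1 = M 1 2) (x y z : ℤ) :
    bf M ![x, y, z] ![x, y, z] = M 0 0 * x ^ 2 + M 1 1 * y ^ 2 + M 2 2 * z ^ 2 +
      2 * (M 0 1 * (x * y) + M 0 2 * (x * z) + M 1 2 * (y * z)) := by
  unfold bf
  simp [Matrix.mulVec, dotProduct, Fin.sum_univ_succ]
  rw [h10, h20, h21]
  ring

lemma herm_aux {A g : ℤ} (hA : 1 < A) (h6 : 3 * (A * A) ≤ 4 * g) (h7 : 3 * g ^ 2 ≤ 4 * A) :
    False := by
  have h1 : 2 * A ≤ A * A := mul_le_mul_of_nonneg_right (by omega) (by omega)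
  have h2 : 3 ≤ g := by omega
  have h3 : 3 * g ≤ g * g := mul_le_mul_of_nonneg_right h2 (by omega)
  have h4 : g ^ 2 = g * g := by ring
  rw [h4] at h7
  omega

/-- Ternary unimodular forms. -/
lemma ternary {K : Matrix (Fin 3) (Fin 3) ℤ} (hs : Kᵀ = K) (hu : IsUnit K.det) :
    ∃ y, Prim y ∧ |bf K y y| ≤ 1 := by
  obtain ⟨y, hy, hmin⟩ := min_vec 0 K
  refine ⟨y, hy, ?_⟩
  obtain ⟨U, hU, hU0⟩ := complete 0 hy
  obtain ⟨M, hM⟩ : ∃ M, M = Uᵀ * K * U := ⟨_, rfl⟩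
  have hMs : Mᵀ = M := by rw [hM]; exact cong_symm hs
  have hM' : ∀ i j, M i j = M j i := by
    intro i j
    conv_lhs => rw [← hMs]
    rfl
  have hM00 : M 0 0 = bf K y y := by
    rw [← hU0, ← bf_cong, ← hM]
    exact (bf_single M 0 0).symm
  by_cases ha : bf K y y = 0
  · rw [ha]; simp
  have hdetM : |M.det| = 1 := by
    rw [hM, det_cong hU]
    rcases Int.isUnit_iff.1 hu with h | h <;> rw [h] <;> norm_num
  -- the binary form
  obtain ⟨G, hG⟩ : ∃ G : Matrix (Fin 2) (Fin 2) ℤ,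
    G = !![M 0 0 * M 1 1 - M 0 1 ^ 2, M 0 0 * M 1 2 - M 0 1 * M 0 2;
      M 0 0 * M 1 2 - M 0 1 * M 0 2, M 0 0 * M 2 2 - M 0 2 ^ 2] := ⟨_, rfl⟩
  have hGs : Gᵀ = G := by
    rw [hG]
    refine Matrix.ext fun i j => ?_
    fin_cases i <;> fin_cases j <;> rfl
  have hGd : G.det = M 0 0 * M.det := by
    rw [hG, Matrix.det_fin_two_of, Matrix.det_fin_three, hM' 1 0, hM' 2 0, hM' 2 1]
    ring
  obtain ⟨x, hx, -, hx2⟩ := binary hGs
  have hx0 : x ≠ 0 := by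
    rintro rfl
    obtain ⟨c, hc⟩ := hx
    simp at hc
  rw [hGd, abs_mul, hdetM, mul_one] at hx2
  obtain ⟨k, hk⟩ := exists_near (M 0 0) (M 0 1 * x 0 + M 0 2 * x 1) (by rw [hM00]; exact ha)
  have h1 := hmin (U *ᵥ ![k, x 0, x 1]) (mulVec_ne hU (by
    intro h
    apply hx0
    funext i
    fin_cases i
    · exact congrFun h 1
    · exact congrFun h 2))
  rw [← bf_cong, ← hM, bf_three M (hM' 1 0) (hM' 2 0) (hM' 2 1), ← hM00] at h1
  have hxe : x = ![x 0, x 1] := by funext i; fin_cases i <;> rfl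
  have e1 : bf G x x = G 0 0 * x 0 ^ 2 + 2 * G 0 1 * (x 0 * x 1) + G 1 1 * x 1 ^ 2 := by
    conv_lhs => rw [hxe]
    exact bf_two G (by rw [hG]; rfl) _ _
  obtain ⟨q, hq⟩ : ∃ q, q = M 0 0 * k ^ 2 + M 1 1 * x 0 ^ 2 + M 2 2 * x 1 ^ 2 +
      2 * (M 0 1 * (k * x 0) + M 0 2 * (k * x 1) + M 1 2 * (x 0 * x 1)) := ⟨_, rfl⟩
  have e2 : M 0 0 * q = (M 0 1 * x 0 + M 0 2 * x 1 + k * M 0 0) ^ 2 + bf G x x := by
    rw [hq, e1, hG]
    simp only [Matrix.of_apply, Matrix.cons_val_zero, Matrix.cons_val_one, Matrix.cons_val',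
      Matrix.cons_val_fin_one]
    ring
  rw [← hM00]
  rw [← hq] at h1
  obtain ⟨a, ha'⟩ : ∃ a, a = M 0 0 := ⟨_, rfl⟩
  obtain ⟨g, hg⟩ : ∃ g, g = bf G x x := ⟨_, rfl⟩
  obtain ⟨b, hb⟩ : ∃ b, b = M 0 1 * x 0 + M 0 2 * x 1 + k * M 0 0 := ⟨_, rfl⟩
  rw [← hb, ← ha', ← hg] at e2
  rw [← hb, ← ha'] at hk
  rw [← hg, ← ha'] at hx2
  rw [← ha'] at h1 ⊢
  have h2 : |a| * |q| ≤ b ^ 2 + |g| := by
    rw [← abs_mul, e2]
    calc |b ^ 2 + g| ≤ |b ^ 2| + |g| := abs_add_le _ _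
      _ = b ^ 2 + |g| := by rw [abs_of_nonneg (sq_nonneg b)]
  have h3 : 4 * b ^ 2 ≤ |a| * |a| := by
    rw [← sq_abs b]
    nlinarith [abs_nonneg b, abs_nonneg a]
  have h5 : |a| * |a| ≤ |a| * |q| := mul_le_mul_of_nonneg_left h1 (abs_nonneg a)
  have h6 : 3 * (|a| * |a|) ≤ 4 * |g| := by linarith
  have h7 : 3 * |g| ^ 2 ≤ 4 * |a| := by rw [sq_abs]; exact hx2
  by_contra hcon
  push Not at hcon
  obtain ⟨A, hA⟩ : ∃ A, A = |a| := ⟨_, rfl⟩
  obtain ⟨g', hg'⟩ : ∃ g', g' = |g| := ⟨_, rfl⟩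
  have hg0 : 0 ≤ g' := by rw [hg']; exact abs_nonneg _
  rw [← hA, ← hg'] at h6
  rw [← hA, ← hg'] at h7
  rw [← hA] at hcon
  exact herm_aux hcon h6 h7

/-! ### Families closed under congruence -/

/-- A family of unimodular symmetric integer matrices closed under congruence. -/
structure CC (S : Set (Matrix (Fin m) (Fin m) ℤ)) : Prop where
  sym : ∀ L ∈ S, Lᵀ = L
  uni : ∀ L ∈ S, IsUnit L.det
  cong : ∀ L ∈ S, ∀ U : Matrix (Fin m) (Fin m) ℤ, IsUnit U.det → Uᵀ * L * U ∈ S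

lemma Closed.toCC {S : Set (Matrix (Fin m) (Fin m) ℤ)} (hS : Closed S) : CC S :=
  ⟨hS.sym, hS.uni, hS.cong⟩

lemma cc_S1 {S : Set (Matrix (Fin (m + 1)) (Fin (m + 1)) ℤ)} (hS : CC S) {ε : ℤ} :
    CC (S1 S ε) where
  sym := by
    intro K hK
    have := hS.sym _ hK
    rw [bl_transpose] at this
    exact bl_inj this
  uni := by
    intro K hK
    have := hS.uni _ hK
    rw [bl_det] at this
    exact isUnit_of_mul_isUnit_right this
  cong := by
    intro K hK U hU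
    have := hS.cong _ hK (bl 1 U) (by rw [bl_det, one_mul]; exact hU)
    rw [bl_transpose, bl_mul, bl_mul, one_mul, mul_one] at this
    exact this

/-- Splitting off a vector of norm `±1` which is not characteristic. -/
lemma split_cc {S : Set (Matrix (Fin (m + 1)) (Fin (m + 1)) ℤ)} (hS : CC S)
    {L : Matrix (Fin (m + 1)) (Fin (m + 1)) ℤ} (hL : L ∈ S) {ε : ℤ}
    (hε : ε * ε = 1) {v : Fin (m + 1) → ℤ} (hv : bf L v v = ε) (hnc : NC L v) :
    ∃ K ∈ S1 S ε, IsOdd K := by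
  obtain ⟨U, K, hU, hU0, hUL⟩ := split (hS.sym _ hL) hε hv
  refine ⟨K, ?_, ?_⟩
  · show bl ε K ∈ S
    rw [← hUL]
    exact hS.cong _ hL U hU
  · obtain ⟨x, hx⟩ := hnc
    have hinv' : U *ᵥ (U⁻¹ *ᵥ x) = x := by
      rw [Matrix.mulVec_mulVec, Matrix.mul_nonsing_inv _ hU, Matrix.one_mulVec]
    refine ⟨fun i => (U⁻¹ *ᵥ x) i.succ, ?_⟩
    have e1 : bf L x x = ε * (U⁻¹ *ᵥ x) 0 * (U⁻¹ *ᵥ x) 0 +
        bf K (fun i => (U⁻¹ *ᵥ x) i.succ) (fun i => (U⁻¹ *ᵥ x) i.succ) := by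
      rw [← bf_bl, ← cons_head_tail, ← hUL, bf_cong, hinv']
    have e2 : bf L x v = ε * (U⁻¹ *ᵥ x) 0 := by
      have e3 : bf (bl ε K) (U⁻¹ *ᵥ x) (Pi.single 0 1) = ε * (U⁻¹ *ᵥ x) 0 := by
        conv_lhs => rw [cons_head_tail (U⁻¹ *ᵥ x), single_zero_eq]
        rw [bf_bl]
        unfold bf
        simp
      rw [← e3, ← hUL, bf_cong, hinv', hU0]
    rintro ⟨c, hc⟩
    apply hx
    rw [e1, e2, hc]
    have hpar : (2 : ℤ) ∣ (U⁻¹ *ᵥ x) 0 * (U⁻¹ *ᵥ x) 0 + (U⁻¹ *ᵥ x) 0 := by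
      have := Int.even_mul_succ_self ((U⁻¹ *ᵥ x) 0)
      obtain ⟨r, hr⟩ := this
      exact ⟨r, by linear_combination hr⟩
    obtain ⟨r, hr⟩ := hpar
    exact ⟨ε * r + c, by linear_combination ε * hr⟩

/-- A diagonal matrix with entries `±1`. -/
def IsDiag (D : Matrix (Fin m) (Fin m) ℤ) : Prop :=
  ∃ d : Fin m → ℤ, (∀ i, d i = 1 ∨ d i = -1) ∧ D = Matrix.diagonal d

lemma isDiag_bl {ε : ℤ} (hε : ε * ε = 1) {D : Matrix (Fin m) (Fin m) ℤ} (hD : IsDiag D) :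
    IsDiag (bl ε D) := by
  obtain ⟨d, hd, rfl⟩ := hD
  refine ⟨Fin.cons ε d, ?_, ?_⟩
  · intro i
    refine Fin.cases ?_ (fun i => ?_) i
    · exact Int.isUnit_iff.1 (one_sq hε)
    · exact hd i
  · refine Matrix.ext fun i j => ?_
    refine Fin.cases ?_ (fun i => ?_) i <;> refine Fin.cases ?_ (fun j => ?_) j
    · simp
    · rw [bl_zero_succ, Matrix.diagonal_apply_ne _ (Fin.succ_ne_zero j).symm]
    · rw [bl_succ_zero, Matrix.diagonal_apply_ne _ (Fin.succ_ne_zero i)]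
    · rw [bl_succ_succ, Matrix.diagonal_apply, Matrix.diagonal_apply]
      simp [Fin.succ_inj]

/-- Size one. -/
lemma diag_one {S : Set (Matrix (Fin 1) (Fin 1) ℤ)} (hS : CC S) {L : Matrix (Fin 1) (Fin 1) ℤ}
    (hL : L ∈ S) : ∃ D ∈ S, IsDiag D := by
  refine ⟨L, hL, fun i => L i i, ?_, ?_⟩
  · intro i
    have := hS.uni _ hL
    rw [Matrix.det_unique] at this
    have hi : i = default := Subsingleton.elim _ _
    rw [hi]
    exact Int.isUnit_iff.1 this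
  · refine Matrix.ext fun i j => ?_
    have hi : i = j := Subsingleton.elim _ _
    rw [hi, Matrix.diagonal_apply_eq]

lemma abs_le_one_cases {x : ℤ} (h : |x| ≤ 1) : x = 0 ∨ x * x = 1 := by
  rw [abs_le] at h
  have : x = -1 ∨ x = 0 ∨ x = 1 := by omega
  rcases this with h | h | h <;> rw [h] <;> norm_num

/-- Size two. -/
lemma diag_two {S : Set (Matrix (Fin 2) (Fin 2) ℤ)} (hS : CC S) {L : Matrix (Fin 2) (Fin 2) ℤ}
    (hL : L ∈ S) (ho : IsOdd L) : ∃ D ∈ S, IsDiag D := by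
  have hs := hS.sym _ hL
  have hu := hS.uni _ hL
  have key : ∀ (ε : ℤ) (v : Fin 2 → ℤ), ε * ε = 1 → bf L v v = ε → ∃ D ∈ S, IsDiag D := by
    intro ε v hε hv
    obtain ⟨U, K, hU, hU0, hUL⟩ := split hs hε hv
    have hK : K ∈ S1 S ε := by
      show bl ε K ∈ S
      rw [← hUL]
      exact hS.cong _ hL U hU
    obtain ⟨D, hD, hD2⟩ := diag_one (cc_S1 hS) hK
    exact ⟨bl ε D, hD, isDiag_bl hε hD2⟩
  obtain ⟨y, hy, -, hy2⟩ := binary hs
  have hdet : |L.det| = 1 := by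
    rcases Int.isUnit_iff.1 hu with h | h <;> rw [h] <;> norm_num
  rw [hdet] at hy2
  have h1 : |bf L y y| ≤ 1 := by
    by_contra h
    push Not at h
    have : (2 : ℤ) ≤ |bf L y y| := by linarith
    nlinarith [sq_abs (bf L y y)]
  rcases abs_le_one_cases h1 with h | h
  · obtain ⟨u, hu1, -⟩ := iso_case hs hu ho hy h
    exact key 1 u (by norm_num) hu1
  · exact key _ y h rfl

/-- Size three. -/
lemma diag_three {S : Set (Matrix (Fin 3) (Fin 3) ℤ)} (hS : CC S) {L : Matrix (Fin 3) (Fin 3) ℤ}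
    (hL : L ∈ S) (ho : IsOdd L) : ∃ D ∈ S, IsDiag D := by
  have hs := hS.sym _ hL
  have hu := hS.uni _ hL
  have key : ∀ (ε : ℤ) (v : Fin 3 → ℤ), ε * ε = 1 → bf L v v = ε → NC L v →
      ∃ D ∈ S, IsDiag D := by
    intro ε v hε hv hnc
    obtain ⟨K, hK, hKo⟩ := split_cc hS hL hε hv hnc
    obtain ⟨D, hD, hD2⟩ := diag_two (cc_S1 hS) hK hKo
    exact ⟨bl ε D, hD, isDiag_bl hε hD2⟩
  have key0 : ∀ v, Prim v → bf L v v = 0 → ∃ D ∈ S, IsDiag D := by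
    intro v hv hv0
    obtain ⟨u, hu1, hu2⟩ := iso_case hs hu ho hv hv0
    exact key 1 u (by norm_num) hu1 hu2
  obtain ⟨y, hy, hy1⟩ := ternary hs hu
  rcases abs_le_one_cases hy1 with h | h
  · exact key0 y hy h
  · by_cases hnc : NC L y
    · exact key _ y h rfl hnc
    · obtain ⟨U, K, hU, hU0, hUL⟩ := split hs h rfl
      have hK : K ∈ S1 S (bf L y y) := by
        show bl _ K ∈ S
        rw [← hUL]
        exact hS.cong _ hL U hU
      obtain ⟨x, hx, -, hx2⟩ := binary ((cc_S1 hS).sym _ hK)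
      have hdet : |K.det| = 1 := by
        rcases Int.isUnit_iff.1 ((cc_S1 hS).uni _ hK) with h | h <;> rw [h] <;> norm_num
      rw [hdet] at hx2
      have h1 : |bf K x x| ≤ 1 := by
        by_contra h
        push Not at h
        have : (2 : ℤ) ≤ |bf K x x| := by linarith
        nlinarith [sq_abs (bf K x x)]
      have e1 : bf L (U *ᵥ Fin.cons 0 x) (U *ᵥ Fin.cons 0 x) = bf K x x := by
        rw [← bf_cong, hUL, bf_bl]; ring
      have e2 : bf L (U *ᵥ Fin.cons 0 x) y = 0 := by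
        conv_lhs => rw [← hU0]
        rw [← bf_cong, hUL, single_zero_eq, bf_bl]
        unfold bf
        simp
      have e3 : (2 : ℤ) ∣ bf K x x := by
        by_contra hcon
        apply hnc
        exact ⟨U *ᵥ Fin.cons 0 x, by rw [e1, e2, add_zero]; exact hcon⟩
      have e4 : bf K x x = 0 := by
        rcases abs_le_one_cases h1 with h | h
        · exact h
        · exfalso
          obtain ⟨c, hc⟩ := e3
          rw [hc] at h
          have : (2 : ℤ) * (2 * (c * c)) = 1 := by linear_combination h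
          omega
      refine key0 (U *ᵥ Fin.cons 0 x) ?_ (by rw [e1, e4])
      obtain ⟨c, hc⟩ := prim_cons hx 0
      refine ⟨(U⁻¹)ᵀ *ᵥ c, ?_⟩
      rw [Matrix.mulVec_transpose, ← Matrix.dotProduct_mulVec, Matrix.mulVec_mulVec,
        Matrix.nonsing_inv_mul _ hU, Matrix.one_mulVec]
      exact hc

/-- **The induction.** -/
theorem diag_all : ∀ (m : ℕ) (S : Set (Matrix (Fin m) (Fin m) ℤ)), Closed S →
    ∀ L ∈ S, IsOdd L → ∃ D ∈ S, IsDiag D := by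
  intro m
  induction m with
  | zero =>
    intro S hS L hL ho
    refine ⟨L, hL, fun i => i.elim0, fun i => i.elim0, ?_⟩
    refine Matrix.ext fun i => i.elim0
  | succ m ih =>
    intro S hS L hL ho
    rcases Nat.lt_or_ge m 3 with h | h
    · have h3 : m = 0 ∨ m = 1 ∨ m = 2 := by omega
      rcases h3 with rfl | rfl | rfl
      · exact diag_one hS.toCC hL
      · exact diag_two hS.toCC hL ho
      · exact diag_three hS.toCC hL ho
    · obtain ⟨ε, y, N, hε, hy, hN, hyy, hnc⟩ := rep_four (by omega) (hS.sym _ hL) (hS.uni _ hL) ho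
      obtain ⟨K, hK, hKo⟩ := step_odd hS hL hε hy hN hyy hnc
      obtain ⟨D, hD, hD2⟩ := ih (S1 S ε) (closed_S1 hS hε) K hK hKo
      exact ⟨bl ε D, hD, isDiag_bl hε hD2⟩

end Pool.Agent.K1H60.BF
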