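import Pool.Agent.K1H60.BF.Iso

/-!
# The basic modification of a hermitian matrix
-/

set_option autoImplicit false

namespace Pool.Agent.K1H60.BF

open LaurentPolynomial Matrix Pool.Agent.R799

variable {ι : Type*} [Fintype ι] [DecidableEq ι]

section Ring

variable {R : Type*} [CommRing R]

/-- the matrix `c + e v`, where `e` is the column of the index `i0` -/
def rk (i0 : ι) (c : R) (v : ι → R) : Matrix ι ι R := c • 1 + vecMulVec (Pi.single i0 1) v

/-- the matrix `c + u e`, where `e` is the row of the index `i0` -/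
def lk (i0 : ι) (c : R) (u : ι → R) : Matrix ι ι R := c • 1 + vecMulVec u (Pi.single i0 1)

lemma quad_rk (i0 : ι) (M : Matrix ι ι R) (c c' : R) (u v : ι → R) (i j : ι) :
    (lk i0 c u * M * rk i0 c' v) i j =
      c * c' * M i j + c * M i i0 * v j + u i * c' * M i0 j + u i * M i0 i0 * v j := by
  have h1 : ∀ x, (Pi.single i0 (1 : R) ᵥ* M) x = M i0 x := by
    intro x; simp
  have h2 : ∀ x, (M *ᵥ Pi.single i0 (1 : R)) x = M x i0 := by
    intro x; simp
  unfold lk rk
  rw [Matrix.add_mul, Matrix.mul_add, Matrix.add_mul, Matrix.add_mul, Matrix.smul_mul,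
    Matrix.one_mul, Matrix.vecMulVec_mul, Matrix.mul_smul, Matrix.mul_one, Matrix.mul_smul,
    Matrix.mul_one, Matrix.smul_mul, Matrix.mul_vecMulVec, Matrix.vecMulVec_mul]
  simp only [Matrix.add_apply, Matrix.smul_apply, vecMulVec_apply, h1, h2, smul_eq_mul]
  have h3 : ((Pi.single i0 (1 : R) ᵥ* M) ᵥ* vecMulVec (Pi.single i0 1) v) j = M i0 i0 * v j := by
    rw [Matrix.vecMul_vecMulVec]
    simp
  rw [h3]
  ring

lemma det_rk (i0 : ι) (c : R) (v : ι → R) :
    (rk i0 c v).det = c ^ (Fintype.card ι - 1) * (c + v i0) := by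
  have h1 : rk i0 c v = (c • (1 : Matrix ι ι R)).updateRow i0 (fun j => (if j = i0 then c else 0) + v j) := by
    refine Matrix.ext fun i j => ?_
    unfold rk
    rw [Matrix.add_apply, Matrix.smul_apply, vecMulVec_apply, Matrix.updateRow_apply, smul_eq_mul,
      Matrix.one_apply]
    by_cases hi : i = i0
    · subst hi
      simp [eq_comm]
    · simp [hi, Matrix.one_apply]
  have h2 : ∀ (A : Matrix ι ι R) (b : ι → R), (A.updateRow i0 b).det = (Aᵀ.adjugate *ᵥ b) i0 := by
    intro A b
    rw [← Matrix.cramer_eq_adjugate_mulVec, Matrix.cramer_transpose_apply]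
  rw [h1, h2, Matrix.transpose_smul, Matrix.transpose_one, Matrix.adjugate_smul,
    Matrix.adjugate_one, Matrix.smul_mulVec, Matrix.one_mulVec]
  simp

end Ring

lemma conjT_rk (i0 : ι) (c : Lam) (v : ι → Lam) :
    conjT (rk i0 c v) = lk i0 (bar c) (fun i => bar (v i)) := by
  refine Matrix.ext fun i j => ?_
  rw [conjT_apply]
  unfold rk lk
  simp only [Matrix.add_apply, Matrix.smul_apply, vecMulVec_apply, smul_eq_mul, map_add, map_mul,
    Matrix.one_apply]
  by_cases h : i = j
  · subst h
    by_cases hi : i = i0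
    · subst hi; simp
    · simp [Pi.single_apply, hi]
  · have h' : j ≠ i := fun hh => h hh.symm
    by_cases hi : j = i0
    · subst hi; simp [h, h']
    · simp [Pi.single_apply, h, h', hi]

/-- The modified matrix. -/
noncomputable def stepM (B : Matrix ι ι Lam) (i0 : ι) (w m : Lam) : Matrix ι ι Lam := fun i j =>
  if i = i0 then (if j = i0 then B i0 i0 else B i0 j * w)
  else (if j = i0 then B i i0 * bar w else B i j + m * (B i i0 * B i0 j))

lemma stepM_herm {B : Matrix ι ι Lam} (hB : conjT B = B) (i0 : ι) (w : Lam) {m : Lam}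
    (hm : bar m = m) : conjT (stepM B i0 w m) = stepM B i0 w m := by
  have hb : ∀ i j, bar (B j i) = B i j := fun i j => by rw [← conjT_apply, hB]
  refine Matrix.ext fun i j => ?_
  rw [conjT_apply]
  unfold stepM
  by_cases hi : i = i0 <;> by_cases hj : j = i0
  · simp [hi, hj, hb]
  · simp [hi, hj, hb]
  · simp [hi, hj, hb]
  · simp only [hi, hj, if_false, map_add, map_mul, hb, hm]
    ring

/-- The vector of the transition matrix. -/
noncomputable def vQ (B : Matrix ι ι Lam) (i0 : ι) (p : Lam) : ι → Lam := fun j =>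
  if j = i0 then -p - bar p else -B i0 j

lemma step_quad {B : Matrix ι ι Lam} (hB : conjT B = B) (i0 : ι) {p m : Lam}
    (h00 : B i0 i0 = p + bar p + p * bar p * m) :
    conjT (rk i0 (bar p) (vQ B i0 p)) * stepM B i0 (1 + p * m) m * rk i0 (bar p) (vQ B i0 p) =
      (p * bar p) • B := by
  have hb : ∀ i j, bar (B j i) = B i j := fun i j => by rw [← conjT_apply, hB]
  have hm : ∀ x : Lam, bar (bar x) = x := bar_bar
  refine Matrix.ext fun i j => ?_
  rw [conjT_rk, quad_rk, Matrix.smul_apply, smul_eq_mul]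
  unfold stepM vQ
  by_cases hi : i = i0 <;> by_cases hj : j = i0
  · subst hi; subst hj
    simp only [if_true, map_sub, map_neg, hm]
    rw [h00]; ring
  · subst hi
    simp only [hj, if_true, if_false, map_sub, map_neg, hm]
    rw [h00]; ring
  · subst hj
    have h5 : bar (p + bar p + p * bar p * m) = p + bar p + p * bar p * m := by rw [← h00, hb]
    simp only [hi, if_true, if_false, map_sub, map_neg, map_add, map_mul, map_one, hm, hb] at h5 ⊢
    rw [h00]
    have h6 : p * bar p * bar m = p * bar p * m := by linear_combination h5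
    linear_combination (-(B i j) * p) * h6 + 0
  · simp only [hi, hj, if_true, if_false, map_sub, map_neg, map_add, map_mul, map_one, hm, hb]
    rw [h00]
    have h5 : bar (p + bar p + p * bar p * m) = p + bar p + p * bar p * m := by rw [← h00, hb]
    simp only [map_add, map_mul, hm] at h5
    have h6 : p * bar p * bar m = p * bar p * m := by linear_combination h5
    linear_combination (-(B i i0) * (B i0 j)) * h6 + 0

lemma step_det {B : Matrix ι ι Lam} (hB : conjT B = B) (i0 : ι) {p m : Lam}
    (h00 : B i0 i0 = p + bar p + p * bar p * m) (hp : p ≠ 0) :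
    (stepM B i0 (1 + p * m) m).det = B.det := by
  have hbp : bar p ≠ 0 := fun h => hp (by rw [← bar_bar p, h, map_zero])
  have h1 := congrArg Matrix.det (step_quad hB i0 h00)
  rw [Matrix.det_mul, Matrix.det_mul, Matrix.det_smul, det_conjT, det_rk] at h1
  have hv : bar p + vQ B i0 p i0 = -p := by
    unfold vQ; simp
  rw [hv] at h1
  simp only [map_mul, map_pow, map_neg, bar_bar] at h1
  obtain ⟨k, hk⟩ : ∃ k, Fintype.card ι = k + 1 := by
    have : 0 < Fintype.card ι := Fintype.card_pos_iff.2 ⟨i0⟩
    exact ⟨Fintype.card ι - 1, by omega⟩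
  rw [hk] at h1
  simp only [Nat.add_sub_cancel] at h1
  have hne : (p * bar p) ^ (k + 1) ≠ 0 := pow_ne_zero _ (mul_ne_zero hp hbp)
  apply mul_left_cancel₀ hne
  rw [← h1]
  ring

lemma step_mod {B : Matrix ι ι Lam} (hB : conjT B = B) (i0 : ι) {p m D h : Lam}
    (hD : bar D = D) (hp : p = 1 + D * h)
    (h00 : B i0 i0 = p + bar p + p * bar p * m) :
    ∃ C : Matrix ι ι Lam, stepM B i0 (1 + p * m) m =
      conjT (rk i0 1 (fun j => if j = i0 then -2 else -B i0 j)) * B *
        rk i0 1 (fun j => if j = i0 then -2 else -B i0 j) + D • C := by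
  have hb : ∀ i j, bar (B j i) = B i j := fun i j => by rw [← conjT_apply, hB]
  have hbp : bar p = 1 + D * bar h := by rw [hp]; simp [hD]
  have h5 : B i0 i0 = bar p + p + bar p * p * bar m := by
    rw [← hb i0 i0, h00]; simp
  refine ⟨Matrix.of fun i j => if i = i0 then (if j = i0 then 0 else
      -B i0 j * (h + bar h + bar h * (p * m)))
    else (if j = i0 then -B i i0 * (h + bar h + h * (bar p * bar m)) else
      -(B i i0 * B i0 j) * (h + bar h + (h + bar h + D * h * bar h) * m)), ?_⟩
  refine Matrix.ext fun i j => ?_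
  rw [conjT_rk, Matrix.add_apply, quad_rk, Matrix.smul_apply, smul_eq_mul, Matrix.of_apply]
  unfold stepM
  by_cases hi : i = i0 <;> by_cases hj : j = i0
  · subst hi; subst hj
    simp only [if_true, map_neg, map_one, map_ofNat]
    ring
  · subst hi
    simp only [hj, if_true, if_false, map_neg, map_one, map_ofNat]
    rw [h00, hbp, hp]
    ring
  · subst hj
    simp only [hi, if_true, if_false, map_neg, map_one, map_ofNat, map_add, map_mul, hb]
    rw [h5, hbp, hp]
    ring
  · simp only [hi, hj, if_false, map_neg, map_one, hb]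
    rw [h00, hbp, hp]
    ring

lemma rk_invol (i0 : ι) {v : ι → Lam} (hv : v i0 = -2) : rk i0 1 v * rk i0 1 v = 1 := by
  unfold rk
  have h1 : v ⬝ᵥ Pi.single i0 1 = -2 := by
    rw [dotProduct_single, hv]; simp
  have h2 : vecMulVec (Pi.single i0 (1 : Lam)) v * vecMulVec (Pi.single i0 (1 : Lam)) v =
      (-2 : Lam) • vecMulVec (Pi.single i0 (1 : Lam)) v := by
    rw [Matrix.vecMulVec_mul_vecMulVec, h1]
    refine Matrix.ext fun i j => ?_
    simp only [Matrix.smul_apply, vecMulVec_apply, Pi.smul_apply, smul_eq_mul]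
    ring
  rw [one_smul, Matrix.add_mul, Matrix.one_mul, Matrix.mul_add, Matrix.mul_one, h2,
    neg_smul, two_smul]
  abel

/-- **The basic modification.** -/
theorem step_iso {B : Matrix ι ι Lam} (hB : conjT B = B) (hd : B.det ≠ 0) (i0 : ι) {p m h : Lam}
    (hm : bar m = m) (hp : p = 1 + B.det ^ 2 * h) (hp0 : p ≠ 0)
    (h00 : B i0 i0 = p + bar p + p * bar p * m) :
    Iso B (stepM B i0 (1 + p * m) m) := by
  have hD : bar (B.det ^ 2) = B.det ^ 2 := by
    rw [map_pow, ← det_conjT, hB]
  obtain ⟨C, hC⟩ := step_mod hB i0 hD hp h00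
  set P := rk i0 1 (fun j => if j = i0 then (-2 : Lam) else -B i0 j) with hP
  have hPP : P * P = 1 := rk_invol i0 (by simp)
  have h1 : Iso B (conjT P * B * P) := iso_congr hB hd hPP hPP
  have hdP : (conjT P * B * P).det = B.det := by
    have e1 : P.det * P.det = 1 := by rw [← Matrix.det_mul, hPP, Matrix.det_one]
    have e2 : P.det = -1 := by
      rw [hP, det_rk]; simp; norm_num
    rw [Matrix.det_mul, Matrix.det_mul, det_conjT, e2]
    simp
  have h2 : Iso (conjT P * B * P) (stepM B i0 (1 + p * m) m) := by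
    refine iso_of_congr_mod (C := C) (stepM_herm hB i0 _ hm) ?_ ?_ ?_
    · rw [hdP]; exact hd
    · rw [hdP]; exact step_det hB i0 h00 hp0
    · rw [hdP]; exact hC
  exact h1.trans h2

end Pool.Agent.K1H60.BF
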